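import Pool.Agent.N508.CS.Stm

/-!
# The quotient by the group generated by a compatible family

The group `N` generated by a compatible family `A` of a group `G` acting on a tree; the quotient `G / N`
acts on a tree, and the stabilizers are known.

Author helper3 (project CS of helper508).
-/

set_option autoImplicit false

namespace Pool.Agent.N508.CS

open SimpleGraph
open Pool.Agent.Y110.FJ
open Pool.Agent.N509.TK
open Pool.Agent.N509.TX
open Pool.Agent.R941.FJ (mem_sup_normal)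

theorem iSup_Sb {G V : Type} [Group G] [MulAction G V] {T : SimpleGraph V} {A : V → Subgroup G}
    (hA : CFam T A) {N : Subgroup G} (hN : N = ⨆ v, A v) : (⨆ v : V, Sb N v) = N := by
  refine le_antisymm (Sb_le N) ?_
  have h : ∀ v, A v ≤ ⨆ v : V, Sb N v := fun v a ha =>
    le_iSup (Sb N) v (mem_Sb.2 ⟨hA.fix v a ha, by rw [hN]; exact le_iSup A v ha⟩)
  calc N = ⨆ v, A v := hN
    _ ≤ _ := iSup_le h

/-- the quotient by the group generated by a compatible family acts on a tree -/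
theorem t_quot : S_QUOT := by
  intro G V _ _ T hT hact A hA N hNn hN
  obtain ⟨S, hS⟩ := Tv.exists (R := Sb N) hT
  have hS1 : Tq T (⨆ v : V, Sb N v) S := Tq.of_Sb hT hact N hS
  rw [iSup_Sb hA hN] at hS1
  have hvert : ∀ (w : S) (g : G), sm hS1 g w = w →
      ∃ g' : G, g' • (w : V) = w ∧ (g' : G ⧸ N) = (g : G ⧸ N) := by
    intro w g h1
    obtain ⟨h', hh', h2⟩ := sm_spec hS1 g w
    rw [h1] at h2
    refine ⟨h'⁻¹ * g, by rw [mul_smul, h2, inv_smul_smul], ?_⟩
    rw [QuotientGroup.mk_mul, (QuotientGroup.eq_one_iff _).2 (inv_mem hh'), one_mul]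
  refine ⟨↥S, qa hS1, T.induce S, Subtype.val, hS1.isTree hT, ?_, ?_, ?_, ?_⟩
  · intro q s t hst
    obtain ⟨g, rfl⟩ := QuotientGroup.mk_surjective q
    exact sm_adj hact hS1 g s t hst
  · intro u v h
    exact h
  · intro w q
    constructor
    · intro h
      obtain ⟨g, rfl⟩ := QuotientGroup.mk_surjective q
      exact hvert w g h
    · rintro ⟨g, hg, rfl⟩
      exact sm_eq hS1 (one_mem _) (by rw [one_smul]; exact hg)
  · intro s t hst q hs ht
    obtain ⟨g0, rfl⟩ := QuotientGroup.mk_surjective q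
    obtain ⟨g, hg, hgq⟩ := hvert s g0 hs
    rw [← hgq] at ht ⊢
    have hst' : T.Adj (s : V) (t : V) := hst
    have h1 : sm hS1 g t = t := ht
    obtain ⟨h', hh', h2⟩ := sm_spec hS1 g t
    rw [h1] at h2
    have h3 : T.Adj (s : V) (g • (t : V)) := by
      have h := hact g _ _ hst'
      rwa [hg] at h
    obtain ⟨u, hu, h4, r, hr, h5, h6⟩ := hS1.max s s.2 _ h3
    have h7 : (⟨u, hu⟩ : S) = t := quq hS1 hr hh' (h6.trans h2)
    have h8 : u = (t : V) := congrArg Subtype.val h7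
    refine ⟨r⁻¹ * g, ?_, ?_, ?_⟩
    · rw [mul_smul, hg, inv_smul_eq_iff, h5]
    · rw [mul_smul, ← h6, inv_smul_smul, h8]
    · rw [QuotientGroup.mk_mul, (QuotientGroup.eq_one_iff _).2 (inv_mem hr), one_mul]

/-- two homomorphisms with the same kernel -/
theorem embed {G H K Q : Type} [Group G] [Group H] [Group K] [Group Q] (π : G →* H) (f : G →* Q)
    (hf : ∀ g, f g = 1 ↔ π g = 1) (j : K →* H) (hj : Function.Injective j)
    (hjr : ∀ k, ∃ g, π g = j k) : ∃ φ : K →* Q, Function.Injective φ := by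
  choose d hd using hjr
  have key : ∀ a b : G, π a = π b → f a = f b := by
    intro a b h
    have h1 : f (a * b⁻¹) = 1 := (hf _).2 (by rw [map_mul, map_inv, h, mul_inv_cancel])
    rw [map_mul, map_inv] at h1
    exact mul_inv_eq_one.1 h1
  refine ⟨MonoidHom.mk' (fun k => f (d k)) ?_, ?_⟩
  · intro a b
    show f (d (a * b)) = f (d a) * f (d b)
    rw [← map_mul]
    exact key _ _ (by rw [hd, map_mul, map_mul, hd, hd])
  · rw [injective_iff_map_eq_one]
    intro a h
    have h1 : f (d a) = 1 := h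
    have h2 : π (d a) = 1 := (hf _).1 h1
    rw [hd] at h2
    exact hj (h2.trans (map_one j).symm)

/-- subgroups of `L ⟨q⟩` are cyclic modulo `L` -/
theorem cyc_mod {G : Type} [Group G] (L : Subgroup G) [L.Normal] (q : G) (H : Subgroup G)
    (hH : H ≤ L ⊔ Subgroup.zpowers q) : ∃ y ∈ H, ∀ p ∈ H, ∃ k : ℤ, p * (y ^ k)⁻¹ ∈ L := by
  have h1 : H.map (QuotientGroup.mk' L) ≤ Subgroup.zpowers (QuotientGroup.mk' L q) := by
    rintro _ ⟨p, hp, rfl⟩
    obtain ⟨a, ha, _, ⟨k, rfl⟩, hab⟩ := mem_sup_normal.1 (hH hp)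
    refine ⟨k, ?_⟩
    show (QuotientGroup.mk' L q) ^ k = QuotientGroup.mk' L p
    have h2 : QuotientGroup.mk' L a = 1 := (QuotientGroup.eq_one_iff a).2 ha
    rw [← hab, map_mul, h2, one_mul]
    exact (map_zpow _ _ _).symm
  have h2 : IsCyclic ↥(H.map (QuotientGroup.mk' L)) := by
    have h3 : IsCyclic ↥(Subgroup.zpowers (QuotientGroup.mk' L q)) := inferInstance
    exact isCyclic_of_injective (Subgroup.inclusion h1) (Subgroup.inclusion_injective h1)
  obtain ⟨⟨_, y, hy, rfl⟩, hgen⟩ := h2.exists_generator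
  refine ⟨y, hy, fun p hp => ?_⟩
  obtain ⟨k, hk⟩ := hgen ⟨QuotientGroup.mk' L p, p, hp, rfl⟩
  refine ⟨k, ?_⟩
  have h3 : (QuotientGroup.mk' L y) ^ k = QuotientGroup.mk' L p := congrArg Subtype.val hk
  refine (QuotientGroup.eq_one_iff _).1 ?_
  show QuotientGroup.mk' L (p * (y ^ k)⁻¹) = 1
  rw [map_mul, map_inv, map_zpow, h3, mul_inv_cancel]

theorem t_qd : S_STAB → S_QD := by
  intro hst C hC G V _ _ T hT hact A B hA hB hAB hSt N M hNn hMn hN hM
  obtain ⟨W, act, T', ι, h1, h2, h3, h4, h5⟩ := t_quot G V T hT hact A hA N hN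
  have hNM : N ≤ M := by
    rw [hN, hM]
    exact iSup_mono hAB
  have hBM : ∀ v, B v ≤ M := by
    rw [hM]
    exact fun v => le_iSup B v
  have hAN : ∀ v, A v ≤ N := by
    rw [hN]
    exact fun v => le_iSup A v
  have memL : ∀ g : G, (g : G ⧸ N) ∈ M.map (QuotientGroup.mk' N) ↔ g ∈ M := by
    intro g
    constructor
    · rintro ⟨m, hm, hmg⟩
      have h : m⁻¹ * g ∈ N := QuotientGroup.eq.1 hmg
      have h' := mul_mem hm (hNM h)
      rwa [mul_inv_cancel_left] at h'
    · intro hg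
      exact ⟨g, hg, rfl⟩
  have hBst : ∀ (v : V) (x : G), x ∈ M → x • v = v → x ∈ B v := by
    intro v x hx hxv
    rw [hM] at hx
    exact hst G V T hT hact B hB v x hx hxv
  have hAst : ∀ (v : V) (x : G), x ∈ N → x • v = v → x ∈ A v := by
    intro v x hx hxv
    rw [hN] at hx
    exact hst G V T hT hact A hA v x hx hxv
  have hstab : ∀ (w : W) (q : G ⧸ N), (q ∈ M.map (QuotientGroup.mk' N) ∧ q • w = w) ↔
      ∃ g ∈ B (ι w), (g : G ⧸ N) = q := by
    intro w q
    constructor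
    · rintro ⟨hq, hw⟩
      obtain ⟨g, hg, rfl⟩ := (h4 w q).1 hw
      exact ⟨g, hBst _ _ ((memL g).1 hq) hg, rfl⟩
    · rintro ⟨g, hg, rfl⟩
      exact ⟨(memL g).2 (hBM _ hg), (h4 w _).2 ⟨g, hB.fix _ g hg, rfl⟩⟩
  have hLn : (M.map (QuotientGroup.mk' N)).Normal :=
    hMn.map _ (QuotientGroup.mk'_surjective N)
  refine ⟨W, act, T', ι, h1, h2, h3, hstab, ?_, ?_, ?_, ?_, ?_, ?_⟩
  · intro u v h q hq hu hv
    obtain ⟨g, hg1, hg2, rfl⟩ := h5 u v h q hu hv
    exact ⟨g, hBst _ _ ((memL g).1 hq) hg2, hg1, rfl⟩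
  · intro w g hg hg1
    exact hAst _ _ ((QuotientGroup.eq_one_iff g).1 hg1) hg
  · intro w g hg
    exact (QuotientGroup.eq_one_iff g).2 (hAN _ hg)
  · intro w g hg
    exact hB.fix _ g hg
  · intro w
    exact hAB _
  · intro q w
    obtain ⟨L, hL⟩ : ∃ L : Subgroup (G ⧸ N), L = M.map (QuotientGroup.mk' N) := ⟨_, rfl⟩
    rw [← hL] at hLn hstab ⊢
    obtain ⟨y, hy, hyH⟩ := cyc_mod L q ((L ⊔ Subgroup.zpowers q) ⊓ MulAction.stabilizer (G ⧸ N) w)
      inf_le_left
    obtain ⟨x, hx, hxy⟩ := (h4 w y).1 hy.2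
    obtain ⟨Q, _, f, hQ, hf⟩ := hSt (ι w) x hx
    have hD : ∀ g ∈ B (ι w) ⊔ Subgroup.zpowers x, g • ι w = ι w := by
      have h : B (ι w) ⊔ Subgroup.zpowers x ≤ MulAction.stabilizer G (ι w) :=
        sup_le (fun g hg => hB.fix _ g hg) (Subgroup.zpowers_le.2 hx)
      exact fun g hg => h hg
    obtain ⟨φ, hφ⟩ := embed (G := ↥(B (ι w) ⊔ Subgroup.zpowers x)) (H := G ⧸ N)
      (K := ↥(MulAction.stabilizer ↥(L ⊔ Subgroup.zpowers q) w)) (Q := Q)
      ((QuotientGroup.mk' N).comp (B (ι w) ⊔ Subgroup.zpowers x).subtype) f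
      (by
        intro g
        rw [hf]
        constructor
        · intro h
          exact (QuotientGroup.eq_one_iff _).2 (hAN _ h)
        · intro h
          exact hAst _ _ ((QuotientGroup.eq_one_iff _).1 h) (hD _ g.2))
      ((L ⊔ Subgroup.zpowers q).subtype.comp
        (MulAction.stabilizer ↥(L ⊔ Subgroup.zpowers q) w).subtype)
      (by
        intro a b hab
        exact Subtype.ext (Subtype.ext hab))
      (by
        rintro ⟨⟨p, hp⟩, hpw⟩
        have hpw' : p • w = w := hpw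
        obtain ⟨k, hk⟩ := hyH p ⟨hp, hpw'⟩
        have hyk : (y ^ k) • w = w := by
          have h : y ^ k ∈ MulAction.stabilizer (G ⧸ N) w := Subgroup.zpow_mem _ hy.2 k
          exact h
        have hl : (p * (y ^ k)⁻¹) • w = w := by
          rw [mul_smul]
          nth_rewrite 1 [← hyk]
          rw [inv_smul_smul, hpw']
        obtain ⟨g, hg, hgl⟩ := (hstab w _).1 ⟨hk, hl⟩
        refine ⟨⟨g * x ^ k, mul_mem (Subgroup.mem_sup_left hg)
          (Subgroup.mem_sup_right (zpow_mem (Subgroup.mem_zpowers x) k))⟩, ?_⟩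
        show QuotientGroup.mk' N (g * x ^ k) = p
        have h6 : QuotientGroup.mk' N g = p * (y ^ k)⁻¹ := hgl
        have h7 : QuotientGroup.mk' N x = y := hxy
        rw [map_mul, map_zpow, h6, h7, inv_mul_cancel_right])
    exact hC.base.of_injective _ _ φ hφ hQ

end Pool.Agent.N508.CS
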