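import Pool.Agent.N508.CS.Stm

/-!
# The stabilizers of the group generated by a compatible family

Author helper368.
-/

set_option autoImplicit false
set_option linter.unusedSectionVars false

namespace Pool.Agent.N508.CS

open SimpleGraph
open Pool.Agent.N509.TK

variable {G V : Type} [Group G] [MulAction G V] {T : SimpleGraph V} {A : V → Subgroup G} {S : Set V}

/-- products of elements of the groups along a walk in `S` -/
inductive DW (T : SimpleGraph V) (A : V → Subgroup G) (S : Set V) : ℕ → G → V → V → Prop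
  | base (s : V) (hs : s ∈ S) (b : G) (hb : b ∈ A s) : DW T A S 0 b s s
  | step (m : ℕ) (s t s' : V) (hs : s ∈ S) (h : T.Adj s t) (b : G) (hb : b ∈ A s) (g : G)
      (hg : DW T A S m g t s') : DW T A S (m + 1) (b * g) s s'

theorem DW.left {m : ℕ} {g : G} {s s' : V} (h : DW T A S m g s s') : s ∈ S := by
  cases h with
  | base _ hs _ _ => exact hs
  | step _ _ _ _ hs _ _ _ _ _ => exact hs

theorem DW.mul_left {m : ℕ} {g : G} {s s' : V} (h : DW T A S m g s s') {b : G} (hb : b ∈ A s) :
    DW T A S m (b * g) s s' := by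
  cases h with
  | base _ hs c hc => exact DW.base _ hs _ (mul_mem hb hc)
  | step m _ t _ hs h c hc g hg =>
    rw [← mul_assoc]
    exact DW.step m _ t _ hs h _ (mul_mem hb hc) g hg

theorem DW.append {m m' : ℕ} {g g' : G} {s s' s'' : V} (h : DW T A S m g s s')
    (h' : DW T A S m' g' s' s'') : ∃ n, DW T A S n (g * g') s s'' := by
  induction h with
  | base s hs b hb => exact ⟨m', h'.mul_left hb⟩
  | step m s t s' hs h b hb g hg ih =>
    obtain ⟨n, hn⟩ := ih h'
    rw [mul_assoc]
    exact ⟨n + 1, DW.step n s t s'' hs h b hb _ hn⟩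

theorem DW.walk {s s' : V} (p : T.Walk s s') (hp : ∀ z ∈ p.support, z ∈ S) :
    ∃ n, DW T A S n 1 s s' := by
  induction p with
  | nil => exact ⟨0, DW.base _ (hp _ (by simp)) 1 (one_mem _)⟩
  | @cons u v w h q ih =>
    obtain ⟨n, hn⟩ := ih (fun z hz => hp z (by rw [Walk.support_cons]; exact List.mem_cons_of_mem _ hz))
    have h1 := DW.step n u v w (hp u (by rw [Walk.support_cons]; exact List.mem_cons_self)) h 1
      (one_mem _) 1 hn
    rw [mul_one] at h1
    exact ⟨n + 1, h1⟩

theorem DW.key (hT : T.IsTree) (hact : ∀ (g : G) (u v : V), T.Adj u v → T.Adj (g • u) (g • v))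
    (hA : CFam T A) (hS : Good T A S) (m : ℕ) :
    ∀ (g : G) (s s' : V), DW T A S m g s s' → (s = s' ∧ g ∈ A s) ∨
      ∃ b ∈ A s, ∃ c ∈ S, T.Adj s c ∧ (∃ m' < m, DW T A S m' (b⁻¹ * g) c s') ∧
        St T s (b • c) (g • s') := by
  induction m using Nat.strong_induction_on with
  | _ m IH =>
    intro g s s' h
    cases h with
    | base _ hs _ hb => exact Or.inl ⟨rfl, hb⟩
    | step m _ t _ hs hst b hb g' hg =>
      have ht := hg.left
      have hbt : T.Adj s (b • t) := by
        have := hact b _ _ hst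
        rwa [hA.fix s b hb] at this
      rcases IH m (Nat.lt_succ_self m) g' t s' hg with ⟨rfl, h1⟩ | ⟨b', hb', c', hc', htc, ⟨m'', hm'', hw⟩, hSt⟩
      · right
        refine ⟨b, hb, t, ht, hst, ⟨m, Nat.lt_succ_self m, ?_⟩, ?_⟩
        · rwa [inv_mul_cancel_left]
        · rw [mul_smul, hA.fix t g' h1]
          exact St_adj hbt
      · by_cases hbc : b' • c' = s
        · have h2 : c' = s := hS.lc t ht c' hc' s hs htc hst.symm b' hb' hbc
          subst h2
          have h3 : b' ∈ A c' := hA.cmp c' t hst b' hb' hbc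
          have h4 : DW T A S m'' (b * g') c' s' := by
            have := hw.mul_left (mul_mem hb h3)
            rwa [mul_assoc, mul_inv_cancel_left] at this
          rcases IH m'' (by omega) _ _ _ h4 with h5 | ⟨b'', hb'', c'', hc'', h6, ⟨m', hm', h7⟩, h8⟩
          · exact Or.inl h5
          · exact Or.inr ⟨b'', hb'', c'', hc'', h6, ⟨m', by omega, h7⟩, h8⟩
        · right
          refine ⟨b, hb, t, ht, hst, ⟨m, Nat.lt_succ_self m, ?_⟩, ?_⟩
          · rwa [inv_mul_cancel_left]
          · have h2 := St_trans hT hSt (St_adj hst.symm) hbc (St_adj hst)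
            have h3 := St_smul hact b h2
            rwa [hA.fix s b hb, ← mul_smul] at h3

theorem t_stab : S_STAB := by
  intro G V _ _ T hT hact A hA v x hx hxv
  obtain ⟨S, hS⟩ := Tv.exists (R := A) hT
  have hsup : (⨆ i : Ix A S, A i.1) = ⨆ v, A v := by
    apply le_antisymm
    · exact iSup_le fun i => le_iSup A i.1
    · refine iSup_le fun v x hx => ?_
      obtain ⟨h, hh, s, hs, rfl⟩ := hS.cover' hT hact v
      have h1 := hA.eqv h⁻¹ _ x hx
      rw [inv_smul_smul] at h1
      have h2 := le_Ix hs h1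
      have h3 := mul_mem (mul_mem hh h2) (inv_mem hh)
      have h4 : h * (h⁻¹ * x * h⁻¹⁻¹) * h⁻¹ = x := by group
      rwa [h4] at h3
  obtain ⟨h, hh, s, hs, rfl⟩ := hS.cover' hT hact v
  have hx' : h⁻¹ * x * h ∈ ⨆ i : Ix A S, A i.1 := by
    rw [← hsup] at hx
    exact mul_mem (mul_mem (inv_mem hh) hx) hh
  have hfix : (h⁻¹ * x * h) • s = s := by rw [mul_smul, mul_smul, hxv, inv_smul_smul]
  have hDW : ∀ y ∈ ⨆ i : Ix A S, A i.1, ∃ n, DW T A S n y s s := by
    intro y hy
    refine Subgroup.iSup_induction (fun i : Ix A S => A i.1) (C := fun y => ∃ n, DW T A S n y s s) hy ?_ ?_ ?_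
    · intro i a ha
      obtain ⟨p, hp⟩ := hS.cvx s hs i.1 i.2.1
      obtain ⟨n₁, h1⟩ := DW.walk (A := A) p hp
      obtain ⟨q, hq⟩ := hS.cvx i.1 i.2.1 s hs
      obtain ⟨n₂, h2⟩ := DW.walk (A := A) q hq
      obtain ⟨n, hn⟩ := h1.append (h2.mul_left ha)
      rw [one_mul, mul_one] at hn
      exact ⟨n, hn⟩
    · exact ⟨0, DW.base s hs 1 (one_mem _)⟩
    · rintro y z ⟨n₁, h1⟩ ⟨n₂, h2⟩
      exact h1.append h2
  obtain ⟨n, hn⟩ := hDW _ hx'
  rcases DW.key hT hact hA hS.toGood n _ _ _ hn with ⟨-, h1⟩ | ⟨b, -, c, -, -, -, h1⟩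
  · have h4 := hA.eqv h s _ h1
    have h5 : h * (h⁻¹ * x * h) * h⁻¹ = x := by group
    rwa [h5] at h4
  · rw [hfix] at h1
    exact absurd rfl h1.ne

end Pool.Agent.N508.CS
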