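import Pool.Agent.N508.CS.Stm

/-!
# The theorem on compatible series

Project CS (owner helper508); this file: helper457.
-/

set_option autoImplicit false

namespace Pool.Agent.N508.CS

open SimpleGraph
open Pool.Agent.Y110.FJ
open Pool.Agent.N509.TK
open Pool.Agent.N509.TX

theorem CFam.normal {G V : Type} [Group G] [MulAction G V] {T : SimpleGraph V} {A : V → Subgroup G}
    (hA : CFam T A) : (⨆ v, A v).Normal := by
  refine ⟨fun x hx g => ?_⟩
  have h1 : (⨆ v, A v) ≤ (⨆ v, A v).comap (MulAut.conj g).toMonoidHom :=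
    iSup_le fun v x hx => le_iSup A (g • v) (hA.eqv g v x hx)
  exact h1 hx

theorem t_main : S_QD → S_H → S_F → S_TOP → S_MAIN := by
  intro hQD hH hF hTop C hC h2 G V _ _ T hT hact K _ hCK n A hA h0 hn hstep
  have key : ∀ k ≤ n, ∀ (M : Subgroup G) [M.Normal], M = (⨆ v, A (n - k) v) → C (G ⧸ M) := by
    intro k
    induction k with
    | zero =>
      intro _ M _ hM
      refine hTop C hC G V T hT hact K hCK M ?_
      rw [hM, Nat.sub_zero]
      exact iSup_congr hn
    | succ k ih =>
      intro hk M hMn hM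
      have hi1 : n - k = n - (k + 1) + 1 := by omega
      have hin : n - (k + 1) < n := by omega
      generalize hi : n - (k + 1) = i at hM hi1 hin
      obtain ⟨hle, hV, hcase⟩ := hstep i hin
      have hN' : (⨆ v, A (i + 1) v).Normal := (hA (i + 1) (by omega)).normal
      have ih' : C (G ⧸ ⨆ v, A (i + 1) v) := ih (by omega) (⨆ v, A (i + 1) v) (by rw [hi1])
      obtain ⟨W, inst, T', ι, hqd⟩ := hQD C hC G V T hT hact (A i) (A (i + 1)) (hA i hin.le)
        (hA (i + 1) hin) hle hV M (⨆ v, A (i + 1) v) hM rfl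
      have hL : ((⨆ v, A (i + 1) v).map (QuotientGroup.mk' M)).Normal :=
        Subgroup.Normal.map hN' _ (QuotientGroup.mk'_surjective M)
      have hMN : M ≤ ⨆ v, A (i + 1) v := by
        rw [hM]
        exact iSup_mono hle
      have hq : C ((G ⧸ M) ⧸ ((⨆ v, A (i + 1) v).map (QuotientGroup.mk' M))) :=
        hC.base.of_injective _ _
          (QuotientGroup.quotientQuotientEquivQuotient M (⨆ v, A (i + 1) v) hMN).toMonoidHom
          (MulEquiv.injective _) ih'
      rcases hcase with hc | ⟨hac, hc⟩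
      · exact hH C hC h2 G V T (A i) (A (i + 1)) M _ W T' ι hqd hc hq
      · exact hF C hC h2 hac G V T (A i) (A (i + 1)) M _ W T' ι hqd hc hq
  have hbot : (⊥ : Subgroup G) = ⨆ v, A (n - n) v := by
    rw [Nat.sub_self]
    simp [h0]
  have h := key n le_rfl ⊥ hbot
  refine hC.base.of_injective G (G ⧸ (⊥ : Subgroup G)) (QuotientGroup.mk' ⊥) ?_ h
  intro a b hab
  have h3 : ((a : G ⧸ (⊥ : Subgroup G))) = b := hab
  rw [QuotientGroup.eq, Subgroup.mem_bot, inv_mul_eq_one] at h3
  exact h3

end Pool.Agent.N508.CS
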