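import Pool.Agent.N508.CS.Stm6
import Pool.Agent.N77.CP.Ind

/-!
# The theorem on edge groups which are commensurable or have small intersection, from the cylinders
(by helper607)
-/

set_option autoImplicit false

namespace Pool.Agent.N508.CS

open SimpleGraph
open Pool.Agent.Y110.FJ
open Pool.Agent.N509.TK
open Pool.Agent.N509.TX

/-- the conjugates of the stabilizer of an edge -/
theorem cc_conj {G V : Type} [Group G] [MulAction G V] (g : G) (w a : V) :
    Ed G (g • w) (g • a) = (Ed G w a).map (MulAut.conj g).toMonoidHom := by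
  unfold Ed
  rw [MulAction.stabilizer_smul_eq_stabilizer_map_conj,
    MulAction.stabilizer_smul_eq_stabilizer_map_conj,
    Subgroup.map_inf _ _ _ (MulAut.conj g).injective]

/-- commensurability of the stabilizers is a relation on the links -/
theorem cc_LR (G : Type) {V : Type} [Group G] [MulAction G V] (T : SimpleGraph V) :
    LR G T (fun w a b => Cm (Ed G w a) (Ed G w b)) := by
  refine ⟨fun w a _ => ?_, fun w a b _ _ h => ⟨h.2, h.1⟩, fun w a b c _ _ _ h1 h2 => ?_,
    fun g w a b h => ?_⟩
  · have h1 : (Ed G w a).relIndex (Ed G w a) ≠ 0 := by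
      rw [Subgroup.relIndex_self]
      exact one_ne_zero
    exact ⟨h1, h1⟩
  · exact ⟨Subgroup.relIndex_ne_zero_trans h1.1 h2.1, Subgroup.relIndex_ne_zero_trans h2.2 h1.2⟩
  · show Cm (Ed G (g • w) (g • a)) (Ed G (g • w) (g • b))
    rw [cc_conj, cc_conj]
    exact ⟨by rw [Pool.Agent.N77.CP.relIndex_conj]; exact h.1,
      by rw [Pool.Agent.N77.CP.relIndex_conj]; exact h.2⟩

/-- the elements which map a cylinder to itself -/
theorem cc_pres {G V : Type} [Group G] [MulAction G V] {T : SimpleGraph V} {r : V → V → V → Prop}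
    (hact : ∀ (g : G) (u v : V), T.Adj u v → T.Adj (g • u) (g • v)) (hr : LR G T r)
    (y : Cyl T r) (g : G) : Pres hact y g ↔ (cyAct hact hr).smul g y = y := by
  constructor
  · intro h
    obtain ⟨⟨⟨v, a⟩, h1⟩, h2⟩ := Quotient.exists_rep y
    have h3 : cy r (show T.Adj v a from h1) = y := h2
    have h4 := h v a h1 h3
    rw [← h3, cyAct_cy, h4, h3]
  · intro h v a h1 h2
    rw [← cyAct_cy hact hr g h1, h2, h]

/-- **the theorem on edge groups which are commensurable or have small intersection** -/
theorem t_cc : S_CCY → S_CYF → S_CC := by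
  intro hccy hcyf C hC hM hA n G V _ _ T hT hact hV hE hEC
  have hr := cc_LR G T
  refine hcyf C hC hA n G V T (fun w a b => Cm (Ed G w a) (Ed G w b)) hT hact hr ?_ hV ?_
  · intro w a b ha hb hab F hF
    by_contra hcon
    rcases hE.int w a b ha hb with h1 | h1
    · exact hab h1
    · exact h1 ⟨F, fun g hg => ⟨⟨(hF g hg).1, (hF g hg).2.1⟩, ⟨(hF g hg).1, (hF g hg).2.2⟩⟩,
        not_le.1 hcon⟩
  · intro y K hK
    let iC : MulAction G (Cyl T (fun w a b => Cm (Ed G w a) (Ed G w b))) := cyAct hact hr
    have hpr : ∀ g : G, Pres hact y g ↔ g • y = y := fun g => cc_pres hact hr y g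
    have hK' : K ≤ MulAction.stabilizer G y := fun g hg => (hpr g).1 (hK g hg)
    obtain ⟨W, iW, T', ι, hW, hcyl⟩ := cyl_subtree hT hact hr y (MulAction.stabilizer G y)
      (fun g hg => (hpr g).2 hg)
    refine Pool.Agent.R941.FJ.C_le hC.base hK'
      (hccy C hC hM hA n G V T hT hact hV hE hEC (MulAction.stabilizer G y) W T' ι hW ?_ ?_)
    · intro w a b ha hb
      exact gl hT hr (hW.adj w a ha) (hW.adj w b hb)
        ((hcyl w a ha _).trans (hcyl w b hb _).symm)
    · intro w a ha g hg
      have h1 := hcyl w a ha (hW.adj w a ha)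
      have hg1 : g • ι w = ι w := hg.1
      have hg2 : g • ι a = ι a := hg.2
      show g • y = y
      refine (hpr g).1 ?_
      rw [← h1]
      refine (cc_pres hact hr _ g).2 ?_
      rw [cyAct_cy]
      exact congrArg (Quotient.mk (cs T _)) (Subtype.ext (Prod.ext hg1 hg2))

end Pool.Agent.N508.CS
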