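import Pool.Agent.N508.CS.Stm4

/-!
# The theorem on commensurable vertex stabilizers
-/

set_option autoImplicit false

namespace Pool.Agent.N508.CS

open SimpleGraph
open Pool.Agent.Y110.FJ
open Pool.Agent.N509.TK
open Pool.Agent.N509.TX

namespace Com

theorem fin_coe {G : Type} [Group G] {M : Subgroup G} (x : M) :
    IsOfFinOrder x ↔ IsOfFinOrder (x : G) := by
  constructor
  · intro h
    exact M.subtype.isOfFinOrder h
  · intro h
    obtain ⟨n, hn, h1⟩ := isOfFinOrder_iff_pow_eq_one.1 h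
    exact isOfFinOrder_iff_pow_eq_one.2 ⟨n, hn, Subtype.ext (by simpa using h1)⟩

section

variable {G V : Type} [Group G] [MulAction G V]

/-- the elements of finite order of the stabilizer of `v` in `K` -/
def Tr (K : Subgroup G) (hc : ∀ (v : V) (g h : G), g ∈ Sb K v → h ∈ Sb K v → IsOfFinOrder g →
    IsOfFinOrder h → IsOfFinOrder (g * h)) (v : V) : Subgroup G where
  carrier := {g | g ∈ Sb K v ∧ IsOfFinOrder g}
  one_mem' := ⟨one_mem _, IsOfFinOrder.one⟩
  mul_mem' := by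
    rintro g h ⟨h1, h2⟩ ⟨h3, h4⟩
    exact ⟨mul_mem h1 h3, hc v g h h1 h3 h2 h4⟩
  inv_mem' := by
    rintro g ⟨h1, h2⟩
    exact ⟨inv_mem h1, h2.inv⟩

theorem mem_Tr {K : Subgroup G} {hc : ∀ (v : V) (g h : G), g ∈ Sb K v → h ∈ Sb K v →
    IsOfFinOrder g → IsOfFinOrder h → IsOfFinOrder (g * h)} {v : V} {g : G} :
    g ∈ Tr K hc v ↔ g ∈ Sb K v ∧ IsOfFinOrder g := Iff.rfl

/-- a finite subgroup together with a cyclic group which normalizes it -/
theorem fin_cyc {C : ∀ (G : Type) [Group G], Prop} (hC : Pool.Agent.Y462.SS.Closed C)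
    (F : Subgroup G) (x : G) (hF : (F : Set G).Finite)
    (hx : ∀ (k : ℤ), ∀ a ∈ F, x ^ k * a * (x ^ k)⁻¹ ∈ F) :
    C ↥(F ⊔ Subgroup.zpowers x) := by
  let S : Subgroup G :=
    { carrier := {s | ∃ a ∈ F, ∃ k : ℤ, s = a * x ^ k}
      one_mem' := ⟨1, one_mem _, 0, by simp⟩
      mul_mem' := by
        rintro _ _ ⟨a, ha, k, rfl⟩ ⟨b, hb, l, rfl⟩
        refine ⟨a * (x ^ k * b * (x ^ k)⁻¹), mul_mem ha (hx k b hb), k + l, ?_⟩
        rw [zpow_add]
        group
      inv_mem' := by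
        rintro _ ⟨a, ha, k, rfl⟩
        refine ⟨x ^ (-k) * a⁻¹ * (x ^ (-k))⁻¹, hx (-k) _ (inv_mem ha), -k, ?_⟩
        group }
  have hS : F ⊔ Subgroup.zpowers x ≤ S := by
    refine sup_le (fun a ha => ⟨a, ha, 0, by simp⟩) ?_
    rw [Subgroup.zpowers_le]
    exact ⟨1, one_mem _, 1, by simp⟩
  set H : Subgroup G := F ⊔ Subgroup.zpowers x with hH
  set Z : Subgroup H := (Subgroup.zpowers x).subgroupOf H with hZ
  have hFH : F ≤ H := le_sup_left
  have hfin : Finite F := hF.to_subtype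
  have hq : Finite (H ⧸ Z) := by
    refine Finite.of_surjective (fun a : F => ((⟨a, hFH a.2⟩ : H) : H ⧸ Z)) ?_
    intro q
    obtain ⟨s, rfl⟩ := QuotientGroup.mk_surjective q
    obtain ⟨a, ha, k, hk⟩ := hS s.2
    refine ⟨⟨a, ha⟩, ?_⟩
    rw [QuotientGroup.eq, hZ, Subgroup.mem_subgroupOf]
    refine ⟨k, ?_⟩
    change x ^ k = a⁻¹ * (s : G)
    rw [hk]
    group
  refine hC.finiteIndex H Z Subgroup.finiteIndex_of_finite_quotient ?_
  exact hC.of_injective _ _ (Subgroup.subgroupOfEquivOfLe (le_sup_right :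
    Subgroup.zpowers x ≤ H)).toMonoidHom (MulEquiv.injective _) (Pool.Agent.R941.FJ.C_cyc hC x)

end

end Com

open Com

theorem t_com : S_MAIN → S_ABEL → S_FC → S_FZ → S_COM := by
  intro hMain hAbel hFC hFZ C hC hMet G V _ _ T hT hact hcomm K _ hfc hQ hlast
  have hcen : ∀ (v : V) (g : ↥(Sb K v)), (Subgroup.centralizer {g}).index ≠ 0 := by
    intro v g h0
    obtain ⟨w, hw⟩ := hfc g.1 g.2.2
    have h1 : FZ v g.1 := hFZ G V T hT hcomm w v g.1 hw
    have h2 : Sb K v ≤ MulAction.stabilizer G v := inf_le_left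
    refine h1 (Subgroup.relIndex_eq_zero_of_le_right h2 ?_)
    unfold Subgroup.relIndex
    rw [← h0]
    congr 1
    ext y
    rw [Subgroup.mem_subgroupOf, Subgroup.mem_centralizer_singleton_iff,
      Subgroup.mem_centralizer_singleton_iff, Subtype.ext_iff]
    rfl
  have hc : ∀ (v : V) (g h : G), g ∈ Sb K v → h ∈ Sb K v → IsOfFinOrder g →
      IsOfFinOrder h → IsOfFinOrder (g * h) := by
    intro v g h hg hh h1 h2
    have h3 := (hFC _ (hcen v)).1 ⟨g, hg⟩ ⟨h, hh⟩ ((fin_coe _).2 h1) ((fin_coe _).2 h2)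
    exact (fin_coe _).1 h3
  have hcm : ∀ (v : V) (g h : G), g ∈ Sb K v → h ∈ Sb K v →
      IsOfFinOrder (g * h * g⁻¹ * h⁻¹) := by
    intro v g h hg hh
    have h3 := (hFC _ (hcen v)).2 ⟨g, hg⟩ ⟨h, hh⟩
    exact (fin_coe _).1 h3
  have hC0 : CFam T (fun _ : V => (⊥ : Subgroup G)) := by
    refine ⟨?_, ?_, ?_⟩
    · intro v a ha
      rw [Subgroup.mem_bot] at ha
      rw [ha, one_smul]
    · intro g v a ha
      rw [Subgroup.mem_bot] at ha
      rw [ha, Subgroup.mem_bot]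
      group
    · intro u v _ a ha _
      exact ha
  have hC1 : CFam T (Tr K hc) := by
    refine ⟨fun v a ha => (mem_Tr.1 ha).1.1, ?_, ?_⟩
    · intro g v a ha
      obtain ⟨h1, h2⟩ := mem_Tr.1 ha
      exact mem_Tr.2 ⟨Sb_conj K g v h1, (MulAut.conj g).toMonoidHom.isOfFinOrder h2⟩
    · intro u v _ a ha hau
      exact mem_Tr.2 ⟨mem_Sb.2 ⟨hau, (mem_Tr.1 ha).1.2⟩, (mem_Tr.1 ha).2⟩
  have hC2 : CFam T (fun v : V => Sb K v) := by
    refine ⟨fun v a ha => (mem_Sb.1 ha).1, fun g v a ha => Sb_conj K g v ha, ?_⟩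
    intro u v _ a ha hau
    exact mem_Sb.2 ⟨hau, ha.2⟩
  have hle : ∀ v, Tr K hc v ≤ Sb K v := fun v a ha => (mem_Tr.1 ha).1
  have hs1 : StepV C (Tr K hc) (fun v : V => Sb K v) ∧ StepH T (Tr K hc) (fun v : V => Sb K v) := by
    refine hAbel C hC hMet G V T _ _ hC1 hC2 hle fun v => ?_
    rw [Subgroup.commutator_le]
    intro g hg h hh
    rw [commutatorElement_def]
    exact mem_Tr.2 ⟨mul_mem (mul_mem (mul_mem hg hh) (inv_mem hg)) (inv_mem hh), hcm v g h hg hh⟩
  have hfin : ∀ v, ((Tr K hc v : Subgroup G) : Set G).Finite := by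
    intro v
    rcases hlast with h | ⟨_, h⟩
    · refine (Set.finite_singleton (1 : G)).subset fun g hg => ?_
      obtain ⟨h1, h2⟩ := mem_Tr.1 hg
      exact h v g h1.2 h1.1 h2
    · refine (h v).subset fun g hg => ?_
      obtain ⟨h1, h2⟩ := mem_Tr.1 hg
      exact ⟨h1.2, h1.1, h2⟩
  have hs0 : StepV C (fun _ : V => (⊥ : Subgroup G)) (Tr K hc) := by
    intro v x hx
    refine ⟨↥(Tr K hc v ⊔ Subgroup.zpowers x), _, MonoidHom.id _, ?_, ?_⟩
    · refine fin_cyc hC.base _ x (hfin v) fun k a ha => ?_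
      have h1 : x ^ k • v = v := by
        have h2 : x ^ k ∈ MulAction.stabilizer G v :=
          zpow_mem (MulAction.mem_stabilizer_iff.2 hx) k
        exact h2
      have h2 := hC1.eqv (x ^ k) v a ha
      rwa [h1] at h2
    · intro s
      rw [MonoidHom.id_apply, Subgroup.mem_bot]
      exact ⟨fun h => by rw [h]; rfl, fun h => Subtype.ext h⟩
  have hs0' : StepH T (fun _ : V => (⊥ : Subgroup G)) (Tr K hc) ∨
      (AcylF C ∧ StepF T (fun _ : V => (⊥ : Subgroup G)) (Tr K hc)) := by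
    rcases hlast with h | ⟨hA, h⟩
    · left
      intro u v _ x _ hx
      have h1 : Tr K hc v = ⊥ := by
        rw [eq_bot_iff]
        intro g hg
        obtain ⟨h1, h2⟩ := mem_Tr.1 hg
        exact Subgroup.mem_bot.2 (h v g h1.2 h1.1 h2)
      rw [h1, Subgroup.commutator_bot_left, bot_sup_eq] at hx
      exact hx
    · right
      refine ⟨hA, fun u v _ => ⟨(hfin v).toFinset.card, fun F hF _ => Finset.card_le_card ?_⟩⟩
      intro g hg
      rw [Set.Finite.mem_toFinset]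
      exact (hF g hg).1
  refine hMain C hC hMet G V T hT hact K hQ 2 (fun i => match i with
    | 0 => fun _ => ⊥
    | 1 => Tr K hc
    | _ => fun v => Sb K v) ?_ (fun v => rfl) (fun v => rfl) ?_
  · intro i hi
    match i, hi with
    | 0, _ => exact hC0
    | 1, _ => exact hC1
    | 2, _ => exact hC2
  · intro i hi
    match i, hi with
    | 0, _ => exact ⟨fun _ => bot_le, hs0, hs0'⟩
    | 1, _ => exact ⟨hle, hs1.1, Or.inl hs1.2⟩

end Pool.Agent.N508.CS

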