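import Pool.Agent.N508.CS.Stm4

/-!
# The family of the centralizers

Owner helper901, for project CS of helper508 (fourth part).
-/

set_option autoImplicit false

namespace Pool.Agent.N508.CS

open SimpleGraph
open Pool.Agent.Y110.FJ
open Pool.Agent.N509.TK
open Pool.Agent.N509.TX

namespace Ct

/-- a subgroup with at least two elements has an element `≠ 1` -/
theorem big_one {G : Type} [Group G] {A : Subgroup G} (h : Big 1 A) : ∃ z ∈ A, z ≠ 1 := by
  obtain ⟨F, hF, hc⟩ := h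
  obtain ⟨a, ha, b, hb, hab⟩ := Finset.one_lt_card.1 hc
  by_cases ha1 : a = 1
  · exact ⟨b, hF b hb, fun hb1 => hab (ha1.trans hb1.symm)⟩
  · exact ⟨a, hF a ha, ha1⟩

/-- the centralizer of `x` in the stabilizer of `v` -/
def cen {G V : Type} [Group G] [MulAction G V] (v : V) (x : G) : Subgroup G where
  carrier := {y | y • v = v ∧ y * x = x * y}
  mul_mem' := by
    rintro a b ⟨ha, ha'⟩ ⟨hb, hb'⟩
    refine ⟨by rw [mul_smul, hb, ha], ?_⟩
    rw [mul_assoc, hb', ← mul_assoc, ha', mul_assoc]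
  one_mem' := ⟨one_smul G v, by rw [one_mul, mul_one]⟩
  inv_mem' := by
    rintro a ⟨ha, ha'⟩
    refine ⟨inv_smul_eq_iff.2 ha.symm, ?_⟩
    rw [inv_mul_eq_iff_eq_mul, ← mul_assoc, ha', mul_inv_cancel_right]

/-- the family -/
def fam (G V : Type) [Group G] [MulAction G V] (v : V) : Set (Subgroup G) :=
  {A | ∃ x : G, x • v = v ∧ x ≠ 1 ∧ ∀ y : G, y ∈ A ↔ y • v = v ∧ y * x = x * y}

end Ct

open Ct in
/-- the family of the centralizers -/
theorem t_ct : S_CT := by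
  intro C G V _ _ T h
  refine ⟨fam G V, ?_, ?_, ?_, ?_, ?_⟩
  · rintro v A ⟨x, hx, hx1, hA⟩ a ha b hb
    obtain ⟨ha1, ha2⟩ := (hA a).1 ha
    obtain ⟨hb1, hb2⟩ := (hA b).1 hb
    exact h.ct v a x b ha1 hx hb1 hx1 ha2 hb2.symm
  · rintro g v A ⟨x, hx, hx1, hA⟩
    refine ⟨g * x * g⁻¹, ?_, ?_, fun y => ?_⟩
    · rw [mul_smul, mul_smul, inv_smul_smul, hx]
    · intro hc
      apply hx1
      have : x = g⁻¹ * (g * x * g⁻¹) * g := by group
      rw [this, hc]
      group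
    · rw [Subgroup.mem_map_equiv, MulAut.conj_symm_apply, hA]
      refine and_congr ?_ ?_
      · rw [mul_smul, mul_smul, inv_smul_eq_iff]
      · constructor
        · intro e
          have e1 : y * (g * x * g⁻¹) = g * (g⁻¹ * y * g * x) * g⁻¹ := by group
          have e2 : g * x * g⁻¹ * y = g * (x * (g⁻¹ * y * g)) * g⁻¹ := by group
          rw [e1, e2, e]
        · intro e
          have e1 : g⁻¹ * y * g * x = g⁻¹ * (y * (g * x * g⁻¹)) * g := by group
          have e2 : x * (g⁻¹ * y * g) = g⁻¹ * (g * x * g⁻¹ * y) * g := by group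
          rw [e1, e2, e]
  · rintro v A ⟨x, hx, hx1, hA⟩ A' ⟨x', hx', hx1', hA'⟩ hbig
    obtain ⟨z, ⟨hz, hz'⟩, hz1⟩ := big_one hbig
    obtain ⟨a1, a2⟩ := (hA z).1 hz
    obtain ⟨b1, b2⟩ := (hA' z).1 hz'
    ext y
    rw [hA y, hA' y]
    refine and_congr_right fun hy => ?_
    constructor
    · intro e
      exact h.ct v y z x' hy a1 hx' hz1 (h.ct v y x z hy hx a1 hx1 e a2.symm) b2
    · intro e
      exact h.ct v y z x hy a1 hx hz1 (h.ct v y x' z hy hx' a1 hx1' e b2.symm) a2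
  · intro v u hadj hbig
    obtain ⟨x, ⟨hx, hx'⟩, hx1⟩ := big_one hbig
    refine ⟨cen v x, ⟨x, hx, hx1, fun y => Iff.rfl⟩, ?_⟩
    rintro y ⟨hy, hy'⟩
    exact ⟨hy, h.edge v u hadj y x hy hy' hx hx'⟩
  · rintro v A ⟨x, hx, hx1, hA⟩ _ S hS
    have hxA : x ∈ A := (hA x).2 ⟨hx, rfl⟩
    obtain ⟨Q, iQ, f, hC, hf⟩ := h.quo v x hx hx1 S (fun g hg => by
      refine ⟨(hS g hg).1, ?_⟩
      have h1 : g * x * g⁻¹ ∈ A.map (MulAut.conj g).toMonoidHom := ⟨x, hxA, rfl⟩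
      rw [(hS g hg).2] at h1
      exact ((hA _).1 h1).2)
    exact ⟨Q, iQ, f, hC, fun s => (hf s).trans
      ⟨fun e => (hA s).2 ⟨(hS s s.2).1, e⟩, fun e => ((hA s).1 e).2⟩⟩

end Pool.Agent.N508.CS
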