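import Pool.Agent.N508.CS.Stm6

/-!
# The theorem on cylinders for arbitrary groups (project CS6)
-/

set_option autoImplicit false

namespace Pool.Agent.N508.CS

open SimpleGraph
open Pool.Agent.Y110.FJ
open Pool.Agent.N509.TK
open Pool.Agent.N509.TX

theorem t_cyf : S_CYF := by
  classical
  intro C hC hA n G V _ _ T r hT hact hr hint hV hY
  refine of_fg hC fun H hH => ?_
  have hactH : ∀ (g : H) (u v : V), T.Adj u v → T.Adj (g • u) (g • v) :=
    fun g u v h => hact (g : G) u v h
  refine cylF_fg hC hA hH hT hactH
    ⟨hr.refl, hr.symm, hr.trans, fun g w a b h => hr.eqv (g : G) w a b h⟩ n ?_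
    (fun v => C_stab hC H v (hV v)) ?_
  · intro w a b ha hb hrab F hF
    have h := hint w a b ha hb hrab (F.map ⟨Subtype.val, Subtype.val_injective⟩) ?_
    · rwa [Finset.card_map] at h
    · intro g hg
      obtain ⟨h, hh, rfl⟩ := Finset.mem_map.1 hg
      exact hF h hh
  · intro y K hK
    refine hC.base.of_injective _ _ (H.subtype.subgroupMap K) ?_ (hY y (K.map H.subtype) ?_)
    · intro a b hab
      have h1 : ((H.subtype.subgroupMap K a : K.map H.subtype) : G) =
          ((H.subtype.subgroupMap K b : K.map H.subtype) : G) := congrArg Subtype.val hab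
      exact Subtype.ext (Subtype.ext h1)
    · rintro _ ⟨h, hh, rfl⟩
      exact hK h hh

end Pool.Agent.N508.CS
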