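import Pool.Agent.N508.CS.Stm2

/-!
# Stabilizers of cylinders
-/

set_option autoImplicit false

namespace Pool.Agent.N508.CS

open SimpleGraph
open Pool.Agent.Y110.FJ
open Pool.Agent.N509.TK
open Pool.Agent.N509.TX

namespace Cyl

/-- `y` has a nonzero power in `⟨z⟩` -/
def Pw {K : Type} [Group K] (z y : K) : Prop := ∃ a b : ℤ, a ≠ 0 ∧ y ^ a = z ^ b

/-- `g` commensurates `⟨z⟩` -/
def Cm {K : Type} [Group K] (z g : K) : Prop := ∃ m k : ℤ, m ≠ 0 ∧ k ≠ 0 ∧ g * z ^ m * g⁻¹ = z ^ k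

section

variable {K : Type} [Group K]

theorem Cm.zpow {z g : K} (h : Cm z g) (n : ℤ) : Cm (z ^ n) g := by
  obtain ⟨m, k, hm, hk, h1⟩ := h
  refine ⟨m, k, hm, hk, ?_⟩
  rw [← zpow_mul, mul_comm n m, zpow_mul, ← conj_zpow, h1, ← zpow_mul, mul_comm k n, zpow_mul]

theorem Pw.zpow {z y : K} (h : Pw z y) {n : ℤ} (hn : n ≠ 0) : Pw (z ^ n) y := by
  obtain ⟨a, b, ha, h1⟩ := h
  refine ⟨a * n, b, mul_ne_zero ha hn, ?_⟩
  rw [zpow_mul, h1, ← zpow_mul, ← zpow_mul, mul_comm]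

theorem Pw.of_zpow {z y : K} {n : ℤ} (h : Pw (z ^ n) y) : Pw z y := by
  obtain ⟨a, b, ha, h1⟩ := h
  exact ⟨a, n * b, ha, by rw [h1, zpow_mul]⟩

theorem Pw.conj {z y g : K} (h : Pw z y) (hg : Cm z g) : Pw z (g * y * g⁻¹) := by
  obtain ⟨a, b, ha, h1⟩ := h
  obtain ⟨m, k, hm, hk, h2⟩ := hg
  refine ⟨a * m, k * b, mul_ne_zero ha hm, ?_⟩
  rw [conj_zpow, zpow_mul, h1, ← zpow_mul, mul_comm b m, zpow_mul, ← conj_zpow, h2, ← zpow_mul]

theorem Pw.one (z : K) : Pw z 1 := ⟨1, 0, one_ne_zero, by simp⟩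

theorem Pw.inv {z y : K} (h : Pw z y) : Pw z y⁻¹ := by
  obtain ⟨a, b, ha, h1⟩ := h
  exact ⟨a, -b, ha, by rw [inv_zpow, h1, zpow_neg]⟩

theorem Pw.mul {z y y' : K} (h : Pw z y) (h' : Pw z y') (hc : y * y' = y' * y) : Pw z (y * y') := by
  obtain ⟨a, b, ha, h1⟩ := h
  obtain ⟨a', b', ha', h1'⟩ := h'
  refine ⟨a * a', b * a' + b' * a, mul_ne_zero ha ha', ?_⟩
  have hc' : Commute y y' := hc
  rw [hc'.mul_zpow, zpow_mul, h1, mul_comm a a', zpow_mul y', h1', ← zpow_mul, ← zpow_mul, zpow_add]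

end

variable {K W : Type} [Group K] [MulAction K W]

/-- the family -/
def Am (z : K) (hc : ∀ (w : W) (g y : K), g • w = w → y • w = w → Pw z y → g * y = y * g) (w : W) :
    Subgroup K where
  carrier := {y | y • w = w ∧ Pw z y}
  one_mem' := ⟨one_smul _ _, Pw.one z⟩
  mul_mem' := by
    rintro y y' ⟨h1, h2⟩ ⟨h3, h4⟩
    exact ⟨by rw [mul_smul, h3, h1], h2.mul h4 (hc w y y' h1 h3 h4)⟩
  inv_mem' := by
    rintro y ⟨h1, h2⟩
    exact ⟨by rw [inv_smul_eq_iff, h1], h2.inv⟩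

theorem mem_Am {z : K} {hc : ∀ (w : W) (g y : K), g • w = w → y • w = w → Pw z y → g * y = y * g}
    {w : W} {y : K} : y ∈ Am z hc w ↔ y • w = w ∧ Pw z y := Iff.rfl

end Cyl

open Cyl

theorem t_cyl : S_MAIN → S_ABEL → S_CYL := by
  intro hMain hAbel C hC hMet K W _ _ T hT hact hV hE z hz hcom hfix hRV
  by_cases hne : ∃ x y, T.Adj x y
  swap
  · obtain ⟨o⟩ := hT.connected.nonempty
    have h1 : ∀ w : W, w = o := by
      intro w
      obtain ⟨p⟩ := hT.connected.preconnected w o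
      cases p with
      | nil => rfl
      | cons h' _ => exact absurd ⟨_, _, h'⟩ hne
    refine hC.base.of_injective _ _ ((MonoidHom.id K).codRestrict (MulAction.stabilizer K o)
      (fun g => h1 (g • o))) ?_ (hV o)
    intro a b hab
    exact congrArg Subtype.val hab
  obtain ⟨x0, y0, hxy0⟩ := hne
  have hnb := exists_nbr hT hxy0
  have hR : ∀ w : W, ∃ n : ℤ, n ≠ 0 ∧ RV C w (z ^ n) := by
    intro w
    obtain ⟨w', hw'⟩ := hnb w
    obtain ⟨n, hn, h1, h2⟩ := hfix w' w hw'.symm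
    exact ⟨n, hn, hRV w' w hw'.symm n hn h1 h2⟩
  have hcm : ∀ g : K, Cm z g := hcom
  have hc : ∀ (w : W) (g y : K), g • w = w → y • w = w → Pw z y → g * y = y * g := by
    intro w g y hg hy hp
    obtain ⟨n, hn, R⟩ := hR w
    exact R.cen g y hg hy ((hcm g).zpow n) (hp.zpow hn)
  have hedge : ∀ u v : W, T.Adj u v → ∀ y : K, y • u = u → y • v = v → y ∈ Am z hc v := by
    intro u v huv y hu hv
    refine mem_Am.2 ⟨hv, ?_⟩
    by_cases hy : Inf y
    · obtain ⟨n, hn, h1, h2⟩ := hfix u v huv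
      obtain ⟨a, b, ha, hb, h3⟩ := hE u v huv y (z ^ n) hu hv h1 h2 hy (hz.zpow hn)
      exact ⟨a, n * b, ha, by rw [h3, zpow_mul]⟩
    · obtain ⟨m, hm, h1⟩ := not_inf hy
      exact ⟨m, 0, hm, by rw [h1, zpow_zero]⟩
  have hCA : CFam T (Am z hc) := by
    refine ⟨fun v a ha => (mem_Am.1 ha).1, ?_, ?_⟩
    · intro g v a ha
      obtain ⟨h1, h2⟩ := mem_Am.1 ha
      exact mem_Am.2 ⟨conj_fix g h1, h2.conj (hcm g)⟩
    · intro u v _ a ha hau
      exact mem_Am.2 ⟨hau, (mem_Am.1 ha).2⟩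
  have hC0 : CFam T (fun _ : W => (⊥ : Subgroup K)) := by
    refine ⟨?_, ?_, ?_⟩
    · intro v a ha
      rw [Subgroup.mem_bot] at ha
      rw [ha, one_smul]
    · intro g v a ha
      rw [Subgroup.mem_bot] at ha
      rw [ha, Subgroup.mem_bot]
      group
    · intro u v _ a ha _
      exact ha
  have hC2 : CFam T (fun v : W => Sb (⊤ : Subgroup K) v) := by
    refine ⟨fun v a ha => (mem_Sb.1 ha).1, fun g v a ha => Sb_conj ⊤ g v ha, ?_⟩
    intro u v _ a _ hau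
    exact mem_Sb.2 ⟨hau, Subgroup.mem_top a⟩
  have hle : ∀ v, Am z hc v ≤ Sb (⊤ : Subgroup K) v := fun v a ha =>
    mem_Sb.2 ⟨(mem_Am.1 ha).1, Subgroup.mem_top a⟩
  have hs0 : StepV C (fun _ : W => (⊥ : Subgroup K)) (Am z hc) ∧
      StepH T (fun _ : W => (⊥ : Subgroup K)) (Am z hc) := by
    refine hAbel C hC hMet K W T _ _ hC0 hCA (fun _ => bot_le) fun v => ?_
    rw [Subgroup.commutator_le]
    intro g hg h hh
    rw [Subgroup.mem_bot, commutatorElement_eq_one_iff_mul_comm]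
    exact hc v g h (mem_Am.1 hg).1 (mem_Am.1 hh).1 (mem_Am.1 hh).2
  have hsup : ∀ (v : W) (x : K), x • v = v → ∀ s ∈ Sb (⊤ : Subgroup K) v ⊔ Subgroup.zpowers x,
      s • v = v := by
    intro v x hx s hs
    have h1 : Sb (⊤ : Subgroup K) v ⊔ Subgroup.zpowers x ≤ MulAction.stabilizer K v := by
      refine sup_le (fun g hg => (mem_Sb.1 hg).1) ?_
      rw [Subgroup.zpowers_le]
      exact hx
    exact h1 hs
  have hs1 : StepV C (Am z hc) (fun v : W => Sb (⊤ : Subgroup K) v) := by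
    intro v x hx
    obtain ⟨n, hn, R⟩ := hR v
    obtain ⟨Q, _, f, hQ, hf⟩ := R.quo (Sb (⊤ : Subgroup K) v ⊔ Subgroup.zpowers x)
      (fun g hg => ⟨hsup v x hx g hg, (hcm g).zpow n⟩)
    refine ⟨Q, _, f, hQ, fun s => (hf s).trans ?_⟩
    rw [mem_Am]
    constructor
    · intro h
      exact ⟨hsup v x hx s s.2, Pw.of_zpow (n := n) h⟩
    · rintro ⟨_, h⟩
      exact h.zpow hn
  have hh1 : StepH T (Am z hc) (fun v : W => Sb (⊤ : Subgroup K) v) := by
    intro u v huv x hxu hx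
    refine hedge u v huv x hxu ?_
    have h1 : ⁅Sb (⊤ : Subgroup K) v, Sb (⊤ : Subgroup K) v⁆ ⊔ Am z hc v ≤
        MulAction.stabilizer K v := by
      refine sup_le ?_ (fun g hg => (mem_Am.1 hg).1)
      rw [Subgroup.commutator_le]
      intro g hg h hh
      have h3 : g ∈ MulAction.stabilizer K v := (mem_Sb.1 hg).1
      have h4 : h ∈ MulAction.stabilizer K v := (mem_Sb.1 hh).1
      rw [commutatorElement_def]
      exact mul_mem (mul_mem (mul_mem h3 h4) (inv_mem h3)) (inv_mem h4)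
    exact h1 hx
  have hq : C (K ⧸ (⊤ : Subgroup K)) := by
    have : Subsingleton (K ⧸ (⊤ : Subgroup K)) := QuotientGroup.subsingleton_quotient_top
    exact hC.base.of_injective _ _ (1 : K ⧸ (⊤ : Subgroup K) →* Multiplicative ℤ)
      (Function.injective_of_subsingleton _) hC.base.int
  refine hMain C hC hMet K W T hT hact ⊤ hq 2 (fun i => match i with
    | 0 => fun _ => ⊥
    | 1 => Am z hc
    | _ => fun v => Sb (⊤ : Subgroup K) v) ?_ (fun v => rfl) (fun v => rfl) ?_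
  · intro i hi
    match i, hi with
    | 0, _ => exact hC0
    | 1, _ => exact hCA
    | 2, _ => exact hC2
  · intro i hi
    match i, hi with
    | 0, _ => exact ⟨fun _ => bot_le, hs0.1, Or.inl hs0.2⟩
    | 1, _ => exact ⟨hle, hs1, Or.inl hh1⟩

end Pool.Agent.N508.CS
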