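import Pool.Agent.N508.CS.StmC
import Pool.Agent.N508.CS.Cc

/-!
# The theorem on edge groups detected on their commensurators, from the cylinders
(by helper234)
-/

set_option autoImplicit false

namespace Pool.Agent.N508.CS

open SimpleGraph
open Pool.Agent.Y110.FJ
open Pool.Agent.N509.TK
open Pool.Agent.N509.TX

/-- **the theorem on edge groups detected on their commensurators** -/
theorem t_dc : S_DCY → S_CYF → S_DC := by
  intro hdcy hcyf C hC hM hA n G V _ _ T hT hact hV hE
  have hr := cc_LR G T
  refine hcyf C hC hA n G V T (fun w a b => Cm (Ed G w a) (Ed G w b)) hT hact hr ?_ hV ?_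
  · intro w a b ha hb hab F hF
    by_contra hcon
    rcases hE.int w a b ha hb with h1 | h1
    · exact hab h1
    · exact h1 ⟨F, fun g hg => ⟨⟨(hF g hg).1, (hF g hg).2.1⟩, ⟨(hF g hg).1, (hF g hg).2.2⟩⟩,
        not_le.1 hcon⟩
  · intro y K hK
    let iC : MulAction G (Cyl T (fun w a b => Cm (Ed G w a) (Ed G w b))) := cyAct hact hr
    have hpr : ∀ g : G, Pres hact y g ↔ g • y = y := fun g => cc_pres hact hr y g
    have hK' : K ≤ MulAction.stabilizer G y := fun g hg => (hpr g).1 (hK g hg)
    obtain ⟨W, iW, T', ι, hW, hcyl⟩ := cyl_subtree hT hact hr y (MulAction.stabilizer G y)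
      (fun g hg => (hpr g).2 hg)
    refine Pool.Agent.R941.FJ.C_le hC.base hK'
      (hdcy C hC hM n G V T hT hact hV hE (MulAction.stabilizer G y) W T' ι hW ?_ ?_)
    · intro w a b ha hb
      exact gl hT hr (hW.adj w a ha) (hW.adj w b hb)
        ((hcyl w a ha _).trans (hcyl w b hb _).symm)
    · intro w a ha g hg
      have h1 := hcyl w a ha (hW.adj w a ha)
      have hg1 : g • ι w = ι w := hg.1
      have hg2 : g • ι a = ι a := hg.2
      show g • y = y
      refine (hpr g).1 ?_
      rw [← h1]
      refine (cc_pres hact hr _ g).2 ?_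
      rw [cyAct_cy]
      exact congrArg (Quotient.mk (cs T _)) (Subtype.ext (Prod.ext hg1 hg2))

end Pool.Agent.N508.CS
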