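import Pool.Agent.N508.CS.StmC

/-!
# Stabilizers of cylinders, edge groups detected on their commensurators (by helper645)

Part CSC/DCY.
-/

set_option autoImplicit false

namespace Pool.Agent.N508.CS

open SimpleGraph
open Pool.Agent.Y110.FJ
open Pool.Agent.N509.TK
open Pool.Agent.N509.TX

namespace Dcy

theorem Cm_trans {G : Type} [Group G] {A B D : Subgroup G} (h : Cm A B) (h' : Cm B D) : Cm A D :=
  ⟨Subgroup.relIndex_ne_zero_trans h.1 h'.1, Subgroup.relIndex_ne_zero_trans h'.2 h.2⟩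

theorem Ed_comm {G V : Type} [Group G] [MulAction G V] (v u : V) : Ed G v u = Ed G u v := inf_comm _ _

/-- the chain condition for a subgroup of `K` -/
theorem frp_sub {G : Type} [Group G] {E K : Subgroup G} (hEK : E ≤ K) (h : FRP E) :
    FRP (E.subgroupOf K) := by
  rcases h with ⟨n, h⟩ | ⟨P, hP, hi, hs, hf⟩
  · refine Or.inl ⟨n, fun k L x h0 h1 h2 => ?_⟩
    refine h k (fun i => (L i).map K.subtype) (fun i => (x i : G)) ?_ (fun i => Subgroup.map_mono (h1 i)) ?_
    · rintro _ ⟨y, hy, rfl⟩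
      exact Subgroup.mem_subgroupOf.1 (h0 hy)
    · intro i hi
      refine ⟨⟨x i, (h2 i hi).1, rfl⟩, ?_⟩
      rintro m hm ⟨y, hy, hyx⟩
      have h3 : y = x i ^ m := Subtype.ext hyx
      rw [h3] at hy
      exact (h2 i hi).2 m hm hy
  · refine Or.inr ⟨P.subgroupOf K, fun y hy => Subgroup.mem_subgroupOf.2 (hP (Subgroup.mem_subgroupOf.1 hy)), ?_, ?_, ?_⟩
    · rw [Subgroup.relIndex_subgroupOf hEK]
      exact hi
    · have e := Subgroup.subgroupOfEquivOfLe (hP.trans hEK)
      exact Group.isSolvable_of_isSolvable_injective (f := e.toMonoidHom) e.injective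
    · intro H
      have e := Subgroup.subgroupOfEquivOfLe (hP.trans hEK)
      have h1 := hf (H.map e.toMonoidHom)
      rw [← Group.fg_iff_subgroup_fg] at h1 ⊢
      have h2 : Group.FG ↥(H.map (e : ↥(P.subgroupOf K) →* P)) := h1
      exact Group.fg_of_surjective (f := (e.subgroupMap H).symm.toMonoidHom) (e.subgroupMap H).symm.surjective

end Dcy

open Dcy

/-- **stabilizers of cylinders** -/
theorem t_dcy : S_EH → S_DCY := by
  intro hEH C hC hMet n G V _ _ T hT hact hV hD K W _ T' ι hW hCm hEK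
  have hVK : ∀ w : W, C ↥(MulAction.stabilizer K w) := by
    intro w
    rw [hW.stab w]
    exact C_stab hC K (ι w) (hV _)
  -- all edge groups are commensurable
  have hall0 : ∀ (x y : W) (_ : T'.Walk x y), ∀ a, T'.Adj x a → ∀ b, T'.Adj y b →
      Cm (Ed G (ι x) (ι a)) (Ed G (ι y) (ι b)) := by
    intro x y p
    induction p with
    | nil => exact fun a ha b hb => hCm _ a b ha hb
    | @cons u v w h' p ih =>
      intro a ha b hb
      refine Cm_trans (hCm u a v ha h') ?_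
      rw [Ed_comm]
      exact ih u h'.symm b hb
  have hEd : ∀ w a : W, Ed K w a = (Ed G (ι w) (ι a)).subgroupOf K := by
    intro w a
    ext k
    constructor
    · rintro ⟨h1, h2⟩
      exact Subgroup.mem_subgroupOf.2 ⟨hW.fix.1 h1, hW.fix.1 h2⟩
    · intro h
      obtain ⟨h1, h2⟩ := Subgroup.mem_subgroupOf.1 h
      exact ⟨hW.fix.2 h1, hW.fix.2 h2⟩
  have hq : Subsingleton (K ⧸ (⊤ : Subgroup K)) := QuotientGroup.subsingleton_quotient_top
  have hq' : Subsingleton (Subgroup (K ⧸ (⊤ : Subgroup K))) := Subgroup.subsingleton_iff.2 hq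
  refine hEH C hC hMet K W T' hW.tree hW.act ⊤ (hMet _ (Subsingleton.elim _ _)) ?_ ?_ ?_
  · intro g w
    exact C_stab hC _ w (hVK w)
  · intro w a hwa
    obtain ⟨h1, h2⟩ := hD.edge (ι w) (ι a) (hW.adj _ _ hwa)
    rw [hEd]
    refine ⟨frp_sub (hEK w a hwa) h1, fun x hx hx' => ?_⟩
    exact Subtype.ext (h2 x (Subgroup.mem_subgroupOf.1 hx) (Submonoid.isOfFinOrder_coe.2 hx'))
  · intro g w a hwa x hxw hxa hx1
    have hxw' : (x : K) • w = w := hxw
    have hxa' : (x : K) • a = a := hxa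
    obtain ⟨P, iP, f, hP, hf⟩ := hD.det (ι w) (ι a) (hW.adj _ _ hwa) K (hEK w a hwa) (by
      intro k hk
      obtain ⟨p⟩ := hW.tree.connected.preconnected w ((⟨k, hk⟩ : K) • w)
      have h1 := hall0 _ _ p a hwa _ (hW.act ⟨k, hk⟩ _ _ hwa)
      rw [hW.eqv, hW.eqv] at h1
      exact h1) (x : K) (hW.fix.1 hxw') (hW.fix.1 hxa') (fun h => hx1 (Subtype.ext h))
    refine ⟨P, iP, f.comp (Subgroup.subtype _), hP, fun m hm hfm hxm => ?_⟩
    refine hf m hm hfm ?_
    have h1 : Subgroup.map (Subgroup.subtype _) ⁅Sb (f.comp (Subgroup.subtype (⊤ ⊔ Subgroup.zpowers g))).ker w,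
        Sb (f.comp (Subgroup.subtype (⊤ ⊔ Subgroup.zpowers g))).ker w⁆ ≤ ⁅Sb f.ker (ι w), Sb f.ker (ι w)⁆ := by
      rw [Subgroup.map_commutator]
      have h2 : Subgroup.map (Subgroup.subtype _)
          (Sb (f.comp (Subgroup.subtype (⊤ ⊔ Subgroup.zpowers g))).ker w) ≤ Sb f.ker (ι w) := by
        rintro _ ⟨y, ⟨hy1, hy2⟩, rfl⟩
        have hy1' : (y : K) • w = w := hy1
        exact ⟨hW.fix.1 hy1', hy2⟩
      exact Subgroup.commutator_mono h2 h2
    exact h1 ⟨x ^ m, hxm, rfl⟩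

end Pool.Agent.N508.CS
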