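import Pool.Agent.N508.CS.StmB

/-!
# One homomorphism for all elements of an edge group
-/

set_option autoImplicit false

namespace Pool.Agent.N508.CS

open SimpleGraph
open Pool.Agent.Y110.FJ
open Pool.Agent.N509.TK
open Pool.Agent.N509.TX

namespace Ea

theorem mem_comm_iff {G : Type} [Group G] (S : Subgroup G) (z : S) :
    (z : G) ∈ ⁅S, S⁆ ↔ Abelianization.of z = 1 := by
  rw [← Subgroup.map_subtype_commutator, Subgroup.mem_map, ← MonoidHom.mem_ker,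
    Abelianization.ker_of]
  constructor
  · rintro ⟨w, hw, e⟩
    have : w = z := Subtype.ext e
    rw [← this]
    exact hw
  · intro h
    exact ⟨z, h, rfl⟩

theorem pow_mem_comm {G : Type} [Group G] (S : Subgroup G) {x y : G} (hx : x ∈ S) (hy : y ∈ S)
    {k l : ℕ} (hk : x ^ k ∈ ⁅S, S⁆) (hl : y ^ l ∈ ⁅S, S⁆) : (x * y) ^ (k * l) ∈ ⁅S, S⁆ := by
  have h1 := (mem_comm_iff S (⟨x, hx⟩ ^ k)).1 (by simpa using hk)
  have h2 := (mem_comm_iff S (⟨y, hy⟩ ^ l)).1 (by simpa using hl)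
  have h3 := (mem_comm_iff S ((⟨x, hx⟩ * ⟨y, hy⟩) ^ (k * l))).2 (by
    rw [map_pow, map_mul, mul_pow, pow_mul, ← map_pow, h1, one_pow, one_mul, mul_comm k l, pow_mul,
      ← map_pow, h2, one_pow])
  simpa using h3

/-- homomorphisms to groups of the class -/
structure HP (C : ∀ (G : Type) [Group G], Prop) (H : Type) [Group H] where
  P : Type
  grp : Group P
  f : H →* P
  mem : C P

attribute [instance] HP.grp

section

variable {C : ∀ (G : Type) [Group G], Prop} {H V : Type} [Group H] [MulAction H V]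

/-- the elements of the edge group and of the kernel with a positive power in the commutator -/
def Lf (v u : V) (F : HP C H) : Subgroup H where
  carrier := {x | x ∈ Ed H v u ∧ F.f x = 1 ∧
    ∃ k : ℕ, 0 < k ∧ x ^ k ∈ ⁅Sb F.f.ker v, Sb F.f.ker v⁆}
  one_mem' := ⟨one_mem _, map_one _, 1, one_pos, by rw [one_pow]; exact one_mem _⟩
  mul_mem' := by
    rintro x y ⟨h1, h2, k, hk, h3⟩ ⟨g1, g2, l, hl, g3⟩
    refine ⟨mul_mem h1 g1, by rw [map_mul, h2, g2, one_mul], k * l, Nat.mul_pos hk hl, ?_⟩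
    exact pow_mem_comm _ (mem_Sb.2 ⟨h1.1, h2⟩) (mem_Sb.2 ⟨g1.1, g2⟩) h3 g3
  inv_mem' := by
    rintro x ⟨h1, h2, k, hk, h3⟩
    refine ⟨inv_mem h1, by rw [map_inv, h2, inv_one], k, hk, ?_⟩
    rw [inv_pow]
    exact inv_mem h3

theorem mem_Lf {v u : V} {F : HP C H} {x : H} : x ∈ Lf v u F ↔ x ∈ Ed H v u ∧ F.f x = 1 ∧
    ∃ k : ℕ, 0 < k ∧ x ^ k ∈ ⁅Sb F.f.ker v, Sb F.f.ker v⁆ := Iff.rfl

end

end Ea

open Ea in
theorem t_ea : S_EA := by
  intro C hC H V _ _ v u n hFR _ hex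
  by_contra hne
  have h1 : ∀ F : HP C H, ∃ x : H, x • v = v ∧ x • u = u ∧
      x ∈ ⁅Sb F.f.ker v, Sb F.f.ker v⁆ ∧ x ≠ 1 := by
    intro F
    by_contra hc
    apply hne
    refine ⟨F.P, F.grp, F.f, F.mem, fun x a b c => ?_⟩
    by_contra hx
    exact hc ⟨x, a, b, c, hx⟩
  choose X X1 X2 X3 X4 using h1
  have h2 : ∀ F : HP C H, ∃ Q : HP C H, ∀ m : ℕ, 0 < m → Q.f (X F) ^ m = 1 →
      X F ^ m ∉ ⁅Sb Q.f.ker v, Sb Q.f.ker v⁆ := by
    intro F
    obtain ⟨P, hP, f, hCP, hf⟩ := hex (X F) ⟨X1 F, X2 F⟩ (X4 F)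
    exact ⟨⟨P, hP, f, hCP⟩, hf⟩
  choose Q hQ using h2
  let S : HP C H → HP C H := fun F =>
    ⟨F.P × (Q F).P, inferInstance, F.f.prod (Q F).f, hC.base.prod _ _ F.mem (Q F).mem⟩
  have hker1 : ∀ F : HP C H, (S F).f.ker ≤ F.f.ker := by
    intro F x hx
    rw [MonoidHom.mem_ker] at hx ⊢
    exact congrArg Prod.fst hx
  have hker2 : ∀ F : HP C H, (S F).f.ker ≤ (Q F).f.ker := by
    intro F x hx
    rw [MonoidHom.mem_ker] at hx ⊢
    exact congrArg Prod.snd hx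
  let F0 : HP C H := ⟨Multiplicative ℤ, inferInstance, 1, hC.base.int⟩
  let F : ℕ → HP C H := fun i => S^[i] F0
  have hF : ∀ i, F (i + 1) = S (F i) := fun i => Function.iterate_succ_apply' S i F0
  have key := hFR (n + 1) (fun i => Lf v u (F i)) (fun i => X (F i)) (fun x hx => hx.1) ?_ ?_
  · omega
  · intro i
    show Lf v u (F (i + 1)) ≤ Lf v u (F i)
    rw [hF]
    intro x hx
    obtain ⟨a1, a2, k, hk, a3⟩ := mem_Lf.1 hx
    refine mem_Lf.2 ⟨a1, ?_, k, hk, ?_⟩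
    · exact hker1 (F i) a2
    · exact Subgroup.commutator_mono (Sb_mono (hker1 (F i)) v) (Sb_mono (hker1 (F i)) v) a3
  · intro i _
    have hS : ⁅Sb (F i).f.ker v, Sb (F i).f.ker v⁆ ≤ Sb (F i).f.ker v :=
      Subgroup.commutator_le_self _
    refine ⟨mem_Lf.2 ⟨⟨X1 _, X2 _⟩, (hS (X3 (F i))).2, 1, one_pos, ?_⟩, ?_⟩
    · rw [pow_one]
      exact X3 (F i)
    · intro m hm hmem
      rw [hF] at hmem
      obtain ⟨-, a2, k, hk, a3⟩ := mem_Lf.1 hmem
      have b1 : (Q (F i)).f (X (F i) ^ m) = 1 := hker2 (F i) a2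
      refine hQ (F i) (m * k) (Nat.mul_pos hm hk) ?_ ?_
      · rw [pow_mul, ← map_pow, b1, one_pow]
      · rw [pow_mul]
        exact Subgroup.commutator_mono (Sb_mono (hker2 (F i)) v) (Sb_mono (hker2 (F i)) v) a3

end Pool.Agent.N508.CS
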