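import Pool.Agent.N508.CS.StmB
import Pool.Agent.N509.TK.Loc2

/-!
Project CSB (helper508), part EH (helper186): elementwise detection of edge groups.
-/

set_option autoImplicit false

namespace Pool.Agent.N508.CS

open SimpleGraph
open Pool.Agent.Y110.FJ
open Pool.Agent.N509.TK
open Pool.Agent.N509.TX

theorem t_eh : S_EA → S_FRP → S_EH := by
  intro hEA hFRP C hC hM G V _ _ T hT hact K _ hQ hV hE hdet
  refine Pool.Agent.N509.TK.hrelative hC hM hT hact K hQ hV ?_
  intro g v u hvu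
  obtain ⟨hfr, htf⟩ := hE v u hvu
  obtain ⟨n, hn, hn'⟩ := hFRP G (Ed G v u) hfr
  have hEd : Ed ↥(K ⊔ Subgroup.zpowers g) v u =
      (Ed G v u).subgroupOf (K ⊔ Subgroup.zpowers g) := by
    ext x
    rfl
  refine hEA C hC ↥(K ⊔ Subgroup.zpowers g) V v u n ?_ ?_ ?_
  · rw [hEd]
    exact hn' _ _ le_rfl
  · intro x hx hfin
    rw [hEd, Subgroup.mem_subgroupOf] at hx
    have h1 : IsOfFinOrder (x : G) := Submonoid.isOfFinOrder_coe.2 hfin
    exact Subtype.ext (htf _ hx h1)
  · intro x hx hne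
    exact hdet g v u hvu x hx.1 hx.2 hne

end Pool.Agent.N508.CS
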