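import Pool.Agent.N508.CS.Stm4

/-!
# Project CS4 (helper508), MP_59dd5b_al, leaf FC: groups with finite conjugacy classes
-/

set_option autoImplicit false

namespace Pool.Agent.N508.CS

open scoped commutatorElement

namespace FC

/-- a group whose centre has finite index has finitely many commutators -/
lemma finite_comm {G : Type} [Group G] (h : (Subgroup.center G).index ≠ 0) :
    Finite (commutatorSet G) := by
  have : (Subgroup.center G).FiniteIndex := ⟨h⟩
  have : Finite (G ⧸ Subgroup.center G) := inferInstance
  have hsub : commutatorSet G ⊆ Set.range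
      (fun q : (G ⧸ Subgroup.center G) × (G ⧸ Subgroup.center G) => ⁅q.1.out, q.2.out⁆) := by
    rintro _ ⟨a, b, rfl⟩
    refine ⟨((a : G ⧸ Subgroup.center G), (b : G ⧸ Subgroup.center G)), ?_⟩
    obtain ⟨z, hz⟩ := QuotientGroup.mk_out_eq_mul (Subgroup.center G) a
    obtain ⟨w, hw⟩ := QuotientGroup.mk_out_eq_mul (Subgroup.center G) b
    change ⁅((a : G ⧸ Subgroup.center G)).out, ((b : G ⧸ Subgroup.center G)).out⁆ = ⁅a, b⁆
    rw [hz, hw]
    have hz' : ∀ g : G, g * (z : G) = (z : G) * g := fun g => (Subgroup.mem_center_iff.1 z.2 g)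
    have hw' : ∀ g : G, g * (w : G) = (w : G) * g := fun g => (Subgroup.mem_center_iff.1 w.2 g)
    rw [commutatorElement_def, commutatorElement_def]
    have e1 : (a * (z : G)) * (b * (w : G)) = a * b * ((z : G) * (w : G)) := by
      rw [mul_assoc a, ← mul_assoc (z : G), ← hz' b, mul_assoc b, ← mul_assoc a]
    have e2 : (a * (z : G))⁻¹ * (b * (w : G))⁻¹ = ((z : G) * (w : G))⁻¹ * (a⁻¹ * b⁻¹) := by
      have e3 : (b * (w : G)) * (a * (z : G)) = (b * a) * ((z : G) * (w : G)) := by
        rw [mul_assoc b, ← mul_assoc (w : G), ← hw' a, mul_assoc a, ← mul_assoc b, hw' z]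
      rw [← mul_inv_rev, e3, mul_inv_rev, mul_inv_rev b a]
    rw [mul_assoc, e2, e1]
    group
  exact Set.Finite.subset (Set.finite_range _) hsub

/-- the commutator subgroup of a subgroup generated by two elements is finite -/
lemma fin_comm {M : Type} [Group M] (h : ∀ g : M, (Subgroup.centralizer {g}).index ≠ 0)
    (x y : M) : Finite (commutator (Subgroup.closure ({x, y} : Set M))) := by
  set H : Subgroup M := Subgroup.closure ({x, y} : Set M) with hH
  have h1 : (Subgroup.centralizer {x} ⊓ Subgroup.centralizer {y}).index ≠ 0 :=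
    Subgroup.index_inf_ne_zero (h x) (h y)
  have h2 : ((Subgroup.centralizer {x} ⊓ Subgroup.centralizer {y}).subgroupOf H).index ≠ 0 := by
    change (Subgroup.centralizer {x} ⊓ Subgroup.centralizer {y}).relIndex H ≠ 0
    intro h0
    exact h1 (Subgroup.index_eq_zero_of_relIndex_eq_zero h0)
  have h3 : (Subgroup.centralizer {x} ⊓ Subgroup.centralizer {y}).subgroupOf H ≤
      Subgroup.center H := by
    intro c hc
    rw [Subgroup.mem_subgroupOf, Subgroup.mem_inf] at hc
    obtain ⟨hx, hy⟩ := hc
    rw [Subgroup.mem_centralizer_singleton_iff] at hx hy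
    rw [Subgroup.mem_center_iff]
    intro g
    apply Subtype.ext
    rw [Subgroup.coe_mul, Subgroup.coe_mul]
    have hle : H ≤ Subgroup.centralizer {(c : M)} := by
      refine (Subgroup.closure_le _).2 ?_
      rintro a (rfl | rfl)
      · rw [SetLike.mem_coe, Subgroup.mem_centralizer_singleton_iff]
        exact hx.symm
      · rw [SetLike.mem_coe, Subgroup.mem_centralizer_singleton_iff]
        exact hy.symm
    have := hle g.2
    rw [Subgroup.mem_centralizer_singleton_iff] at this
    exact this
  have h4 : (Subgroup.center H).index ≠ 0 := by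
    intro h0
    exact h2 (Nat.eq_zero_of_zero_dvd (h0 ▸ Subgroup.index_dvd_of_le h3))
  have := finite_comm h4
  infer_instance

end FC

/-- FC -/
theorem t_fc : S_FC := by
  intro M _ h
  have key : ∀ x y : M, ∀ c ∈ commutator (Subgroup.closure ({x, y} : Set M)), IsOfFinOrder (c : M) := by
    intro x y c hc
    have := FC.fin_comm h x y
    have h1 : IsOfFinOrder (⟨c, hc⟩ : commutator (Subgroup.closure ({x, y} : Set M))) :=
      isOfFinOrder_of_finite _
    have h2 := MonoidHom.isOfFinOrder (Subgroup.subtype (commutator (Subgroup.closure ({x, y} : Set M)))) h1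
    exact MonoidHom.isOfFinOrder (Subgroup.subtype (Subgroup.closure ({x, y} : Set M))) h2
  constructor
  · intro x y hx hy
    let H : Subgroup M := Subgroup.closure ({x, y} : Set M)
    have hxH : x ∈ H := Subgroup.subset_closure (by simp)
    have hyH : y ∈ H := Subgroup.subset_closure (by simp)
    let X : H := ⟨x, hxH⟩
    let Y : H := ⟨y, hyH⟩
    set k := orderOf x * orderOf y with hk
    have hk0 : 0 < k := Nat.mul_pos hx.orderOf_pos hy.orderOf_pos
    have hXk : X ^ k = 1 := by
      apply Subtype.ext
      change x ^ k = 1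
      rw [hk, pow_mul, pow_orderOf_eq_one, one_pow]
    have hYk : Y ^ k = 1 := by
      apply Subtype.ext
      change y ^ k = 1
      rw [hk, mul_comm, pow_mul, pow_orderOf_eq_one, one_pow]
    have hmem : (X * Y) ^ k ∈ commutator H := by
      have : Abelianization.of ((X * Y) ^ k) = 1 := by
        rw [map_pow, map_mul, mul_pow, ← map_pow, ← map_pow, hXk, hYk, map_one, one_mul]
      rwa [← MonoidHom.mem_ker, Abelianization.ker_of] at this
    have h3 := key x y _ hmem
    have h4 : IsOfFinOrder ((x * y) ^ k) := h3
    exact (isOfFinOrder_pow.1 h4).resolve_right hk0.ne'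
  · intro x y
    let H : Subgroup M := Subgroup.closure ({x, y} : Set M)
    have hxH : x ∈ H := Subgroup.subset_closure (by simp)
    have hyH : y ∈ H := Subgroup.subset_closure (by simp)
    have hmem : ⁅(⟨x, hxH⟩ : H), (⟨y, hyH⟩ : H)⁆ ∈ commutator H :=
      Subgroup.commutator_mem_commutator (Subgroup.mem_top _) (Subgroup.mem_top _)
    have h3 := key x y _ hmem
    exact h3

end Pool.Agent.N508.CS
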