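import Pool.Agent.N508.CS.StmG

/-!
# Kernels which act on trees: edge groups detected by finite and solvable quotients: the theorem
from the case of trivial edge groups (helper288)
-/

set_option autoImplicit false

namespace Pool.Agent.N508.CS

open SimpleGraph
open Pool.Agent.Y110.FJ
open Pool.Agent.N509.TK
open Pool.Agent.R684.FP (FbC)

/-- the intersection of the derived subgroup and the kernels of the homomorphisms to the symmetric
group, as a subgroup of the big group -/
theorem fed_D {G : Type} [Group G] (N : Subgroup G) [N.Normal] (k s : ℕ) :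
    ∃ D : Subgroup G, D.Normal ∧ ∀ x : G, x ∈ D ↔ ∃ n : N, (n : G) = x ∧ n ∈ derivedSeries N s ∧
      ∀ f : N →* Equiv.Perm (Fin k), f n = 1 := by
  have hmem : ∀ x : G, x ∈ (derivedSeries N s ⊓ ⨅ f : N →* Equiv.Perm (Fin k), f.ker).map
      N.subtype ↔ ∃ n : N, (n : G) = x ∧ n ∈ derivedSeries N s ∧
        ∀ f : N →* Equiv.Perm (Fin k), f n = 1 := by
    intro x
    rw [Subgroup.mem_map]
    constructor
    · rintro ⟨n, hn, hx⟩
      rw [Subgroup.mem_inf, Subgroup.mem_iInf] at hn
      exact ⟨n, hx, hn.1, fun f => hn.2 f⟩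
    · rintro ⟨n, hx, h1, h2⟩
      refine ⟨n, ?_, hx⟩
      rw [Subgroup.mem_inf, Subgroup.mem_iInf]
      exact ⟨h1, fun f => h2 f⟩
  refine ⟨_, ⟨?_⟩, hmem⟩
  intro x hx g
  rw [hmem] at hx ⊢
  obtain ⟨n, hn, h1, h2⟩ := hx
  refine ⟨MulAut.conjNormal g n, by rw [MulAut.conjNormal_apply, hn], ?_, ?_⟩
  · have h3 : (derivedSeries N s).Characteristic := derivedSeries_characteristic N s
    have h4 := (Subgroup.characteristic_iff_map_le.1 h3) (MulAut.conjNormal g)
    exact h4 (Subgroup.mem_map_of_mem _ h1)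
  · intro f
    exact h2 (f.comp (MulAut.conjNormal g : N ≃* N).toMonoidHom)

theorem t_fed : S_TRV → S_GD → S_FED := by
  intro hTRV hGD C hC hmet hF G V _ N _ _ T hT hact hinv k s hdet hperm hv hq
  obtain ⟨D, hDn, hD⟩ := fed_D N k s
  have hDN : D ≤ N := by
    intro x hx
    obtain ⟨n, hn, -⟩ := (hD x).1 hx
    rw [← hn]
    exact n.2
  have hCD : C (G ⧸ D) := hGD C hC hmet G N k s D hD hq
  letI act : MulAction D V := MulAction.compHom V (Subgroup.inclusion hDN)
  have hsm : ∀ (d : D) (v : V), d • v = (Subgroup.inclusion hDN d) • v := fun _ _ => rfl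
  have htriv : ∀ u v : V, T.Adj u v → ∀ x : D, x • u = u → x • v = v → x = 1 := by
    intro u v huv x hu hv'
    by_contra hx
    have hx' : Subgroup.inclusion hDN x ≠ 1 := by
      intro h
      exact hx (Subgroup.inclusion_injective hDN (by rw [h, map_one]))
    obtain ⟨n, hn, h1, h2⟩ := (hD x).1 x.2
    have hnx : n = Subgroup.inclusion hDN x := Subtype.ext hn
    rw [hnx] at h1 h2
    rcases hdet u v huv (Subgroup.inclusion hDN x) hu hv' hx' with h3 | ⟨f, hf⟩
    · exact h3 h1
    · exact hf (h2 f)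
  refine hTRV C hC hF G V D T hT (fun g u v h => hact (Subgroup.inclusion hDN g) u v h)
    (fun g u v h => hinv (Subgroup.inclusion hDN g) u v h) htriv ?_ ?_ hCD
  · intro g v
    obtain ⟨w, hw⟩ := hperm g v
    exact ⟨w, fun x y h => hw (Subgroup.inclusion hDN x) (Subgroup.inclusion hDN y) h⟩
  · intro v g h
    by_cases h1 : ∀ x : D, x • v = v → x = 1
    · have h2 : Sv D v = ⊥ := by
        rw [eq_bot_iff]
        rintro _ ⟨x, hx, rfl⟩
        rw [h1 x hx]
        exact Subgroup.mem_bot.2 rfl
      rw [h2, bot_sup_eq]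
      exact Pool.Agent.R941.FJ.C_cyc hC.base g
    · push Not at h1
      obtain ⟨x, hx, hx1⟩ := h1
      obtain ⟨w, hw⟩ := hperm g v
      obtain ⟨y, hy⟩ : ∃ y : D, (y : G) = g * (x : G) * g⁻¹ := ⟨⟨_, hDn.conj_mem x x.2 g⟩, rfl⟩
      have hyv : y • v = v := (h x y hy).1 hx
      have hyw : y • w = w :=
        (hw (Subgroup.inclusion hDN x) (Subgroup.inclusion hDN y) hy).1 hx
      have hy1 : y ≠ 1 := by
        rintro rfl
        apply hx1
        apply Subtype.ext
        have h3 : g * (x : G) * g⁻¹ = 1 := hy.symm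
        rw [mul_inv_eq_one] at h3
        have h4 : (x : G) = 1 := by
          have : g * (x : G) = g * 1 := by rw [h3, mul_one]
          exact mul_left_cancel this
        exact h4
      have hvw : w = v := by
        by_contra hne
        obtain ⟨a, ha⟩ := St_exists hT (p := v) (x := w) (fun h2 => hne h2.symm)
        have h2 := St_smul hact (Subgroup.inclusion hDN y) ha
        rw [show (Subgroup.inclusion hDN y) • v = v from hyv,
          show (Subgroup.inclusion hDN y) • w = w from hyw] at h2
        exact hy1 (htriv v a ha.1 y hyv (St_unique hT.isAcyclic h2 ha))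
      subst hvw
      refine Pool.Agent.R941.FJ.C_le hC.base (sup_le_sup_right ?_ _) (hv w g hw)
      rintro _ ⟨d, hd, rfl⟩
      exact ⟨Subgroup.inclusion hDN d, hd, rfl⟩

end Pool.Agent.N508.CS
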