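import Pool.Agent.N508.CS.Stm

/-!
# The finite step
-/

set_option autoImplicit false

namespace Pool.Agent.N508.CS

open SimpleGraph
open Pool.Agent.Y110.FJ
open Pool.Agent.N509.TK
open Pool.Agent.N509.TX

/-- CS/F: the finite step -/
theorem t_f : S_F := by
  classical
  intro C hC hM hA G V _ _ T A B N _ L _ W _ T' ι hd hF hQ
  have key : ∀ q : G ⧸ N, C ↥(L ⊔ Subgroup.zpowers q) := by
    intro q
    refine kfin hC hM hA (G := ↥(L ⊔ Subgroup.zpowers q)) (V := W) (T := T') hd.tree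
      (fun x u v h => hd.act x u v h)
      ((QuotientGroup.mk' L).comp (L ⊔ Subgroup.zpowers q).subtype) hQ (hd.vert q) ?_
    intro u v huv
    obtain ⟨n, hn⟩ := hF (ι u) (ι v) (hd.adj u v huv)
    refine ⟨n, fun F hFF => ?_⟩
    have h1 : ∀ p : ↥(L ⊔ Subgroup.zpowers q), ∃ g : G, p ∈ F →
        g ∈ B (ι v) ∧ g • ι u = ι u ∧ (g : G ⧸ N) = p := by
      intro p
      by_cases hp : p ∈ F
      · obtain ⟨hu, hv, hf⟩ := hFF p hp
        have hL : (p : G ⧸ N) ∈ L := by
          have : QuotientGroup.mk' L (p : G ⧸ N) = 1 := hf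
          rwa [← MonoidHom.mem_ker, QuotientGroup.ker_mk'] at this
        obtain ⟨g, hg, hgu, hgp⟩ := hd.edge u v huv (p : G ⧸ N) hL hu hv
        exact ⟨g, fun _ => ⟨hg, hgu, hgp⟩⟩
      · exact ⟨1, fun h => absurd h hp⟩
    choose c hc using h1
    have hinj : Set.InjOn c F := by
      intro p hp p' hp' h
      apply Subtype.ext
      rw [← (hc p hp).2.2, ← (hc p' hp').2.2, h]
    rw [← Finset.card_image_of_injOn hinj]
    apply hn
    · intro g hg
      obtain ⟨p, hp, rfl⟩ := Finset.mem_image.1 hg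
      exact ⟨(hc p hp).1, (hc p hp).2.1⟩
    · intro g hg h hh hgh
      obtain ⟨p, hp, rfl⟩ := Finset.mem_image.1 hg
      obtain ⟨p', hp', rfl⟩ := Finset.mem_image.1 hh
      have h2 := hd.ker' v _ hgh
      rw [QuotientGroup.mk_mul, QuotientGroup.mk_inv, inv_mul_eq_one, (hc p hp).2.2,
        (hc p' hp').2.2] at h2
      rw [Subtype.ext h2]
  refine Pool.Agent.Y529.FJ.t_ext C hC (G ⧸ N) L ?_ hQ fun q _ => key q
  exact Pool.Agent.R941.FJ.C_le hC.base le_sup_left (key 1)

end Pool.Agent.N508.CS
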