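import Pool.Agent.N508.CS.StmB
import Pool.Agent.N77.CP.HBS
import Pool.Agent.N77.CP.HBX

/-!
# The chain condition for virtually polycyclic groups and for subgroups (helper189)
-/

set_option autoImplicit false

namespace Pool.Agent.N508.CS

theorem t_frp : S_FRP := by
  intro G _ E hE
  have key : ∃ n : ℕ, FR n E := by
    rcases hE with h | ⟨P, hPE, hPi, hPs, hPm⟩
    · exact h
    · obtain ⟨n, hn⟩ := Pool.Agent.N77.CP.HBS.main Pool.Agent.N77.CP.HBX.main P hPs hPm
      refine ⟨n, ?_⟩
      intro k L x hL0 hL hx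
      refine hn k (fun i => (L i).subgroupOf P) (fun i => Subgroup.comap_mono (hL i)) ?_
      intro i hi
      by_contra hne
      obtain ⟨hxi, hxm⟩ := hx i hi
      have hLE : ∀ j, L j ≤ E := by
        intro j
        induction j with
        | zero => exact hL0
        | succ j ih => exact (hL j).trans ih
      obtain ⟨a, ha, _, hxa⟩ := Subgroup.exists_pow_mem_of_relIndex_ne_zero hPi (hLE i hxi)
      have hxaL : (⟨x i ^ a, hxa.1⟩ : P) ∈ (L i).subgroupOf P := by
        rw [Subgroup.mem_subgroupOf]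
        exact (L i).pow_mem hxi a
      obtain ⟨b, hb, _, hxb⟩ := Subgroup.exists_pow_mem_of_relIndex_ne_zero hne hxaL
      have h1 := Subgroup.mem_subgroupOf.1 (Subgroup.mem_inf.1 hxb).1
      apply hxm (a * b) (Nat.mul_pos ha hb)
      rw [pow_mul]
      simpa using h1
  obtain ⟨n, hn⟩ := key
  refine ⟨n, hn, ?_⟩
  intro H E' hE' k L x hL0 hL hx
  refine hn k (fun i => (L i).map H.subtype) (fun i => (x i : G)) ?_
    (fun i => Subgroup.map_mono (hL i)) ?_
  · rintro _ ⟨y, hy, rfl⟩
    exact hE' (Subgroup.mem_subgroupOf.1 (hL0 hy))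
  · intro i hi
    obtain ⟨hxi, hxm⟩ := hx i hi
    refine ⟨⟨x i, hxi, rfl⟩, ?_⟩
    rintro m hm ⟨y, hy, hyx⟩
    apply hxm m hm
    have : y = x i ^ m := by
      apply Subtype.ext
      simpa using hyx
    rw [← this]
    exact hy

end Pool.Agent.N508.CS
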