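import Pool.Agent.N508.CS.Stm4

/-!
# The condition `FZ` does not depend on the vertex
-/

set_option autoImplicit false

namespace Pool.Agent.N508.CS

open SimpleGraph

theorem t_fz : S_FZ := by
  intro G V _ _ T hT hadj u v g hu
  have hr : T.Reachable u v := hT.connected.preconnected u v
  obtain ⟨p⟩ := hr
  induction p with
  | nil => exact hu
  | cons h _ ih => exact ih (Subgroup.relIndex_ne_zero_trans hu (hadj _ _ h))

end Pool.Agent.N508.CS
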