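import Pool.Agent.N508.CS.StmE
import Pool.Agent.N509.TK.Fin

/-!
# Project CSE (helper738): the step for groups
-/

set_option autoImplicit false

namespace Pool.Agent.N508.CS

open scoped commutatorElement
open Pool.Agent.Y110.FJ
open Pool.Agent.N509.TK
open Pool.Agent.R684.FP (FbC free_ext)
open Pool.Agent.R941.FJ (C_equiv C_le mem_sup_normal)

namespace Pst

variable {C : ∀ (G : Type) [Group G], Prop}

/-- extensions by abelian groups -/
theorem abel_step (hC : ClosedE C)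
    (hM : ∀ (G : Type) [Group G], derivedSeries G 2 = ⊥ → C G) {Q : Type} [Group Q]
    (N : Subgroup Q) [N.Normal] (hab : ∀ x ∈ N, ∀ y ∈ N, x * y = y * x) (hQN : C (Q ⧸ N)) :
    C Q := by
  have key : ∀ g : Q, C ↥(N ⊔ Subgroup.zpowers g) := by
    intro g
    refine hM _ (metab (N.subgroupOf (N ⊔ Subgroup.zpowers g)) ?_ ?_)
    · intro x hx y hy
      exact Subtype.ext (hab x hx y hy)
    · rintro ⟨x, hx⟩ ⟨y, hy⟩
      obtain ⟨a, ha, _, ⟨i, rfl⟩, rfl⟩ := mem_sup_normal.1 hx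
      obtain ⟨b, hb, _, ⟨j, rfl⟩, rfl⟩ := mem_sup_normal.1 hy
      rw [Subgroup.mem_subgroupOf]
      show ⁅a * g ^ i, b * g ^ j⁆ ∈ N
      rw [← QuotientGroup.eq_one_iff]
      have h1 : ((⁅a * g ^ i, b * g ^ j⁆ : Q) : Q ⧸ N) =
          ⁅((a * g ^ i : Q) : Q ⧸ N), ((b * g ^ j : Q) : Q ⧸ N)⁆ := rfl
      rw [h1, QuotientGroup.mk_mul, QuotientGroup.mk_mul, (QuotientGroup.eq_one_iff a).2 ha,
        (QuotientGroup.eq_one_iff b).2 hb, one_mul, one_mul, commutatorElement_eq_one_iff_mul_comm]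
      show ((g : Q ⧸ N)) ^ i * ((g : Q ⧸ N)) ^ j = _
      rw [← zpow_add, add_comm, zpow_add]
      rfl
  refine Pool.Agent.Y529.FJ.t_ext C hC _ N ?_ hQN fun g _ => key g
  exact C_le hC.base le_sup_left (key 1)

end Pst

theorem t_pst : S_PST := by
  intro C hC hM hF G _ N P M _ X Y _ _ hX hY hPM hfree hQ
  have hXY : X ≤ Y := by
    rw [hX, hY]
    exact Subgroup.map_mono hPM
  obtain ⟨K, hK⟩ : ∃ K : Subgroup (G ⧸ X), K = ⁅Y, Y⁆.map (QuotientGroup.mk' X) := ⟨_, rfl⟩
  have hKn : K.Normal := by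
    rw [hK]
    exact Subgroup.Normal.map inferInstance _ (QuotientGroup.mk'_surjective X)
  have hle : P ≤ X.comap N.subtype := by
    intro n hn
    rw [Subgroup.mem_comap, hX]
    exact ⟨n, hn, rfl⟩
  let ι : N ⧸ P →* G ⧸ X := QuotientGroup.map P X N.subtype hle
  have hι : Function.Injective ι := by
    rw [injective_iff_map_eq_one]
    intro a ha
    obtain ⟨n, rfl⟩ := QuotientGroup.mk_surjective a
    have h1 : ((n : G) : G ⧸ X) = 1 := ha
    have h2 : (n : G) ∈ X := (QuotientGroup.eq_one_iff _).1 h1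
    rw [hX] at h2
    obtain ⟨m, hm, hmn⟩ := h2
    have h3 : m = n := Subtype.ext hmn
    exact (QuotientGroup.eq_one_iff n).2 (h3 ▸ hm)
  have hmap : (⁅M, M⁆.map (QuotientGroup.mk' P)).map ι = K := by
    rw [Subgroup.map_map]
    have h1 : ι.comp (QuotientGroup.mk' P) = (QuotientGroup.mk' X).comp N.subtype := rfl
    rw [h1, ← Subgroup.map_map, Subgroup.map_commutator, ← hY, hK]
  have hKfree : IsFreeGroup K := by
    rw [← hmap]
    exact IsFreeGroup.ofMulEquiv (Subgroup.equivMapOfInjective _ ι hι)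
  refine free_ext hC hF K ?_
  have hAn : (Y.map (QuotientGroup.mk' X)).Normal :=
    Subgroup.Normal.map inferInstance _ (QuotientGroup.mk'_surjective X)
  have hKA : K ≤ Y.map (QuotientGroup.mk' X) := by
    rw [hK]
    exact Subgroup.map_mono (Subgroup.commutator_le_self Y)
  have hBn : ((Y.map (QuotientGroup.mk' X)).map (QuotientGroup.mk' K)).Normal :=
    Subgroup.Normal.map inferInstance _ (QuotientGroup.mk'_surjective K)
  refine Pst.abel_step hC hM ((Y.map (QuotientGroup.mk' X)).map (QuotientGroup.mk' K)) ?_ ?_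
  · rintro _ ⟨_, ⟨y, hy, rfl⟩, rfl⟩ _ ⟨_, ⟨z, hz, rfl⟩, rfl⟩
    rw [← map_mul, ← map_mul]
    refine QuotientGroup.eq.2 ?_
    show (QuotientGroup.mk' X y * QuotientGroup.mk' X z)⁻¹ *
      (QuotientGroup.mk' X z * QuotientGroup.mk' X y) ∈ K
    rw [← map_mul, ← map_mul, ← map_inv, ← map_mul, hK]
    refine ⟨_, ?_, rfl⟩
    have h1 : (y * z)⁻¹ * (z * y) = ⁅z⁻¹, y⁻¹⁆ := by
      rw [commutatorElement_def]
      group
    rw [h1]
    exact Subgroup.commutator_mem_commutator (Y.inv_mem hz) (Y.inv_mem hy)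
  · exact C_equiv hC.base (QuotientGroup.quotientQuotientEquivQuotient K
      (Y.map (QuotientGroup.mk' X)) hKA)
      (C_equiv hC.base (QuotientGroup.quotientQuotientEquivQuotient X Y hXY) hQ)

end Pool.Agent.N508.CS
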