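import Pool.Agent.N508.CS.StmG
import Pool.Agent.N508.CS.Pst
import Pool.Agent.Y430.SS.Lf
import Pool.Agent.R941.FJ.Lfk

/-!
# Project CSG (helper67): the quotient by the intersection of kernels
-/

set_option autoImplicit false

namespace Pool.Agent.N508.CS

open scoped commutatorElement
open Pool.Agent.Y110.FJ
open Pool.Agent.R941.FJ (C_equiv C_le mem_sup_normal)

namespace Gd

/-- finiteness of the image -/
theorem fin_map {N P Q : Type} [Group N] [Group P] [Group Q] (Φ : N →* P) (ψ : N →* Q)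
    (h : ∀ n, Φ n = 1 → ψ n = 1) (S : Subgroup N) (hf : Finite (S.map Φ)) : Finite (S.map ψ) := by
  have h1 : ∀ y : S.map Φ, ∃ n ∈ S, Φ n = y := fun y => y.2
  choose c hc1 hc2 using h1
  refine Finite.of_surjective (fun y : S.map Φ => (⟨ψ (c y), c y, hc1 y, rfl⟩ : S.map ψ)) ?_
  rintro ⟨_, n, hn, rfl⟩
  refine ⟨⟨Φ n, n, hn, rfl⟩, Subtype.ext ?_⟩
  show ψ (c _) = ψ n
  have h2 : Φ (c ⟨Φ n, n, hn, rfl⟩) = Φ n := hc2 _
  have h3 : Φ ((c ⟨Φ n, n, hn, rfl⟩) * n⁻¹) = 1 := by
    rw [map_mul, h2, map_inv, mul_inv_cancel]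
  have h4 := h _ h3
  rw [map_mul, map_inv, mul_inv_eq_one] at h4
  exact h4

/-- the intersection of the kernels -/
def K0 (N : Type) [Group N] (k : ℕ) : Subgroup N where
  carrier := {n | ∀ f : N →* Equiv.Perm (Fin k), f n = 1}
  one_mem' := fun f => map_one f
  mul_mem' := fun {a b} ha hb f => by rw [map_mul, ha f, hb f, one_mul]
  inv_mem' := fun {a} ha f => by rw [map_inv, ha f, inv_one]

theorem mem_K0 {N : Type} [Group N] {k : ℕ} {n : N} :
    n ∈ K0 N k ↔ ∀ f : N →* Equiv.Perm (Fin k), f n = 1 := Iff.rfl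

instance {N : Type} [Group N] {k : ℕ} : (K0 N k).Characteristic := by
  rw [Subgroup.characteristic_iff_le_comap]
  intro φ n hn
  rw [Subgroup.mem_comap, mem_K0]
  intro f
  exact (mem_K0.1 hn) (f.comp φ.toMonoidHom)

variable {C : ∀ (G : Type) [Group G], Prop}

/-- the quotients by the derived series -/
theorem der (hC : ClosedE C) (hM : ∀ (G : Type) [Group G], derivedSeries G 2 = ⊥ → C G)
    {G : Type} [Group G] (N : Subgroup G) [N.Normal] (hN : C (G ⧸ N)) :
    ∀ (s : ℕ) (Y : Subgroup G) [Y.Normal], Y = (derivedSeries N s).map N.subtype → C (G ⧸ Y) := by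
  intro s
  induction s with
  | zero =>
    intro Y _ hY
    have h1 : Y = N := by
      rw [hY, derivedSeries_zero, ← MonoidHom.range_eq_map, Subgroup.range_subtype]
    subst h1
    exact hN
  | succ s ih =>
    intro Y' _ hY'
    obtain ⟨Y, hY⟩ : ∃ Y : Subgroup G, Y = (derivedSeries N s).map N.subtype := ⟨_, rfl⟩
    have hYn : Y.Normal := by
      rw [hY]
      infer_instance
    have hQ := ih Y hY
    have hc : Y' = ⁅Y, Y⁆ := by
      rw [hY', derivedSeries_succ, Subgroup.map_commutator, ← hY]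
    have hle : Y' ≤ Y := by
      rw [hc]
      exact Subgroup.commutator_le_self Y
    have hAn : (Y.map (QuotientGroup.mk' Y')).Normal :=
      Subgroup.Normal.map inferInstance _ (QuotientGroup.mk'_surjective Y')
    refine Pst.abel_step hC hM (Y.map (QuotientGroup.mk' Y')) ?_ ?_
    · rintro _ ⟨a, ha, rfl⟩ _ ⟨b, hb, rfl⟩
      rw [← map_mul, ← map_mul]
      refine QuotientGroup.eq.2 ?_
      have h1 : (a * b)⁻¹ * (b * a) = ⁅b⁻¹, a⁻¹⁆ := by
        rw [commutatorElement_def]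
        group
      rw [h1, hc]
      exact Subgroup.commutator_mem_commutator (Y.inv_mem hb) (Y.inv_mem ha)
    · exact C_equiv hC.base (QuotientGroup.quotientQuotientEquivQuotient Y' Y hle) hQ

/-- the quotient by the intersection of the kernels -/
theorem ker (hC : ClosedE C) {G : Type} [Group G] (N : Subgroup G) [N.Normal] (hN : C (G ⧸ N))
    (k : ℕ) (Z : Subgroup G) [Z.Normal] (hZ : Z = (K0 N k).map N.subtype) : C (G ⧸ Z) := by
  have hle : Z ≤ N := by
    rw [hZ]
    exact Subgroup.map_subtype_le _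
  have hAn : (N.map (QuotientGroup.mk' Z)).Normal :=
    Subgroup.Normal.map inferInstance _ (QuotientGroup.mk'_surjective Z)
  refine Pool.Agent.R941.FJ.lfk hC (N.map (QuotientGroup.mk' Z)) ?_
    (C_equiv hC.base (QuotientGroup.quotientQuotientEquivQuotient Z N hle) hN)
  intro E hE hEN
  let Φ : N →* ((N →* Equiv.Perm (Fin k)) → Equiv.Perm (Fin k)) :=
    { toFun := fun n f => f n
      map_one' := by funext f; exact map_one f
      map_mul' := fun a b => by funext f; exact map_mul f a b }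
  let ψ : N →* G ⧸ Z := (QuotientGroup.mk' Z).comp N.subtype
  have hψ : ∀ n, Φ n = 1 → ψ n = 1 := by
    intro n hn
    have h1 : n ∈ K0 N k := fun f => congrFun hn f
    refine (QuotientGroup.eq_one_iff (n : G)).2 ?_
    rw [hZ]
    exact ⟨n, h1, rfl⟩
  have h1 : ∀ e : E, ∃ n : N, ψ n = e := by
    intro e
    obtain ⟨n, hn, he⟩ := hEN e.2
    exact ⟨⟨n, hn⟩, he⟩
  choose c hc using h1
  have hfE : Finite E := hE.to_subtype
  have h2 : (Subgroup.closure (Set.range c)).map ψ = Subgroup.closure E := by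
    rw [MonoidHom.map_closure]
    congr 1
    ext x
    constructor
    · rintro ⟨_, ⟨e, rfl⟩, rfl⟩
      rw [hc]
      exact e.2
    · intro hx
      exact ⟨c ⟨x, hx⟩, ⟨⟨x, hx⟩, rfl⟩, hc _⟩
  rw [← h2]
  refine fin_map Φ ψ hψ _ ?_
  rw [MonoidHom.map_closure]
  have h3 : (Φ '' Set.range c).Finite := (Set.finite_range c).image _
  have h4 := Pool.Agent.Y430.SS.t_pow (Equiv.Perm (Fin k)) (N →* Equiv.Perm (Fin k))
    inferInstance h3.toFinset
  rwa [Set.Finite.coe_toFinset] at h4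

end Gd

open Gd in
theorem t_gd : S_GD := by
  intro C hC hM G _ N _ k s X _ hX hN
  obtain ⟨Y, hY⟩ : ∃ Y : Subgroup G, Y = (derivedSeries N s).map N.subtype := ⟨_, rfl⟩
  obtain ⟨Z, hZ⟩ : ∃ Z : Subgroup G, Z = (K0 N k).map N.subtype := ⟨_, rfl⟩
  have hYn : Y.Normal := by
    rw [hY]
    infer_instance
  have hZn : Z.Normal := by
    rw [hZ]
    infer_instance
  have hCY := der hC hM N hN s Y hY
  have hCZ := ker hC N hN k Z hZ
  have hXY : X ≤ Y := by
    intro x hx
    obtain ⟨n, rfl, h1, -⟩ := (hX x).1 hx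
    rw [hY]
    exact ⟨n, h1, rfl⟩
  have hXZ : X ≤ Z := by
    intro x hx
    obtain ⟨n, rfl, -, h1⟩ := (hX x).1 hx
    rw [hZ]
    exact ⟨n, h1, rfl⟩
  have hk : ∀ x ∈ X, ((QuotientGroup.mk' Y).prod (QuotientGroup.mk' Z)) x = 1 := by
    intro x hx
    exact Prod.ext ((QuotientGroup.eq_one_iff x).2 (hXY hx)) ((QuotientGroup.eq_one_iff x).2 (hXZ hx))
  refine hC.base.of_injective _ _ (QuotientGroup.lift X _ hk) ?_ (hC.base.prod _ _ hCY hCZ)
  rw [injective_iff_map_eq_one]
  intro a ha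
  obtain ⟨x, rfl⟩ := QuotientGroup.mk_surjective a
  have h1 : ((QuotientGroup.mk' Y).prod (QuotientGroup.mk' Z)) x = 1 := ha
  have h2 : x ∈ Y := (QuotientGroup.eq_one_iff x).1 (congrArg Prod.fst h1)
  have h3 : x ∈ Z := (QuotientGroup.eq_one_iff x).1 (congrArg Prod.snd h1)
  rw [hY] at h2
  rw [hZ] at h3
  obtain ⟨n, hn, hnx⟩ := h2
  obtain ⟨m, hm, hmx⟩ := h3
  have h4 : m = n := Subtype.ext (hmx.trans hnx.symm)
  subst h4
  exact (QuotientGroup.eq_one_iff x).2 ((hX x).2 ⟨m, hmx, hn, hm⟩)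

end Pool.Agent.N508.CS
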