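import Pool.Agent.N508.CS.Stm

/-!
# The homological step (helper265, project CS of helper508)
-/

set_option autoImplicit false

namespace Pool.Agent.N508.CS

open SimpleGraph
open Pool.Agent.Y110.FJ
open Pool.Agent.N509.TK
open Pool.Agent.N509.TX

theorem t_h : S_H := by
  intro C hC hM G V _ _ T A B N _ L _ W _ T' ι hd hH hQ
  refine hrelative hC hM (T := T') hd.tree hd.act L hQ hd.vert ?_
  intro q v u hvu
  refine ⟨↥(L ⊔ Subgroup.zpowers q) ⧸ L.subgroupOf (L ⊔ Subgroup.zpowers q), inferInstance,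
    QuotientGroup.mk' (L.subgroupOf (L ⊔ Subgroup.zpowers q)), ?_, ?_⟩
  · refine C_comm hM fun a b => ?_
    obtain ⟨x, rfl⟩ := QuotientGroup.mk_surjective a
    obtain ⟨y, rfl⟩ := QuotientGroup.mk_surjective b
    have hle : L ⊔ Subgroup.zpowers q ≤
        (Subgroup.zpowers (QuotientGroup.mk' L q)).comap (QuotientGroup.mk' L) := by
      refine sup_le (fun l hl => ?_) (Subgroup.zpowers_le.2 ?_)
      · rw [Subgroup.mem_comap]
        have h1 : QuotientGroup.mk' L l = 1 := (QuotientGroup.eq_one_iff l).2 hl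
        rw [h1]
        exact Subgroup.one_mem _
      · exact Subgroup.mem_zpowers _
    have hx := hle x.2
    have hy := hle y.2
    rw [Subgroup.mem_comap] at hx hy
    obtain ⟨i, hi⟩ := hx
    obtain ⟨j, hj⟩ := hy
    have hi' : QuotientGroup.mk' L q ^ i = QuotientGroup.mk' L x := hi
    have hj' : QuotientGroup.mk' L q ^ j = QuotientGroup.mk' L y := hj
    have hxy : QuotientGroup.mk' L ((x : G ⧸ N) * y) = QuotientGroup.mk' L ((y : G ⧸ N) * x) := by
      rw [map_mul, map_mul, ← hi', ← hj', ← zpow_add, ← zpow_add, add_comm]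
    rw [← QuotientGroup.mk_mul, ← QuotientGroup.mk_mul, QuotientGroup.eq, Subgroup.mem_subgroupOf]
    have h2 := QuotientGroup.eq.1 hxy
    exact h2
  · intro x hxv hxu hx
    rw [QuotientGroup.ker_mk'] at hx
    have hxv' : (x : G ⧸ N) • v = v := hxv
    have hxu' : (x : G ⧸ N) • u = u := hxu
    have hxL : (x : G ⧸ N) ∈ L := by
      have h1 : ⁅Sb (L.subgroupOf (L ⊔ Subgroup.zpowers q)) v,
          Sb (L.subgroupOf (L ⊔ Subgroup.zpowers q)) v⁆ ≤
          Sb (L.subgroupOf (L ⊔ Subgroup.zpowers q)) v :=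
        Subgroup.commutator_le.2 fun a ha b hb =>
          Subgroup.mul_mem _ (Subgroup.mul_mem _ (Subgroup.mul_mem _ ha hb) (Subgroup.inv_mem _ ha))
            (Subgroup.inv_mem _ hb)
      exact Subgroup.mem_subgroupOf.1 (mem_Sb.1 (h1 hx)).2
    have hmap : (Sb (L.subgroupOf (L ⊔ Subgroup.zpowers q)) v).map
        (L ⊔ Subgroup.zpowers q).subtype ≤ (B (ι v)).map (QuotientGroup.mk' N) := by
      rintro _ ⟨p, hp, rfl⟩
      obtain ⟨h1, h2⟩ := mem_Sb.1 hp
      obtain ⟨g, hg, hgp⟩ := (hd.stab v p).1 ⟨Subgroup.mem_subgroupOf.1 h2, h1⟩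
      exact ⟨g, hg, hgp⟩
    have hxc : (x : G ⧸ N) ∈ (⁅B (ι v), B (ι v)⁆).map (QuotientGroup.mk' N) := by
      rw [Subgroup.map_commutator]
      refine Subgroup.commutator_mono hmap hmap ?_
      rw [← Subgroup.map_commutator]
      exact Subgroup.mem_map_of_mem _ hx
    obtain ⟨c, hc, hcx⟩ := hxc
    have hcx' : (c : G ⧸ N) = x := hcx
    have hBB : ⁅B (ι v), B (ι v)⁆ ≤ B (ι v) :=
      Subgroup.commutator_le.2 fun a ha b hb =>
        Subgroup.mul_mem _ (Subgroup.mul_mem _ (Subgroup.mul_mem _ ha hb) (Subgroup.inv_mem _ ha))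
          (Subgroup.inv_mem _ hb)
    obtain ⟨g, hg, hgu, hgx⟩ := hd.edge u v hvu.symm x hxL hxu' hxv'
    have hker : c⁻¹ * g ∈ A (ι v) := by
      refine hd.ker v _ (hd.fix v _ (Subgroup.mul_mem _ (Subgroup.inv_mem _ (hBB hc)) hg)) ?_
      rw [QuotientGroup.mk_mul, QuotientGroup.mk_inv, hcx', hgx, inv_mul_cancel]
    have hgA : g ∈ A (ι v) := by
      refine hH (ι u) (ι v) (hd.adj u v hvu.symm) g hgu ?_
      have h1 : g = c * (c⁻¹ * g) := by group
      rw [h1]
      exact Subgroup.mul_mem _ (Subgroup.mem_sup_left hc) (Subgroup.mem_sup_right hker)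
    have h1 := hd.ker' v g hgA
    rw [hgx] at h1
    exact Subtype.ext h1

end Pool.Agent.N508.CS
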