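import Pool.Agent.N508.CS.StmA

/-!
# Commensurable torsion-free nilpotent vertex groups, relative version: proof

helper262, for project CSA of helper508; adapted from the proof of the absolute version by helper91
-/

set_option autoImplicit false
set_option linter.unusedSectionVars false

namespace Pool.Agent.N508.CS

open SimpleGraph
open Pool.Agent.Y110.FJ
open Pool.Agent.N509.TK
open Pool.Agent.N509.TX

namespace Ncr

section quot

variable {M : Type} [Group M]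

theorem tf_of (hn : Group.IsNilpotent M) (i : ℕ)
    (h : ∀ (y : M) (n : ℕ), 0 < n → y ^ n ∈ Subgroup.upperCentralSeries M i →
      y ∈ Subgroup.upperCentralSeries M i) : TfLn (M ⧸ Subgroup.upperCentralSeries M i) := by
  have h1 : Group.IsNilpotent (M ⧸ Subgroup.upperCentralSeries M i) := inferInstance
  refine ⟨fun x n hn hx => ?_, fun H _ => inferInstance⟩
  obtain ⟨y, rfl⟩ := QuotientGroup.mk_surjective x
  rw [← QuotientGroup.mk_pow, QuotientGroup.eq_one_iff] at hx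
  exact (QuotientGroup.eq_one_iff _).2 (h y n hn hx)

/-- commutators in the quotient -/
theorem comm_iff {N : Subgroup M} [N.Normal] (x y : M) :
    x * y * x⁻¹ * y⁻¹ ∈ N ↔ (y : M ⧸ N) * (x : M ⧸ N) = (x : M ⧸ N) * (y : M ⧸ N) := by
  rw [← QuotientGroup.eq_one_iff, QuotientGroup.mk_mul, QuotientGroup.mk_mul,
    QuotientGroup.mk_mul, QuotientGroup.mk_inv, QuotientGroup.mk_inv, mul_inv_eq_one,
    mul_inv_eq_iff_eq_mul, eq_comm]

/-- roots in the quotient -/
theorem ln_root (hLN : S_LN) {Q : Type} [Group Q] (hQ : TfLn Q) (x y : Q) (n : ℕ) (hn : 0 < n)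
    (h : y * x ^ n = x ^ n * y) : y * x = x * y := by
  by_cases hx : x = 1
  · rw [hx]
    simp
  refine hLN Q hQ y x x n n 1 1 hx (by exact_mod_cast hn.ne') one_ne_zero ?_ rfl
  rw [zpow_natCast, h, mul_inv_cancel_right]

theorem roots (hLN : S_LN) (hn : Group.IsNilpotent M)
    (htf : ∀ (x : M) (n : ℕ), 0 < n → x ^ n = 1 → x = 1) (i : ℕ) :
    ∀ (y : M) (n : ℕ), 0 < n → y ^ n ∈ Subgroup.upperCentralSeries M i →
      y ∈ Subgroup.upperCentralSeries M i := by
  induction i with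
  | zero =>
    intro y n h0 h
    rw [Subgroup.upperCentralSeries_zero, Subgroup.mem_bot] at h ⊢
    exact htf y n h0 h
  | succ i ih =>
    intro y n h0 h
    rw [Subgroup.mem_upperCentralSeries_succ_iff] at h ⊢
    intro g
    have h1 := (comm_iff (y ^ n) g).1 (h g)
    rw [QuotientGroup.mk_pow] at h1
    exact (comm_iff y g).2 (ln_root hLN (tf_of hn i ih) _ _ n h0 h1)

theorem tfln (hLN : S_LN) (hn : Group.IsNilpotent M)
    (htf : ∀ (x : M) (n : ℕ), 0 < n → x ^ n = 1 → x = 1) (i : ℕ) :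
    TfLn (M ⧸ Subgroup.upperCentralSeries M i) := tf_of hn i (roots hLN hn htf i)

end quot

section fam

variable {G V : Type} [Group G] [MulAction G V] (K : Subgroup G)

/-- the upper central series of the stabilizers in `K` -/
def U (i : ℕ) (v : V) : Subgroup G :=
  (Subgroup.upperCentralSeries ↥(K ⊓ MulAction.stabilizer G v) i).map
    (K ⊓ MulAction.stabilizer G v).subtype

variable {K}

theorem mem_U {i : ℕ} {v : V} {g : G} : g ∈ U K i v ↔
    ∃ h : g ∈ K ⊓ MulAction.stabilizer G v, (⟨g, h⟩ : ↥(K ⊓ MulAction.stabilizer G v)) ∈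
      Subgroup.upperCentralSeries ↥(K ⊓ MulAction.stabilizer G v) i := by
  unfold U
  rw [Subgroup.mem_map]
  constructor
  · rintro ⟨x, hx, rfl⟩
    exact ⟨x.2, hx⟩
  · rintro ⟨h, hx⟩
    exact ⟨_, hx, rfl⟩

theorem U_zero (v : V) : (U K 0 v : Subgroup G) = ⊥ := by
  unfold U
  rw [Subgroup.upperCentralSeries_zero, Subgroup.map_bot]

theorem mem_U_succ {i : ℕ} {v : V} {g : G} : g ∈ U K (i + 1) v ↔
    g ∈ K ⊓ MulAction.stabilizer G v ∧
      ∀ h : G, h ∈ K ⊓ MulAction.stabilizer G v → g * h * g⁻¹ * h⁻¹ ∈ U K i v := by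
  constructor
  · intro hg
    obtain ⟨h1, h2⟩ := mem_U.1 hg
    refine ⟨h1, fun h hh => ?_⟩
    have h3 := (Subgroup.mem_upperCentralSeries_succ_iff.1 h2) ⟨h, hh⟩
    exact ⟨_, h3, rfl⟩
  · rintro ⟨h1, h2⟩
    refine mem_U.2 ⟨h1, Subgroup.mem_upperCentralSeries_succ_iff.2 fun y => ?_⟩
    obtain ⟨h3, h4⟩ := mem_U.1 (h2 y y.2)
    exact h4

theorem U_mem {i : ℕ} {v : V} {g : G} (hg : g ∈ U K i v) :
    g ∈ K ⊓ MulAction.stabilizer G v := (mem_U.1 hg).1

theorem U_fix {i : ℕ} {v : V} {g : G} (hg : g ∈ U K i v) : g • v = v := (U_mem hg).2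

theorem U_eqv [hK : K.Normal] (i : ℕ) :
    ∀ (g : G) (v : V), ∀ a ∈ U K i v, g * a * g⁻¹ ∈ U K i (g • v) := by
  induction i with
  | zero =>
    intro g v a ha
    rw [U_zero, Subgroup.mem_bot] at ha ⊢
    rw [ha]
    group
  | succ i ih =>
    intro g v a ha
    obtain ⟨h1, h2⟩ := mem_U_succ.1 ha
    have h1' : a • v = v := h1.2
    refine mem_U_succ.2 ⟨⟨hK.conj_mem a h1.1 g, ?_⟩, fun h hh => ?_⟩
    · show (g * a * g⁻¹) • g • v = g • v
      rw [mul_smul, inv_smul_smul, mul_smul, h1']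
    · have hh' : h • g • v = g • v := hh.2
      have h3 : (g⁻¹ * h * g) • v = v := by
        rw [mul_smul, mul_smul, hh', inv_smul_smul]
      have h3' : g⁻¹ * h * g ∈ K := by
        have := hK.conj_mem h hh.1 g⁻¹
        rwa [inv_inv] at this
      have h4 := ih g v _ (h2 _ ⟨h3', h3⟩)
      have h5 : g * a * g⁻¹ * h * (g * a * g⁻¹)⁻¹ * h⁻¹ =
          g * (a * (g⁻¹ * h * g) * a⁻¹ * (g⁻¹ * h * g)⁻¹) * g⁻¹ := by group
      rw [h5]
      exact h4

theorem U_le (i : ℕ) (v : V) : (U K i v : Subgroup G) ≤ U K (i + 1) v :=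
  Subgroup.map_mono (Subgroup.upperCentralSeries_mono _ (Nat.le_succ i))

theorem U_comm (i : ℕ) (v : V) :
    ⁅(U K (i + 1) v : Subgroup G), (U K (i + 1) v : Subgroup G)⁆ ≤ U K i v := by
  rw [Subgroup.commutator_le]
  intro g hg h hh
  exact (mem_U_succ.1 hg).2 h (U_mem hh)

theorem U_cmp (hLN : S_LN) {T : SimpleGraph V}
    (hcom : ∀ u v : V, T.Adj u v →
      (K ⊓ MulAction.stabilizer G u).relIndex (K ⊓ MulAction.stabilizer G v) ≠ 0)
    (htf : ∀ (v : V), ∀ g ∈ K, g • v = v → IsOfFinOrder g → g = 1)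
    (hn : ∀ v : V, Group.IsNilpotent ↥(K ⊓ MulAction.stabilizer G v)) (i : ℕ) :
    ∀ u v, T.Adj u v → ∀ a : G, a ∈ U K i v → a • u = u → a ∈ U K i u := by
  induction i with
  | zero =>
    intro u v _ a ha _
    rw [U_zero, Subgroup.mem_bot] at ha ⊢
    exact ha
  | succ i ih =>
    intro u v huv a ha hau
    have hau' : a ∈ K ⊓ MulAction.stabilizer G u := ⟨(U_mem ha).1, hau⟩
    refine mem_U_succ.2 ⟨hau', fun h hh => ?_⟩
    obtain ⟨m, hm0, -, hm⟩ := Subgroup.exists_pow_mem_of_relIndex_ne_zero (hcom v u huv.symm)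
      (a := h) hh
    have h2 : a * h ^ m * a⁻¹ * (h ^ m)⁻¹ ∈ U K i v := (mem_U_succ.1 ha).2 _ hm.1
    have hhm : h ^ m • u = u := hm.2.2
    have h3 : (a * h ^ m * a⁻¹ * (h ^ m)⁻¹) • u = u := by
      have e1 : a⁻¹ • u = u := by rw [inv_smul_eq_iff, hau]
      have e2 : (h ^ m)⁻¹ • u = u := by rw [inv_smul_eq_iff, hhm]
      rw [mul_smul, mul_smul, mul_smul, e2, e1, hhm, hau]
    obtain ⟨h4, h5⟩ := mem_U.1 (ih u v huv _ h2 h3)
    -- in the stabilizer of `u`
    have htf' : ∀ (x : ↥(K ⊓ MulAction.stabilizer G u)) (n : ℕ), 0 < n → x ^ n = 1 → x = 1 := by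
      intro x n h0 hx
      have := htf u x x.2.1 x.2.2 (isOfFinOrder_iff_pow_eq_one.2 ⟨n, h0, by
        have := congrArg Subtype.val hx
        simpa using this⟩)
      exact Subtype.ext this
    have hQ := tfln hLN (hn u) htf' i
    have h6 := (comm_iff (N := Subgroup.upperCentralSeries ↥(K ⊓ MulAction.stabilizer G u) i)
      (⟨a, hau'⟩ : ↥(K ⊓ MulAction.stabilizer G u))
      ((⟨h, hh⟩ : ↥(K ⊓ MulAction.stabilizer G u)) ^ m)).1 h5
    rw [QuotientGroup.mk_pow] at h6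
    have h7 := ln_root hLN hQ _ _ m hm0 h6.symm
    have h8 := (comm_iff (N := Subgroup.upperCentralSeries ↥(K ⊓ MulAction.stabilizer G u) i)
      (⟨a, hau'⟩ : ↥(K ⊓ MulAction.stabilizer G u))
      (⟨h, hh⟩ : ↥(K ⊓ MulAction.stabilizer G u))).2 h7.symm
    exact ⟨_, h8, rfl⟩

end fam

end Ncr

theorem t_ncr : S_MAIN → S_ABEL → S_LN → S_NCR := by
  intro hM hA hLN C hC hmet G V _ _ T hT hact K hK hCK hcom htf c hc
  have hn : ∀ v : V, Group.IsNilpotent ↥(K ⊓ MulAction.stabilizer G v) := fun v => ⟨⟨c, hc v⟩⟩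
  have hfam : ∀ i, CFam T (Ncr.U K i : V → Subgroup G) := fun i =>
    ⟨fun v a ha => Ncr.U_fix ha, Ncr.U_eqv i,
      fun u v huv a ha hau => Ncr.U_cmp hLN hcom htf hn i u v huv a ha hau⟩
  refine hM C hC hmet G V T hT hact K hCK c (Ncr.U K) (fun i _ => hfam i) Ncr.U_zero ?_ ?_
  · intro v
    unfold Ncr.U
    rw [hc v]
    ext x
    rw [Subgroup.mem_map, mem_Sb]
    constructor
    · rintro ⟨y, -, rfl⟩
      exact ⟨y.2.2, y.2.1⟩
    · rintro ⟨h1, h2⟩
      exact ⟨⟨x, ⟨h2, h1⟩⟩, Subgroup.mem_top _, rfl⟩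
  · intro i _
    obtain ⟨h1, h2⟩ := hA C hC hmet G V T (Ncr.U K i) (Ncr.U K (i + 1)) (hfam i) (hfam (i + 1))
      (Ncr.U_le i) (Ncr.U_comm i)
    exact ⟨Ncr.U_le i, h1, Or.inl h2⟩

end Pool.Agent.N508.CS
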