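import Pool.Agent.N508.CS.StmE

/-!
# Kernels which act on trees: the theorem from the free quotients (helper953)
-/

set_option autoImplicit false

namespace Pool.Agent.N508.CS

open SimpleGraph
open Pool.Agent.Y110.FJ
open Pool.Agent.R941.FJ (C_equiv)
open Pool.Agent.R684.FP (FbC free_ext)

/-- the group generated by the groups `A i v` is invariant under conjugation with the elements of
`G` -/
theorem ktr_conj {m : ℕ} {G V : Type} [Group G] {N : Subgroup G} [N.Normal] [MulAction N V]
    {T : SimpleGraph V} {A : ℕ → V → Subgroup N} (hS : KSer m N T A) {i : ℕ} (hi : i ≤ m) (g : G)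
    (x : N) (hx : x ∈ ⨆ v, A i v) : MulAut.conjNormal g x ∈ ⨆ v, A i v := by
  have h1 : (⨆ v, A i v) ≤ (⨆ v, A i v).comap (MulAut.conjNormal g : MulAut N).toMonoidHom := by
    refine iSup_le fun v a ha => ?_
    obtain ⟨w, b, hb, hbe⟩ := hS.inv i hi g v a ha
    have h2 : (MulAut.conjNormal g : MulAut N) a = b := by
      apply Subtype.ext
      rw [MulAut.conjNormal_apply, hbe]
    rw [Subgroup.mem_comap]
    change (MulAut.conjNormal g : MulAut N) a ∈ ⨆ v, A i v
    rw [h2]
    exact (le_iSup (fun v => A i v) w) hb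
  exact h1 hx

theorem ktr_nP {m : ℕ} {G V : Type} [Group G] {N : Subgroup G} [N.Normal] [MulAction N V]
    {T : SimpleGraph V} {A : ℕ → V → Subgroup N} (hS : KSer m N T A) {i : ℕ} (hi : i ≤ m) :
    (⨆ v, A i v).Normal := by
  refine ⟨fun x hx n => ?_⟩
  have h1 := ktr_conj hS hi (n : G) x hx
  have h2 : (MulAut.conjNormal (n : G) : MulAut N) x = n * x * n⁻¹ := by
    apply Subtype.ext
    rw [MulAut.conjNormal_apply]
    rfl
  rwa [h2] at h1

theorem ktr_nX {m : ℕ} {G V : Type} [Group G] {N : Subgroup G} [N.Normal] [MulAction N V]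
    {T : SimpleGraph V} {A : ℕ → V → Subgroup N} (hS : KSer m N T A) {i : ℕ} (hi : i ≤ m) :
    ((⨆ v, A i v).map N.subtype).Normal := by
  refine ⟨fun x hx g => ?_⟩
  obtain ⟨y, hy, rfl⟩ := hx
  refine ⟨MulAut.conjNormal g y, ktr_conj hS hi g y hy, ?_⟩
  rw [Subgroup.subtype_apply, Subgroup.subtype_apply, MulAut.conjNormal_apply]

/-- the last quotient -/
theorem ktr_top (tfr : S_TFR) {C : ∀ (G : Type) [Group G], Prop} (hC : ClosedE C) (hF : FbC C)
    {G V : Type} [Group G] (N : Subgroup G) [N.Normal] [MulAction N V] (T : SimpleGraph V)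
    (hT : T.IsTree) (hadj : ∀ (g : N) (u v : V), T.Adj u v → T.Adj (g • u) (g • v))
    (hinv : ∀ (g : N) (u v : V), T.Adj u v → ¬ (g • u = v ∧ g • v = u))
    (P : Subgroup N) (hP : P = ⨆ v : V, MulAction.stabilizer N v) (X : Subgroup G) [X.Normal]
    (hX : X = P.map N.subtype) (hQ : C (G ⧸ N)) : C (G ⧸ X) := by
  have hXN : X ≤ N := by
    rw [hX]
    exact Subgroup.map_subtype_le P
  let φ : N →* N.map (QuotientGroup.mk' X) :=
    ((QuotientGroup.mk' X).comp N.subtype).codRestrict _ fun x => ⟨x, x.2, rfl⟩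
  have hφ : Function.Surjective φ := by
    rintro ⟨_, x, hx, rfl⟩
    exact ⟨⟨x, hx⟩, rfl⟩
  have hker : φ.ker = ⨆ v : V, MulAction.stabilizer N v := by
    rw [← hP]
    ext x
    rw [MonoidHom.mem_ker, Subtype.ext_iff]
    change (QuotientGroup.mk' X) (x : G) = 1 ↔ x ∈ P
    rw [← MonoidHom.mem_ker, QuotientGroup.ker_mk', hX]
    constructor
    · rintro ⟨y, hy, hyx⟩
      have h1 : y = x := Subtype.ext hyx
      rwa [← h1]
    · intro hx
      exact ⟨x, hx, rfl⟩
  haveI hfree : IsFreeGroup (N ⧸ φ.ker) := tfr N V T hT hadj hinv φ.ker hker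
  haveI : IsFreeGroup (N.map (QuotientGroup.mk' X)) :=
    IsFreeGroup.ofMulEquiv (QuotientGroup.quotientKerEquivOfSurjective φ hφ)
  haveI : (N.map (QuotientGroup.mk' X)).Normal :=
    Subgroup.Normal.map inferInstance _ (QuotientGroup.mk'_surjective X)
  exact free_ext hC hF (N.map (QuotientGroup.mk' X))
    (C_equiv hC.base (QuotientGroup.quotientQuotientEquivQuotient X N hXN) hQ)

theorem t_ktr : S_TFR → S_AFR → S_PST → S_KTR := by
  intro tfr afr pst C hC hmet hF G V _ N _ _ T hT hadj hinv m A hS hQ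
  have key : ∀ k ≤ m, ∀ (X : Subgroup G) [X.Normal], X = (⨆ v, A (m - k) v).map N.subtype →
      C (G ⧸ X) := by
    intro k
    induction k with
    | zero =>
      intro _ X _ hX
      rw [Nat.sub_zero] at hX
      refine ktr_top tfr hC hF N T hT hadj hinv (⨆ v, A m v) ?_ X hX hQ
      exact iSup_congr fun v => hS.top v
    | succ k ih =>
      intro hk X _ hX
      have h1 : m - k = m - (k + 1) + 1 := by omega
      obtain ⟨i, hi⟩ : ∃ i, i = m - (k + 1) := ⟨_, rfl⟩
      rw [← hi] at hX h1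
      have him : i < m := by omega
      haveI := ktr_nP hS him.le
      haveI := ktr_nX hS (i := i + 1) him
      refine pst C hC hmet hF G N (⨆ v, A i v) (⨆ v, A (i + 1) v) X
        ((⨆ v, A (i + 1) v).map N.subtype) hX rfl (iSup_mono fun v => hS.mono i him v) ?_ ?_
      · exact afr N V T hT hadj (A i) (A (i + 1)) (hS.fam i him.le) (hS.fam (i + 1) him)
          (hS.mono i him) (hS.abel i him) _ _ rfl rfl
      · exact ih (by omega) _ (by rw [h1])
  have h0 := key m le_rfl ⊥ (by
    rw [Nat.sub_self]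
    have h1 : (⨆ v, A 0 v) = ⊥ := by
      rw [iSup_congr hS.bot]
      exact iSup_bot
    rw [h1, Subgroup.map_bot])
  refine hC.base.of_injective G (G ⧸ (⊥ : Subgroup G)) (QuotientGroup.mk' ⊥) ?_ h0
  rw [← MonoidHom.ker_eq_bot_iff, QuotientGroup.ker_mk']

end Pool.Agent.N508.CS
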