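import Pool.Agent.N508.CS.StmE
import Pool.Agent.N509.TK.Hol

/-!
# Project CSE, part TFR: a group acting on a tree modulo its vertex stabilizers is free

(project of helper508; this part by helper170)
-/

set_option autoImplicit false

namespace Pool.Agent.N508.CS

open SimpleGraph
open Pool.Agent.N509.TK
open Pool.Agent.N24.TR (gam gam_map gam_mul gam_self gam_adj gam_eq sy sy_mul wd wp_wd wd_nil XX kk
  kk_eq Rl)

section tfr

variable {H V : Type} [Group H] [MulAction H V] {T : SimpleGraph V}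

theorem tfr_sup : (⨆ v : V, Sb (⊤ : Subgroup H) v) = ⨆ v : V, MulAction.stabilizer H v := by
  refine iSup_congr fun v => ?_
  unfold Sb
  rw [inf_top_eq]

theorem tfr_inv (a : H) (u v : V) :
    sy (kk (⊤ : Subgroup H)) (a • u) (a • v) = sy (kk (⊤ : Subgroup H)) u v := by
  have h1 : ∀ u v : V, kk (⊤ : Subgroup H) (a • u) (a • v) = kk (⊤ : Subgroup H) u v := fun u v =>
    Quotient.sound ⟨a⁻¹, Subgroup.mem_top _, by
      show (a⁻¹ • a • u, a⁻¹ • a • v) = (u, v)
      rw [inv_smul_smul, inv_smul_smul]⟩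
  unfold sy
  rw [h1, h1]

theorem tfr_gam (hT : T.IsTree) (hact : ∀ (g : H) (u v : V), T.Adj u v → T.Adj (g • u) (g • v))
    (a : H) (u v : V) : gam hT (sy (kk (⊤ : Subgroup H))) (a • u) (a • v) =
      gam hT (sy (kk (⊤ : Subgroup H))) u v :=
  gam_map hT hact _ (fun u v _ => sy_mul _ u v) a (MonoidHom.id _)
    (fun u v => (tfr_inv a u v).symm) u v

/-- the homomorphism to the free group -/
noncomputable def tfr_hom (hT : T.IsTree)
    (hact : ∀ (g : H) (u v : V), T.Adj u v → T.Adj (g • u) (g • v)) (o : V) :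
    H →* FreeGroup (XX (⊤ : Subgroup H) V) where
  toFun h := gam hT (sy (kk (⊤ : Subgroup H))) o (h • o)
  map_one' := by
    rw [one_smul, gam_self hT _ (fun u v _ => sy_mul _ u v)]
  map_mul' a b := by
    rw [mul_smul, ← gam_mul hT _ (fun u v _ => sy_mul _ u v) o (a • o), tfr_gam hT hact a]

theorem tfr_mem (hT : T.IsTree)
    (hact : ∀ (g : H) (u v : V), T.Adj u v → T.Adj (g • u) (g • v))
    {h : H} (hh : h ∈ ⨆ v : V, MulAction.stabilizer H v) (u : V) :
    gam hT (sy (kk (⊤ : Subgroup H))) u (h • u) = 1 := by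
  rw [← tfr_sup] at hh
  exact hol hT hact (sy (kk (⊤ : Subgroup H))) (fun u v _ => sy_mul _ u v) (Sb ⊤)
    (fun v r hr => hr.1) (fun a _ u v => tfr_inv a u v) h hh u

/-- **TFR** -/
theorem t_tfr : S_TFR := by
  classical
  intro H V _ _ T hT hact hni P _ hP
  obtain ⟨S, hS⟩ := Tv.exists (R := Sb (⊤ : Subgroup H)) hT
  have hq : Tq T (⨆ v : V, Sb (⊤ : Subgroup H) v) S := Tq.of_Sb hT hact ⊤ hS
  rw [tfr_sup, ← hP] at hq
  obtain ⟨o, ho⟩ := hS.ne
  obtain ⟨j, hj⟩ : ∃ j : H →* FreeGroup (XX (⊤ : Subgroup H) V), j = tfr_hom hT hact o := ⟨_, rfl⟩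
  have hj' : ∀ h, j h = gam hT (sy (kk (⊤ : Subgroup H))) o (h • o) := fun h => by rw [hj]; rfl
  have hker : ∀ h, j h = 1 → h ∈ P := by
    intro h h1
    rw [hj'] at h1
    obtain ⟨p, hp, s, hs, h2⟩ := hq.cover (h • o)
    have h3 : gam hT (sy (kk (⊤ : Subgroup H))) o s = 1 := by
      rw [h2, ← gam_mul hT _ (fun u v _ => sy_mul _ u v) o s,
        tfr_mem hT hact (hP ▸ hp) s, mul_one] at h1
      exact h1
    obtain ⟨q, hq'⟩ := hS.cvx o ho s hs
    have hred : FreeGroup.IsReduced (wd (kk (⊤ : Subgroup H)) q.bypass) := by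
      refine wd_reduced' (kk ⊤) S ?_ ?_ q.bypass q.bypass_isPath
        (fun z hz => hq' z (q.support_bypass_subset_support hz))
      · intro u _ v _ huv h2
        obtain ⟨n, _, h3, h4⟩ := kk_eq ⊤ h2
        exact hni n u v huv ⟨h3, h4⟩
      · intro v hv u hu w hw h3 h4 h5
        obtain ⟨n, _, h6, h7⟩ := kk_eq ⊤ h5
        exact hS.lc v hv u hu w hw h3 h4 n (mem_Sb.2 ⟨h6, Subgroup.mem_top _⟩) h7
    rw [gam_eq hT _ (fun u v _ => sy_mul _ u v) q.bypass, wp_wd] at h3
    have h4 : wd (kk (⊤ : Subgroup H)) q.bypass = [] := by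
      have h5 : (FreeGroup.mk (wd (kk (⊤ : Subgroup H)) q.bypass)).toWord =
          wd (kk (⊤ : Subgroup H)) q.bypass := by
        rw [FreeGroup.toWord_mk]
        exact hred.reduce_eq
      rw [← h5, h3]
      rfl
    have h5 : o = s := wd_nil (kk ⊤) q.bypass h4
    have h6 : p⁻¹ * h ∈ MulAction.stabilizer H o := by
      rw [MulAction.mem_stabilizer_iff, mul_smul, h2, ← h5, inv_smul_smul]
    have h7 : p⁻¹ * h ∈ P := by
      rw [hP]
      exact le_iSup (fun v : V => MulAction.stabilizer H v) o h6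
    have h8 := P.mul_mem hp h7
    rwa [mul_inv_cancel_left] at h8
  have hle : ∀ h ∈ P, j h = 1 := by
    intro h hh
    rw [hj']
    exact tfr_mem hT hact (hP ▸ hh) o
  obtain ⟨f, hf⟩ : ∃ f : H ⧸ P →* FreeGroup (XX (⊤ : Subgroup H) V),
      f = QuotientGroup.lift P j hle := ⟨_, rfl⟩
  have hinj : Function.Injective f := by
    rw [injective_iff_map_eq_one]
    intro a ha
    obtain ⟨h, rfl⟩ := QuotientGroup.mk_surjective a
    rw [hf] at ha
    exact (QuotientGroup.eq_one_iff h).2 (hker h ha)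
  exact IsFreeGroup.ofMulEquiv (MonoidHom.ofInjective hinj).symm

end tfr

end Pool.Agent.N508.CS
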