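import Pool.Agent.N508.CS.Cyf

/-!
# Linked edges

Owner helper508.
-/

set_option autoImplicit false

namespace Pool.Agent.N508.CS

open SimpleGraph
open Pool.Agent.Y110.FJ
open Pool.Agent.N509.TK
open Pool.Agent.N509.TX

/-- the equivalence relation on the neighbours of `w` generated by the pairs of neighbours `a`, `b` such
that more than `n` elements fix `w`, `a` and `b` -/
def Lnk (n : ℕ) (G : Type) {V : Type} [Group G] [MulAction G V] (T : SimpleGraph V) (w a b : V) :
    Prop :=
  Relation.EqvGen (fun a b => T.Adj w a ∧ T.Adj w b ∧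
    ∃ F : Finset G, (∀ g ∈ F, g • w = w ∧ g • a = a ∧ g • b = b) ∧ n < F.card) a b

theorem Lnk.lr (n : ℕ) {G V : Type} [Group G] [MulAction G V] {T : SimpleGraph V}
    (hact : ∀ (g : G) (u v : V), T.Adj u v → T.Adj (g • u) (g • v)) : LR G T (Lnk n G T) := by
  classical
  refine ⟨fun w a _ => Relation.EqvGen.refl a, fun w a b _ _ h => Relation.EqvGen.symm _ _ h,
    fun w a b c _ _ _ h h' => Relation.EqvGen.trans _ _ _ h h', ?_⟩
  intro g w a b h
  induction h with
  | refl x => exact Relation.EqvGen.refl _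
  | symm x y _ ih => exact Relation.EqvGen.symm _ _ ih
  | trans x y z _ _ ih1 ih2 => exact Relation.EqvGen.trans _ _ _ ih1 ih2
  | rel x y h =>
    obtain ⟨h1, h2, F, hF, hn⟩ := h
    refine Relation.EqvGen.rel _ _ ⟨hact g w x h1, hact g w y h2,
      F.image (fun x => g * x * g⁻¹), ?_, ?_⟩
    · intro k hk
      obtain ⟨l, hl, rfl⟩ := Finset.mem_image.1 hk
      obtain ⟨h3, h4, h5⟩ := hF l hl
      refine ⟨?_, ?_, ?_⟩
      · rw [mul_smul, mul_smul, inv_smul_smul, h3]
      · rw [mul_smul, mul_smul, inv_smul_smul, h4]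
      · rw [mul_smul, mul_smul, inv_smul_smul, h5]
    · rwa [Finset.card_image_of_injective _ (by
        intro x y hxy
        exact mul_left_cancel (mul_right_cancel hxy))]

/-- **reduction to linked cylinders** -/
theorem t_lk (C : ∀ (G : Type) [Group G], Prop) (hC : ClosedE C) (hA : AcylF C)
    {G V : Type} [Group G] [MulAction G V] (T : SimpleGraph V) (hT : T.IsTree)
    (hact : ∀ (g : G) (u v : V), T.Adj u v → T.Adj (g • u) (g • v))
    (hV : ∀ v : V, C ↥(MulAction.stabilizer G v)) (n : ℕ)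
    (hY : ∀ (y : Cyl T (Lnk n G T)) (K : Subgroup G), (∀ g ∈ K, Pres hact y g) → C K) : C G := by
  refine t_cyf C hC hA n G V T (Lnk n G T) hT hact (Lnk.lr n hact) ?_ hV hY
  intro w a b ha hb h F hF
  by_contra hcon
  exact h (Relation.EqvGen.rel _ _ ⟨ha, hb, F, hF, not_le.1 hcon⟩)

end Pool.Agent.N508.CS
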