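import Pool.Agent.N508.CS.Stm2

/-!
# Torsion-free locally nilpotent groups: unique roots and trivial moduli

Project CS, second part (helper508); this file by helper164. The isolated centre is after helper189.
-/

set_option autoImplicit false

namespace Pool.Agent.N508.CS.LN

open Subgroup

universe u

/-- torsion-free -/
def Tf (G : Type u) [Group G] : Prop := ∀ (x : G) (n : ℕ), 0 < n → x ^ n = 1 → x = 1

/-- the centre of a torsion-free nilpotent group is isolated (after helper189) -/
theorem center_isol {Q : Type u} [Group Q] (hn : Group.IsNilpotent Q) (htf : Tf Q)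
    (x : Q) (n : ℕ) (h0 : 0 < n) (hx : x ^ n ∈ center Q) : x ∈ center Q := by
  obtain ⟨c, hc⟩ := hn.nilpotent'
  have key : ∀ i : ℕ, ∀ z ∈ Subgroup.upperCentralSeries Q i, x * z = z * x := by
    intro i
    induction i with
    | zero =>
      intro z hz
      rw [Subgroup.upperCentralSeries_zero, Subgroup.mem_bot] at hz
      rw [hz, mul_one, one_mul]
    | succ i ih =>
      intro z hz
      have hz1 : z * x * z⁻¹ * x⁻¹ ∈ Subgroup.upperCentralSeries Q i :=
        Subgroup.mem_upperCentralSeries_succ_iff.1 hz x
      have hu : x * (z * x * z⁻¹ * x⁻¹) = (z * x * z⁻¹ * x⁻¹) * x := ih _ hz1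
      set u := z * x * z⁻¹ * x⁻¹ with hudef
      have h1 : z * x = u * x * z := by rw [hudef]; group
      have h2 : ∀ k : ℕ, z * x ^ k = u ^ k * x ^ k * z := by
        intro k
        induction k with
        | zero => simp
        | succ k ihk =>
          have h3 : Commute (x ^ k) u := (show Commute x u from hu).pow_left k
          calc z * x ^ (k + 1) = (z * x ^ k) * x := by rw [pow_succ, mul_assoc]
            _ = u ^ k * x ^ k * (z * x) := by rw [ihk]; group
            _ = u ^ k * (x ^ k * u) * x * z := by rw [h1]; group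
            _ = u ^ k * (u * x ^ k) * x * z := by rw [h3.eq]
            _ = u ^ (k + 1) * x ^ (k + 1) * z := by rw [pow_succ, pow_succ]; group
      have h4 := h2 n
      have h5 : z * x ^ n = x ^ n * z := Subgroup.mem_center_iff.1 hx z
      rw [h5, mul_assoc] at h4
      have h6 : u ^ n = 1 := by
        have h7 : 1 * (x ^ n * z) = u ^ n * (x ^ n * z) := by rw [one_mul]; exact h4
        exact (mul_right_cancel h7).symm
      have h8 := htf u n h0 h6
      rw [h8, one_mul] at h1
      exact h1.symm
  rw [Subgroup.mem_center_iff]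
  intro z
  exact (key c z (by rw [hc]; trivial)).symm

theorem tf_sub {G : Type u} [Group G] (h : Tf G) (H : Subgroup G) : Tf H := by
  intro x n hn hx
  apply Subtype.ext
  exact h x n hn (by have := congrArg Subtype.val hx; simpa using this)

theorem zpow_one {G : Type u} [Group G] (h : Tf G) {x : G} {n : ℤ} (hn : n ≠ 0)
    (hx : x ^ n = 1) : x = 1 := by
  apply h x n.natAbs (Int.natAbs_pos.2 hn)
  rcases Int.natAbs_eq n with h1 | h1
  · rw [h1, zpow_natCast] at hx
    exact hx
  · rw [h1, zpow_neg, zpow_natCast, inv_eq_one] at hx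
    exact hx

/-- trivial moduli -/
theorem modulus (G : Type u) [Group G] [Group.IsNilpotent G] : Tf G → ∀ (g x : G) (m k : ℤ), x ≠ 1 →
    g * x ^ m * g⁻¹ = x ^ k → m = k := by
  refine Group.nilpotent_center_quotient_ind
    (P := fun G [Group G] [Group.IsNilpotent G] => Tf G → ∀ (g x : G) (m k : ℤ), x ≠ 1 →
      g * x ^ m * g⁻¹ = x ^ k → m = k) G ?_ ?_
  · intro G _ _ _ g x m k hx
    exact absurd (Subsingleton.elim x 1) hx
  · intro G _ _ ih htf g x m k hx h
    by_cases hc : x ∈ center G
    · have h1 : g * x ^ m = x ^ m * g := Subgroup.mem_center_iff.1 (zpow_mem hc m) g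
      rw [h1, mul_inv_cancel_right] at h
      by_contra hne
      apply hx
      apply zpow_one htf (n := m - k) (by omega)
      rw [zpow_sub, h, mul_inv_cancel]
    · refine ih ?_ (g : G ⧸ center G) (x : G ⧸ center G) m k ?_ ?_
      · intro y n hn hy
        obtain ⟨y, rfl⟩ := QuotientGroup.mk_surjective y
        have h2 : y ^ n ∈ center G := by
          rw [← QuotientGroup.eq_one_iff, QuotientGroup.mk_pow]
          exact hy
        exact (QuotientGroup.eq_one_iff y).2 (center_isol inferInstance htf y n hn h2)
      · intro h2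
        exact hc ((QuotientGroup.eq_one_iff x).1 h2)
      · have h3 := congrArg (QuotientGroup.mk (s := center G)) h
        simpa using h3


theorem comm_of_pow {Q : Type u} [Group Q] [Group.IsNilpotent Q] (htf : Tf Q) {u v : Q} {n : ℕ}
    (hn : 0 < n) (h : v * u ^ n = u ^ n * v) : v * u = u * v := by
  set K : Subgroup Q := closure {u, v} with hK
  have hu : u ∈ K := subset_closure (by simp)
  have hv : v ∈ K := subset_closure (by simp)
  have hle : K ≤ centralizer {u ^ n} := by
    rw [hK, closure_le]
    intro w hw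
    rw [SetLike.mem_coe, mem_centralizer_singleton_iff]
    rcases hw with rfl | hw
    · exact ((Commute.refl w).pow_right n).eq
    · rw [Set.mem_singleton_iff] at hw
      subst hw
      exact h
  have h1 : (⟨u, hu⟩ : K) ^ n ∈ center K := by
    rw [mem_center_iff]
    intro w
    apply Subtype.ext
    exact mem_centralizer_singleton_iff.1 (hle w.2)
  have h2 := center_isol (Q := K) inferInstance (tf_sub htf K) ⟨u, hu⟩ n hn h1
  exact congrArg Subtype.val (mem_center_iff.1 h2 ⟨v, hv⟩)

theorem comm_of_zpow {Q : Type u} [Group Q] [Group.IsNilpotent Q] (htf : Tf Q) {u v : Q} {n : ℤ}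
    (hn : n ≠ 0) (h : v * u ^ n = u ^ n * v) : v * u = u * v := by
  apply comm_of_pow htf (n := n.natAbs) (Int.natAbs_pos.2 hn)
  rcases Int.natAbs_eq n with h1 | h1
  · rw [h1, zpow_natCast] at h
    exact h
  · rw [h1, zpow_neg, zpow_natCast] at h
    exact ((Commute.inv_right_iff (a := v) (b := u ^ n.natAbs)).1 h).eq

/-- unique roots -/
theorem root_unique {Q : Type u} [Group Q] [Group.IsNilpotent Q] (htf : Tf Q) {u v : Q} {n : ℤ}
    (hn : n ≠ 0) (h : u ^ n = v ^ n) : u = v := by
  have h1 : v * u = u * v := by
    apply comm_of_zpow htf hn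
    rw [h]
    exact ((Commute.refl v).zpow_right n).eq
  have h2 : Commute u v := h1.symm
  have h3 : (u * v⁻¹) ^ n = 1 := by
    rw [h2.inv_right.mul_zpow, inv_zpow, h, mul_inv_cancel]
  exact mul_inv_eq_one.1 (zpow_one htf hn h3)

theorem nil_main {Q : Type u} [Group Q] [Group.IsNilpotent Q] (htf : Tf Q) (g x y : Q)
    (m k a b : ℤ) (hx : x ≠ 1) (hm : m ≠ 0) (ha : a ≠ 0) (h : g * x ^ m * g⁻¹ = x ^ k)
    (hy : y ^ a = x ^ b) : g * y = y * g := by
  have hmk := modulus Q htf g x m k hx h
  subst hmk
  have h1 : g * x * g⁻¹ = x := by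
    apply root_unique htf hm
    rw [conj_zpow, h]
  have h2 : g * y * g⁻¹ = y := by
    apply root_unique htf ha
    rw [conj_zpow, hy, ← conj_zpow, h1]
  rw [mul_inv_eq_iff_eq_mul] at h2
  exact h2

end Pool.Agent.N508.CS.LN

namespace Pool.Agent.N508.CS

open Subgroup

/-- unique roots and trivial moduli in locally nilpotent torsion-free groups -/
theorem t_ln : S_LN := by
  intro M _ hM g x y m k a b hx hm ha h hy
  set H : Subgroup M := closure {g, x, y} with hH
  have hg : g ∈ H := subset_closure (by simp)
  have hx' : x ∈ H := subset_closure (by simp)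
  have hy' : y ∈ H := subset_closure (by simp)
  have hfg : H.FG := by
    classical
    refine ⟨{g, x, y}, ?_⟩
    rw [hH]
    simp only [Finset.coe_insert, Finset.coe_singleton]
  have hn : Group.IsNilpotent H := hM.2 H hfg
  have htf : LN.Tf H := LN.tf_sub (fun x n hn hx => hM.1 x n hn hx) H
  have h1 := LN.nil_main htf ⟨g, hg⟩ ⟨x, hx'⟩ ⟨y, hy'⟩ m k a b
    (fun h => hx (congrArg Subtype.val h)) hm ha
    (Subtype.ext (by simpa using h)) (Subtype.ext (by simpa using hy))
  exact congrArg Subtype.val h1

end Pool.Agent.N508.CS
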