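import Pool.Agent.N508.CS.StmA

/-!
# The theorem on edge groups which are equal or have small intersection, from the cylinders
(by helper521, after `t_cc` by helper607 and `t_ca` by helper769)
-/

set_option autoImplicit false

namespace Pool.Agent.N508.CS

open SimpleGraph
open Pool.Agent.Y110.FJ
open Pool.Agent.N509.TK
open Pool.Agent.N509.TX

namespace NeP

/-- the conjugates of the stabilizer of an edge -/
theorem Ed_conj {G V : Type} [Group G] [MulAction G V] (g : G) (w a : V) :
    Ed G (g • w) (g • a) = (Ed G w a).map (MulAut.conj g).toMonoidHom := by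
  unfold Ed
  rw [MulAction.stabilizer_smul_eq_stabilizer_map_conj,
    MulAction.stabilizer_smul_eq_stabilizer_map_conj,
    Subgroup.map_inf _ _ _ (MulAut.conj g).injective]

/-- equality of the edge stabilizers is a relation on the links -/
theorem LR_eq (G : Type) {V : Type} [Group G] [MulAction G V] (T : SimpleGraph V) :
    LR G T (fun w a b => Ed G w a = Ed G w b) where
  refl := fun _ _ _ => rfl
  symm := fun _ _ _ _ _ h => h.symm
  trans := fun _ _ _ _ _ _ _ h h' => h.trans h'
  eqv := fun g w a b h => by
    show Ed G (g • w) (g • a) = Ed G (g • w) (g • b)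
    rw [Ed_conj, Ed_conj, show Ed G w a = Ed G w b from h]

end NeP

/-- **the theorem on edge groups which are equal or have small intersection** -/
theorem t_ne : S_NEY → S_CYF → S_NE := by
  intro hney hcyf C hC hM hA n G V _ _ T hT hact hV hE
  have hr := NeP.LR_eq G T
  refine hcyf C hC hA n G V T (fun w a b => Ed G w a = Ed G w b) hT hact hr ?_ hV ?_
  · intro w a b ha hb hab F hF
    by_contra hcon
    rcases hE.int w a b ha hb with h1 | h1
    · exact hab h1
    · exact h1 ⟨F, fun g hg => ⟨⟨(hF g hg).1, (hF g hg).2.1⟩, ⟨(hF g hg).1, (hF g hg).2.2⟩⟩,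
        not_le.1 hcon⟩
  · intro y K hK
    let _ := cyAct hact hr
    have hcy0 : ∀ (g : G) {v a : V} (h : T.Adj v a),
        g • (cy (fun w a b => Ed G w a = Ed G w b) h) = cy _ (hact g v a h) :=
      fun g {v a} h => rfl
    have hPr : ∀ g ∈ MulAction.stabilizer G y, Pres hact y g := by
      intro g hg v a hva hy
      rw [← hcy0 g hva, hy]
      exact hg
    have hle : K ≤ MulAction.stabilizer G y := by
      intro g hg
      obtain ⟨⟨⟨o, a⟩, ho⟩, hy⟩ := Quotient.exists_rep y
      have h1 := hK g hg o a ho hy
      have h2 := hcy0 g ho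
      rw [h1] at h2
      have h3 : cy (fun w a b => Ed G w a = Ed G w b) ho = y := hy
      rw [h3] at h2
      exact h2
    refine Pool.Agent.R941.FJ.C_le hC.base hle ?_
    obtain ⟨W, _, T', ι, hW, hcy⟩ := cyl_subtree hT hact hr y _ hPr
    refine hney C hC hM hA n G V T hT hact hV hE _ W T' ι hW ?_ ?_
    · intro w a b ha hb
      exact gl hT hr (hW.adj w a ha) (hW.adj w b hb) ((hcy w a ha _).trans (hcy w b hb _).symm)
    · intro w a ha g hg
      have h1 := hcy w a ha (hW.adj w a ha)
      have h2 := hcy0 g (hW.adj w a ha)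
      have h3 : cy (fun w a b => Ed G w a = Ed G w b) (hact g _ _ (hW.adj w a ha)) =
          cy (fun w a b => Ed G w a = Ed G w b) (hW.adj w a ha) :=
        congrArg (Quotient.mk _) (Subtype.ext (Prod.ext hg.1 hg.2))
      rw [h3, h1] at h2
      exact h2

end Pool.Agent.N508.CS
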