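import Pool.Agent.N508.CS.StmA
import Pool.Agent.N508.CS.Ccy
import Pool.Agent.R941.FJ.Hyper

/-!
# Stabilizers of cylinders, equal edge groups

Part CSA/NEY (helper835, after CCY by helper383 and CAY by helper971).
-/

set_option autoImplicit false

namespace Pool.Agent.N508.CS

open SimpleGraph
open Pool.Agent.Y110.FJ
open Pool.Agent.N509.TK
open Pool.Agent.N509.TX

open Ccy

theorem t_ney : S_Q1 → S_NEY := by
  intro hQ1 C hC hMet hAc n G V _ _ T hT hact hV hN K W _ T' ι hW hEq hEK
  have hVK : ∀ w : W, C ↥(MulAction.stabilizer K w) := by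
    intro w
    rw [hW.stab w]
    exact C_stab hC K (ι w) (hV _)
  by_cases hne : ∃ x y, T'.Adj x y
  swap
  · obtain ⟨o⟩ := hW.tree.connected.nonempty
    have h1 : ∀ w : W, w = o := by
      intro w
      obtain ⟨p⟩ := hW.tree.connected.preconnected w o
      cases p with
      | nil => rfl
      | cons h' _ => exact absurd ⟨_, _, h'⟩ hne
    refine hC.base.of_injective _ _ ((MonoidHom.id K).codRestrict (MulAction.stabilizer K o)
      (fun g => h1 (g • o))) ?_ (hVK o)
    intro a b hab
    exact congrArg Subtype.val hab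
  obtain ⟨o, a, hoa⟩ := hne
  have hnb := exists_nbr hW.tree hoa
  -- all edge groups are equal
  have hall0 : ∀ (x y : W) (_ : T'.Walk x y), ∀ a, T'.Adj x a → ∀ b, T'.Adj y b →
      Ed G (ι x) (ι a) = Ed G (ι y) (ι b) := by
    intro x y p
    induction p with
    | nil => exact fun a ha b hb => hEq _ a b ha hb
    | @cons u v w h' p ih =>
      intro a ha b hb
      rw [hEq u a v ha h', Ed_comm]
      exact ih u h'.symm b hb
  obtain ⟨E, hE⟩ : ∃ E : Subgroup G, E = Ed G (ι o) (ι a) := ⟨_, rfl⟩
  have hall : ∀ w b : W, T'.Adj w b → Ed G (ι w) (ι b) = E := by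
    intro w b hwb
    obtain ⟨p⟩ := hW.tree.connected.preconnected o w
    rw [hE]
    exact (hall0 o w p a hoa b hwb).symm
  have hmemE : ∀ u v : W, T'.Adj u v → ∀ k : K, k • u = u → k • v = v → (k : G) ∈ E := by
    intro u v huv k hu hv
    rw [← hall u v huv]
    exact ⟨hW.fix.1 hu, hW.fix.1 hv⟩
  by_cases hbig : Big n E
  swap
  · -- small edge groups
    refine kfin hC hMet hAc hW.tree hW.act (1 : K →* Multiplicative ℤ) hC.base.int hVK ?_
    intro u v huv
    refine ⟨n, fun F hF => ?_⟩
    by_contra hlt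
    refine hbig ⟨F.map ⟨Subtype.val, Subtype.val_injective⟩, ?_, ?_⟩
    · intro g hg
      obtain ⟨x, hx, rfl⟩ := Finset.mem_map.1 hg
      exact hmemE u v huv x (hF x hx).1 (hF x hx).2.1
    · rw [Finset.card_map]
      exact not_le.1 hlt
  -- large edge groups
  have hEK' : E ≤ K := by
    rw [hE]
    exact hEK o a hoa
  have hmap : ∀ k : K, E.map (MulAut.conj (k : G)).toMonoidHom = E := by
    intro k
    have h1 : E.map (MulAut.conj (k : G)).toMonoidHom = Ed G (ι (k • o)) (ι (k • a)) := by
      rw [hE, Ed_map, hW.eqv, hW.eqv]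
      rfl
    rw [h1]
    exact hall _ _ (hW.act k _ _ hoa)
  obtain ⟨E', hE'⟩ : ∃ E' : Subgroup K, E' = E.comap K.subtype := ⟨_, rfl⟩
  have hmem : ∀ k : K, k ∈ E' ↔ (k : G) ∈ E := by
    intro k
    rw [hE']
    exact Iff.rfl
  have hEn : E'.Normal := by
    refine ⟨fun x hx g => ?_⟩
    rw [hmem] at hx ⊢
    rw [← hmap g]
    exact ⟨x, hx, rfl⟩
  have hbe : ∀ w b : W, T'.Adj w b → Big n (Ed G (ι w) (ι b)) := by
    intro w b h
    rw [hall w b h]
    exact hbig
  choose b hb using hnb
  have hfix : ∀ (w : W) (k : K), k ∈ E' → k • w = w := by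
    intro w k hk
    have h1 := (hmem k).1 hk
    rw [← hall w (b w) (hb w)] at h1
    exact hW.fix.2 h1.1
  have hF : CFam T' (fun _ : W => E') := by
    refine ⟨hfix, ?_, ?_⟩
    · intro g v x hx
      exact hEn.conj_mem x hx g
    · intro u v _ x hx _
      exact hx
  have hsup : E' = ⨆ _ : W, E' := by
    have : Nonempty W := ⟨o⟩
    exact iSup_const.symm
  have hCN : C (K ⧸ E') := by
    refine hQ1 C hC hMet K W T' hW.tree hW.act ⊤ ?_ (fun _ => E') hF ?_ ?_ ?_ E' hsup
    · refine hC.base.of_injective _ _ (1 : (K ⧸ (⊤ : Subgroup K)) →* Multiplicative ℤ) ?_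
        hC.base.int
      intro x y _
      obtain ⟨x, rfl⟩ := QuotientGroup.mk_surjective x
      obtain ⟨y, rfl⟩ := QuotientGroup.mk_surjective y
      exact QuotientGroup.eq.2 (Subgroup.mem_top _)
    · intro v x hx
      exact ⟨hfix v x hx, Subgroup.mem_top x⟩
    · intro v x hx
      have hle : Sb (⊤ : Subgroup K) v ⊔ Subgroup.zpowers x ≤ MulAction.stabilizer K v := by
        refine sup_le inf_le_left ?_
        rw [Subgroup.zpowers_le]
        exact hx
      obtain ⟨Q', _, f, hQ', hf⟩ := hN.quo _ _ (hW.adj _ _ (hb v)) (hbe v _ (hb v))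
        ((MulAction.stabilizer K v).map K.subtype) (by
          rintro _ ⟨k, hk, rfl⟩
          have hk' : k • v = v := hk
          refine ⟨hW.fix.1 hk', ?_⟩
          have h1 : T'.Adj v (k • b v) := by
            have := hW.act k v (b v) (hb v)
            rwa [hk'] at this
          have h2 := hEq v (k • b v) (b v) h1 (hb v)
          rw [hW.eqv] at h2
          exact h2)
      refine ⟨Q', inferInstance, f.comp ((K.subtype.comp (Subgroup.subtype _)).codRestrict
        ((MulAction.stabilizer K v).map K.subtype) (fun s => ⟨(s : K), hle s.2, rfl⟩)), hQ', ?_⟩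
      intro s
      rw [MonoidHom.comp_apply, hf, hall v (b v) (hb v)]
      exact (hmem _).symm
    · intro u v huv x hxu hx
      have h1 : ⁅Sb (⊤ : Subgroup K) v, Sb (⊤ : Subgroup K) v⁆ ⊔ E' ≤
          MulAction.stabilizer K v := by
        refine sup_le ?_ (fun y hy => hfix v y hy)
        rw [Subgroup.commutator_le]
        intro g hg h hh
        have hg' : g ∈ MulAction.stabilizer K v := hg.1
        have hh' : h ∈ MulAction.stabilizer K v := hh.1
        rw [commutatorElement_def]
        exact mul_mem (mul_mem (mul_mem hg' hh') (inv_mem hg')) (inv_mem hh')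
      have h2 : x • v = v := h1 hx
      exact (hmem x).2 (hmemE u v huv x hxu h2)
  -- the groups `E ⟨x⟩`
  have hcyc : ∀ x : K, C ↥(E' ⊔ Subgroup.zpowers x) := by
    intro x
    have h1 : C ↥(E ⊔ Subgroup.zpowers (x : G)) := by
      have h2 := hN.cyc _ _ (hW.adj _ _ hoa) (hbe o a hoa) (x : G)
      rw [← hE] at h2
      exact h2 (hmap x)
    have h3 : E' ⊔ Subgroup.zpowers x ≤ (E ⊔ Subgroup.zpowers (x : G)).comap K.subtype := by
      refine sup_le ?_ ?_
      · intro y hy
        exact Subgroup.mem_sup_left ((hmem y).1 hy)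
      · rw [Subgroup.zpowers_le]
        exact Subgroup.mem_sup_right (Subgroup.mem_zpowers _)
    refine hC.base.of_injective _ _ ((K.subtype.comp (Subgroup.subtype _)).codRestrict
      (E ⊔ Subgroup.zpowers (x : G)) (fun s => h3 s.2)) ?_ h1
    intro s t hst
    have h4 := congrArg Subtype.val hst
    exact Subtype.ext (Subtype.ext h4)
  refine Pool.Agent.Y529.FJ.t_ext C hC K E' ?_ hCN fun x _ => hcyc x
  exact Pool.Agent.R941.FJ.C_le hC.base le_sup_left (hcyc 1)

end Pool.Agent.N508.CS
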