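import Pool.Agent.N508.CS.Stm2

/-!
# Locally nilpotent groups are in the class and satisfy the conditions

Project CS2 (helper508, MP_f7db47_al). Proofs of `S_CLN` and of `S_LN → S_CLN → S_NRV` (helper615).
-/

set_option autoImplicit false

namespace Pool.Agent.N508.CS

open SimpleGraph
open Pool.Agent.Y110.FJ
open Pool.Agent.N509.TK
open Pool.Agent.N509.TX

section

variable {C : ∀ (G : Type) [Group G], Prop}

theorem nrv_comm (hM : ∀ (G : Type) [Group G], derivedSeries G 2 = ⊥ → C G) (G : Type) [Group G]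
    (h : ∀ a b : G, a * b = b * a) : C G := by
  refine hM G ?_
  have h1 : derivedSeries G 1 = ⊥ := by
    rw [derivedSeries_succ, derivedSeries_zero, Subgroup.commutator_eq_bot_iff_le_centralizer]
    intro a _
    rw [Subgroup.mem_centralizer_iff]
    intro b _
    exact h b a
  rw [derivedSeries_succ, h1, Subgroup.commutator_bot_left]

theorem nrv_nilp (hC : ClosedE C) (hM : ∀ (G : Type) [Group G], derivedSeries G 2 = ⊥ → C G)
    (G : Type) [Group G] [Group.IsNilpotent G] : C G := by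
  refine Group.nilpotent_center_quotient_ind (P := fun G _ _ => C G) G ?_ ?_
  · intro G _ _
    exact nrv_comm hM G fun a b => Subsingleton.elim _ _
  · intro G _ _ hQ
    refine Pool.Agent.Y529.FJ.t_ext C hC G (Subgroup.center G) ?_ hQ fun g _ => ?_
    · refine nrv_comm hM _ fun a b => ?_
      exact Subtype.ext (Subgroup.mem_center_iff.1 b.2 a)
    · refine nrv_comm hM _ fun a b => Subtype.ext ?_
      obtain ⟨x, hx, y, hy, hxy⟩ := Pool.Agent.R941.FJ.mem_sup_normal.1 a.2
      obtain ⟨z, hz, w, hw, hzw⟩ := Pool.Agent.R941.FJ.mem_sup_normal.1 b.2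
      obtain ⟨k, rfl⟩ := Subgroup.mem_zpowers_iff.1 hy
      obtain ⟨l, rfl⟩ := Subgroup.mem_zpowers_iff.1 hw
      change (a : G) * (b : G) = (b : G) * (a : G)
      rw [← hxy, ← hzw]
      have hx' : ∀ t : G, t * x = x * t := Subgroup.mem_center_iff.1 hx
      have hz' : ∀ t : G, t * z = z * t := Subgroup.mem_center_iff.1 hz
      calc x * g ^ k * (z * g ^ l) = x * (g ^ k * z) * g ^ l := by group
        _ = x * (z * g ^ k) * g ^ l := by rw [hz']
        _ = (x * z) * (g ^ k * g ^ l) := by group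
        _ = (z * x) * (g ^ l * g ^ k) := by rw [hz' x, ← zpow_add, ← zpow_add, add_comm]
        _ = z * (x * g ^ l) * g ^ k := by group
        _ = z * (g ^ l * x) * g ^ k := by rw [hx']
        _ = z * g ^ l * (x * g ^ k) := by group

end

theorem t_cln : S_CLN := by
  intro C hC hM M _ h
  refine of_fg hC fun H hH => ?_
  have := h H ((Group.fg_iff_subgroup_fg H).1 hH)
  exact nrv_nilp hC hM H

/-- lifts of finitely generated subgroups -/
theorem nrv_lift {G Q : Type} [Group G] [Group Q] (f : G →* Q) (hf : Function.Surjective f)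
    (H : Subgroup Q) (hH : H.FG) : ∃ H' : Subgroup G, H'.FG ∧ H'.map f = H := by
  classical
  obtain ⟨E, hE⟩ := hH
  refine ⟨Subgroup.closure (E.image (Function.surjInv hf) : Finset G), ⟨_, rfl⟩, ?_⟩
  rw [MonoidHom.map_closure, Finset.coe_image, ← Set.image_comp]
  have h1 : f ∘ Function.surjInv hf = id := funext fun x => Function.surjInv_eq hf x
  rw [h1, Set.image_id, hE]

theorem nrv_map {G Q : Type} [Group G] [Group Q] (f : G →* Q) (H : Subgroup G) (hH : H.FG) :
    (H.map f).FG := by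
  classical
  obtain ⟨E, hE⟩ := hH
  refine ⟨E.image f, ?_⟩
  rw [Finset.coe_image, ← MonoidHom.map_closure, hE]

theorem t_nrv : S_LN → S_CLN → S_NRV := by
  intro hLN hCLN C hC hM G V _ _ v hT x hx hx1
  have hcen : ∀ g y : G, g • v = v → y • v = v →
      (∃ m k : ℤ, m ≠ 0 ∧ k ≠ 0 ∧ g * x ^ m * g⁻¹ = x ^ k) →
      (∃ a b : ℤ, a ≠ 0 ∧ y ^ a = x ^ b) → g * y = y * g := by
    rintro g y hg hy ⟨m, k, hm, _, h1⟩ ⟨a, b, ha, h2⟩
    have h3 := hLN ↥(MulAction.stabilizer G v) hT ⟨g, hg⟩ ⟨x, hx⟩ ⟨y, hy⟩ m k a b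
      (fun h => hx1 (congrArg Subtype.val h)) hm ha (Subtype.ext h1) (Subtype.ext h2)
    exact congrArg Subtype.val h3
  refine ⟨hcen, fun S hS => ?_⟩
  -- the central subgroup
  let Z : Subgroup S :=
    { carrier := {s | ∃ a b : ℤ, a ≠ 0 ∧ (s : G) ^ a = x ^ b}
      one_mem' := ⟨1, 0, one_ne_zero, by simp⟩
      mul_mem' := by
        rintro s t ⟨a, b, ha, h1⟩ ⟨c, d, hc, h2⟩
        refine ⟨a * c, b * c + d * a, mul_ne_zero ha hc, ?_⟩
        have h3 : Commute (s : G) (t : G) :=
          hcen s t (hS s s.2).1 (hS t t.2).1 (hS s s.2).2 ⟨c, d, hc, h2⟩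
        change ((s : G) * (t : G)) ^ (a * c) = _
        rw [h3.mul_zpow, zpow_mul, h1, mul_comm a c, zpow_mul, h2, ← zpow_mul, ← zpow_mul,
          ← zpow_add]
      inv_mem' := by
        rintro s ⟨a, b, ha, h1⟩
        refine ⟨a, -b, ha, ?_⟩
        change ((s : G)⁻¹) ^ a = _
        rw [inv_zpow, h1, zpow_neg] }
  have hZ : ∀ s : S, s ∈ Z ↔ ∃ a b : ℤ, a ≠ 0 ∧ (s : G) ^ a = x ^ b := fun s => Iff.rfl
  have hZn : Z.Normal := by
    refine ⟨fun n hn g => ?_⟩
    have h1 : (g : G) * (n : G) = (n : G) * (g : G) :=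
      hcen g n (hS g g.2).1 (hS n n.2).1 (hS g g.2).2 ((hZ n).1 hn)
    have h2 : g * n * g⁻¹ = n := by
      refine Subtype.ext ?_
      change (g : G) * (n : G) * (g : G)⁻¹ = n
      rw [h1, mul_inv_cancel_right]
    rw [h2]
    exact hn
  refine ⟨S ⧸ Z, inferInstance, QuotientGroup.mk' Z, ?_, fun s => ?_⟩
  · refine hCLN C hC hM _ fun H hH => ?_
    obtain ⟨H', hH', hHe⟩ := nrv_lift (QuotientGroup.mk' Z) (QuotientGroup.mk'_surjective Z) H hH
    let ψ : S →* ↥(MulAction.stabilizer G v) :=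
      S.subtype.codRestrict (MulAction.stabilizer G v) fun s => (hS s s.2).1
    have hψ : Function.Injective ψ := by
      intro a b hab
      exact Subtype.ext (congrArg (fun z : ↥(MulAction.stabilizer G v) => (z : G)) hab)
    have h1 : Group.IsNilpotent ↥(H'.map ψ) := hT.2 _ (nrv_map ψ H' hH')
    have h2 : Group.IsNilpotent ↥H' := by
      refine Group.nilpotent_of_mulEquiv (H'.equivMapOfInjective ψ hψ).symm
    rw [← hHe]
    exact Group.nilpotent_of_surjective ((QuotientGroup.mk' Z).subgroupMap H')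
      ((QuotientGroup.mk' Z).subgroupMap_surjective H')
  · change (QuotientGroup.mk' Z) s = 1 ↔ _
    rw [QuotientGroup.mk'_apply, QuotientGroup.eq_one_iff, hZ]

end Pool.Agent.N508.CS
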