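import Pool.Agent.N508.CS.Stm2
import Pool.Agent.N509.TX.Xi

/-!
# The theorem on edge groups of rank one from the cylinders (by helper374)
-/

set_option autoImplicit false

namespace Pool.Agent.N508.CS

open SimpleGraph
open Pool.Agent.Y110.FJ
open Pool.Agent.N509.TK
open Pool.Agent.N509.TX

variable {C : ∀ (G : Type) [Group G], Prop}

theorem RV.sub {G V W : Type} [Group G] [MulAction G V] {T : SimpleGraph V} {H : Subgroup G}
    [MulAction H W] {T' : SimpleGraph W} {ι : W → V} (h : STree H T T' ι) {v : W} {x : H}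
    (hx : RV C (ι v) (x : G)) : RV C v x := by
  constructor
  · rintro g y hg hy ⟨m, k, hm, hk, h1⟩ ⟨a, b, ha, h2⟩
    exact Subtype.ext (hx.cen g y (h.fix.1 hg) (h.fix.1 hy) ⟨m, k, hm, hk, congrArg Subtype.val h1⟩
      ⟨a, b, ha, congrArg Subtype.val h2⟩)
  · intro S hS
    obtain ⟨Q, _, f, hQ, hf⟩ := hx.quo (S.map H.subtype) (by
      rintro _ ⟨g, hg, rfl⟩
      obtain ⟨h5, m, k, hm, hk, h6⟩ := hS g hg
      exact ⟨h.fix.1 h5, m, k, hm, hk, congrArg Subtype.val h6⟩)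
    refine ⟨Q, _, f.comp (H.subtype.subgroupMap S), hQ, fun s => ?_⟩
    refine (hf _).trans ?_
    constructor
    · rintro ⟨a, b, ha, h7⟩
      exact ⟨a, b, ha, Subtype.ext h7⟩
    · rintro ⟨a, b, ha, h7⟩
      exact ⟨a, b, ha, congrArg Subtype.val h7⟩

/-- the case of finitely generated groups -/
theorem rz_fg (hcyl : S_CYL) (hC : ClosedE C)
    (hM : ∀ (G : Type) [Group G], derivedSeries G 2 = ⊥ → C G)
    (hA : AcylF C) {G V : Type} [Group G] [MulAction G V] {T : SimpleGraph V} (hfg : Group.FG G)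
    (hT : T.IsTree) (hact : ∀ (g : G) (u v : V), T.Adj u v → T.Adj (g • u) (g • v))
    (hV : ∀ v : V, C ↥(MulAction.stabilizer G v))
    (hEr : ∀ u v : V, T.Adj u v → Er G u v) (n : ℕ) (hEt : ∀ u v : V, T.Adj u v → Et G n u v)
    (hx : ∀ v u : V, T.Adj v u → ∀ x : G, x • v = v → x • u = u → Inf x → RV C v x) :
    C G := by
  refine cylI_fg hC hA hfg hT hact hEr n hEt hV ?_
  intro v0 a0 h0 z hz hzv hza K hK hzK
  obtain ⟨hd1, hd2⟩ := cyl_data hEr hact h0 hz hzv hza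
  obtain ⟨W, _, T', ι, hW, hcy⟩ := cyl_subtree hT hact (rI_LR hEr) (cy (rI G) h0) K hK
  refine hcyl C hC hM K W T' hW.tree hW.act ?_ ?_ ⟨z, hzK⟩ ?_ ?_ ?_ ?_
  · intro w
    rw [hW.stab w]
    exact C_stab hC K (ι w) (hV _)
  · intro u v huv
    exact (hEr _ _ (hW.adj _ _ huv)).sub hW
  · intro m hm h1
    exact hz m hm (congrArg Subtype.val h1)
  · intro g
    obtain ⟨m, k, hm, hk, h⟩ := hd1 g (hK g g.2)
    exact ⟨m, k, hm, hk, Subtype.ext h⟩
  · intro u v huv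
    obtain ⟨k, hk, h3, h4⟩ := hd2 _ _ (hW.adj _ _ huv) (hcy u v huv _)
    exact ⟨k, hk, hW.fix.2 h3, hW.fix.2 h4⟩
  · intro u v huv k hk h3 h4
    refine RV.sub hW ?_
    exact hx _ _ (hW.adj v u huv.symm) (z ^ k) (hW.fix.1 h4) (hW.fix.1 h3) (hz.zpow hk)

/-- **the theorem on edge groups of rank one** -/
theorem t_rz : S_CYL → S_RZ := by
  intro hcyl C hC hM hA G V _ _ T hT hact hV hEr hEt hx
  refine of_fg hC fun H hfg => ?_
  obtain ⟨o⟩ := hT.connected.nonempty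
  have hactH : ∀ (g : H) (u v : V), T.Adj u v → T.Adj (g • u) (g • v) := fun g u v h => hact g u v h
  obtain ⟨W, _, T', ι, Φ, hW, _, hΦ, hΦ'⟩ := fg_subtree (G := H) hT hactH hfg o
  obtain ⟨n, hn⟩ := uniform (G := H) (T := T) (T' := T') (ι := ι) (Φ := Φ)
    (fun u v n => Et H n u v) hΦ hΦ' (fun u v n n' h h' => h'.mono h) (fun u v n h => h.symm)
    (fun h u v n h' => h'.inv h) (fun u v huv => by
      obtain ⟨n, hn⟩ := hEt u v huv
      exact ⟨n, hn.sub'⟩)
  refine rz_fg (G := H) (V := W) (T := T') hcyl hC hM hA hfg hW.tree hW.act ?_ ?_ n ?_ ?_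
  · intro w
    rw [hW.stab w]
    exact C_stab hC H (ι w) (hV _)
  · intro u v huv
    exact (hEr _ _ (hW.adj _ _ huv)).sub hW
  · intro u v huv
    exact (hn u v huv).sub hW
  · intro v u hvu x hxv hxu hxi
    exact (hx _ _ (hW.adj _ _ hvu) x (hW.fix.1 hxv) (hW.fix.1 hxu)
      (hxi.map H.subtype H.subtype_injective)).sub hW

end Pool.Agent.N508.CS
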