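import Pool.Agent.N509.TX.Kf
import Pool.Agent.N509.TK.Loc2
import Pool.Agent.N509.TK.Tq

/-!
# Compatible families of normal subgroups of the vertex stabilizers of a tree

Owner helper508 (project CS).
-/

set_option autoImplicit false

namespace Pool.Agent.N508.CS

open SimpleGraph
open Pool.Agent.Y110.FJ
open Pool.Agent.N509.TK
open Pool.Agent.N509.TX

/-- a compatible family: `A v` is a subgroup of the stabilizer of `v`, the family is invariant under
conjugation, and the elements of `A v` which fix a neighbour `u` of `v` are in `A u` -/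
structure CFam {G V : Type} [Group G] [MulAction G V] (T : SimpleGraph V) (A : V → Subgroup G) :
    Prop where
  fix : ∀ v, ∀ a ∈ A v, a • v = v
  eqv : ∀ (g : G) (v : V), ∀ a ∈ A v, g * a * g⁻¹ ∈ A (g • v)
  cmp : ∀ u v, T.Adj u v → ∀ a ∈ A v, a • u = u → a ∈ A u

/-- the groups `B v ⟨x⟩ / A v` embed in groups of the class -/
def StepV (C : ∀ (G : Type) [Group G], Prop) {G V : Type} [Group G] [MulAction G V]
    (A B : V → Subgroup G) : Prop :=
  ∀ (v : V) (x : G), x • v = v → ∃ (Q : Type) (_ : Group Q)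
    (f : ↥(B v ⊔ Subgroup.zpowers x) →* Q), C Q ∧ ∀ s, f s = 1 ↔ (s : G) ∈ A v

/-- the edge groups embed in the abelianizations of the groups `B v / A v` -/
def StepH {G V : Type} [Group G] [MulAction G V] (T : SimpleGraph V) (A B : V → Subgroup G) :
    Prop :=
  ∀ u v : V, T.Adj u v → ∀ x : G, x • u = u → x ∈ ⁅B v, B v⁆ ⊔ A v → x ∈ A v

/-- the edge groups are finite in `B v / A v` -/
def StepF {G V : Type} [Group G] [MulAction G V] (T : SimpleGraph V) (A B : V → Subgroup G) :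
    Prop :=
  ∀ u v : V, T.Adj u v → ∃ n : ℕ, ∀ F : Finset G, (∀ g ∈ F, g ∈ B v ∧ g • u = u) →
    (∀ g ∈ F, ∀ h ∈ F, g⁻¹ * h ∈ A v → g = h) → F.card ≤ n

/-- the stabilizers of the group generated by a compatible family -/
def S_STAB : Prop := ∀ (G V : Type) [Group G] [MulAction G V] (T : SimpleGraph V), T.IsTree →
  (∀ (g : G) (u v : V), T.Adj u v → T.Adj (g • u) (g • v)) →
  ∀ A : V → Subgroup G, CFam T A → ∀ (v : V) (x : G), x ∈ ⨆ v, A v → x • v = v → x ∈ A v

/-- the quotient by the group generated by a compatible family acts on a tree -/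
def S_QUOT : Prop := ∀ (G V : Type) [Group G] [MulAction G V] (T : SimpleGraph V), T.IsTree →
  (∀ (g : G) (u v : V), T.Adj u v → T.Adj (g • u) (g • v)) →
  ∀ A : V → Subgroup G, CFam T A → ∀ (N : Subgroup G) [N.Normal], N = (⨆ v, A v) →
    ∃ (W : Type) (_ : MulAction (G ⧸ N) W) (T' : SimpleGraph W) (ι : W → V), T'.IsTree ∧
      (∀ (q : G ⧸ N) (u v : W), T'.Adj u v → T'.Adj (q • u) (q • v)) ∧
      (∀ u v : W, T'.Adj u v → T.Adj (ι u) (ι v)) ∧
      (∀ (w : W) (q : G ⧸ N), q • w = w ↔ ∃ g : G, g • ι w = ι w ∧ (g : G ⧸ N) = q) ∧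
      (∀ u v : W, T'.Adj u v → ∀ q : G ⧸ N, q • u = u → q • v = v →
        ∃ g : G, g • ι u = ι u ∧ g • ι v = ι v ∧ (g : G ⧸ N) = q)

/-- all that is used about the quotient of a group by the group `N` generated by the family `A`, with
the normal subgroup `L`, the image of the group generated by the family `B` -/
structure QD (C : ∀ (G : Type) [Group G], Prop) {G V : Type} [Group G] [MulAction G V]
    (T : SimpleGraph V) (A B : V → Subgroup G) (N : Subgroup G) [N.Normal] (L : Subgroup (G ⧸ N))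
    {W : Type} [MulAction (G ⧸ N) W] (T' : SimpleGraph W) (ι : W → V) : Prop where
  tree : T'.IsTree
  act : ∀ (q : G ⧸ N) (u v : W), T'.Adj u v → T'.Adj (q • u) (q • v)
  adj : ∀ u v : W, T'.Adj u v → T.Adj (ι u) (ι v)
  /-- vertex stabilizers in `L` -/
  stab : ∀ (w : W) (q : G ⧸ N), (q ∈ L ∧ q • w = w) ↔ ∃ g ∈ B (ι w), (g : G ⧸ N) = q
  /-- edge stabilizers in `L` -/
  edge : ∀ u v : W, T'.Adj u v → ∀ q ∈ L, q • u = u → q • v = v →
    ∃ g ∈ B (ι v), g • ι u = ι u ∧ (g : G ⧸ N) = q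
  /-- elements of `N` -/
  ker : ∀ (w : W) (g : G), g • ι w = ι w → (g : G ⧸ N) = 1 → g ∈ A (ι w)
  ker' : ∀ (w : W), ∀ g ∈ A (ι w), (g : G ⧸ N) = 1
  fix : ∀ (w : W), ∀ g ∈ B (ι w), g • ι w = ι w
  le : ∀ w : W, A (ι w) ≤ B (ι w)
  /-- the vertex stabilizers in the groups `L ⟨q⟩` are in the class -/
  vert : ∀ (q : G ⧸ N) (w : W), C ↥(MulAction.stabilizer ↥(L ⊔ Subgroup.zpowers q) w)

/-- construction of the quotient data -/
def S_QD : Prop := ∀ C : ∀ (G : Type) [Group G], Prop, ClosedE C →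
  ∀ (G V : Type) [Group G] [MulAction G V] (T : SimpleGraph V), T.IsTree →
  (∀ (g : G) (u v : V), T.Adj u v → T.Adj (g • u) (g • v)) →
  ∀ A B : V → Subgroup G, CFam T A → CFam T B → (∀ v, A v ≤ B v) → StepV C A B →
  ∀ (N M : Subgroup G) [N.Normal] [M.Normal], N = (⨆ v, A v) → M = (⨆ v, B v) →
    ∃ (W : Type) (_ : MulAction (G ⧸ N) W) (T' : SimpleGraph W) (ι : W → V),
      QD C T A B N (M.map (QuotientGroup.mk' N)) T' ι

/-- the homological step -/
def S_H : Prop := ∀ C : ∀ (G : Type) [Group G], Prop, ClosedE C →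
  (∀ (G : Type) [Group G], derivedSeries G 2 = ⊥ → C G) →
  ∀ (G V : Type) [Group G] [MulAction G V] (T : SimpleGraph V) (A B : V → Subgroup G)
    (N : Subgroup G) [N.Normal] (L : Subgroup (G ⧸ N)) [L.Normal] (W : Type)
    [MulAction (G ⧸ N) W] (T' : SimpleGraph W) (ι : W → V), QD C T A B N L T' ι →
    StepH T A B → C ((G ⧸ N) ⧸ L) → C (G ⧸ N)

/-- the finite step -/
def S_F : Prop := ∀ C : ∀ (G : Type) [Group G], Prop, ClosedE C →
  (∀ (G : Type) [Group G], derivedSeries G 2 = ⊥ → C G) → AcylF C →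
  ∀ (G V : Type) [Group G] [MulAction G V] (T : SimpleGraph V) (A B : V → Subgroup G)
    (N : Subgroup G) [N.Normal] (L : Subgroup (G ⧸ N)) [L.Normal] (W : Type)
    [MulAction (G ⧸ N) W] (T' : SimpleGraph W) (ι : W → V), QD C T A B N L T' ι →
    StepF T A B → C ((G ⧸ N) ⧸ L) → C (G ⧸ N)

/-- the group generated by the vertex stabilizers of a normal subgroup -/
def S_TOP : Prop := ∀ C : ∀ (G : Type) [Group G], Prop, ClosedE C →
  ∀ (G V : Type) [Group G] [MulAction G V] (T : SimpleGraph V), T.IsTree →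
  (∀ (g : G) (u v : V), T.Adj u v → T.Adj (g • u) (g • v)) →
  ∀ (K : Subgroup G) [K.Normal], C (G ⧸ K) →
  ∀ (N : Subgroup G) [N.Normal], N = (⨆ v : V, Sb K v) → C (G ⧸ N)

/-- **the theorem on compatible series** -/
def S_MAIN : Prop := ∀ C : ∀ (G : Type) [Group G], Prop, ClosedE C →
  (∀ (G : Type) [Group G], derivedSeries G 2 = ⊥ → C G) →
  ∀ (G V : Type) [Group G] [MulAction G V] (T : SimpleGraph V), T.IsTree →
  (∀ (g : G) (u v : V), T.Adj u v → T.Adj (g • u) (g • v)) →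
  ∀ (K : Subgroup G) [K.Normal], C (G ⧸ K) →
  ∀ (n : ℕ) (A : ℕ → V → Subgroup G), (∀ i ≤ n, CFam T (A i)) → (∀ v, A 0 v = ⊥) →
    (∀ v, A n v = Sb K v) →
    (∀ i < n, (∀ v, A i v ≤ A (i + 1) v) ∧ StepV C (A i) (A (i + 1)) ∧
      (StepH T (A i) (A (i + 1)) ∨ (AcylF C ∧ StepF T (A i) (A (i + 1))))) → C G

/-- abelian steps -/
def S_ABEL : Prop := ∀ C : ∀ (G : Type) [Group G], Prop, ClosedE C →
  (∀ (G : Type) [Group G], derivedSeries G 2 = ⊥ → C G) →
  ∀ (G V : Type) [Group G] [MulAction G V] (T : SimpleGraph V) (A B : V → Subgroup G),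
    CFam T A → CFam T B → (∀ v, A v ≤ B v) → (∀ v, ⁅B v, B v⁆ ≤ A v) →
    StepV C A B ∧ StepH T A B

end Pool.Agent.N508.CS
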