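import Pool.Agent.N508.CS.Stm

/-!
# Edge groups of rank one with central isolators

Owner helper508 (project CS, second part).
-/

set_option autoImplicit false

namespace Pool.Agent.N508.CS

open SimpleGraph
open Pool.Agent.Y110.FJ
open Pool.Agent.N509.TK
open Pool.Agent.N509.TX

/-- conditions on the vertex group at `v` and its element `x`: in the stabilizer of `v` the elements
which commensurate `⟨x⟩` commute with the elements which have a nonzero power in `⟨x⟩`, and the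
quotients by these of the groups of such elements embed in groups of the class -/
structure RV (C : ∀ (G : Type) [Group G], Prop) {G V : Type} [Group G] [MulAction G V] (v : V)
    (x : G) : Prop where
  cen : ∀ g y : G, g • v = v → y • v = v →
    (∃ m k : ℤ, m ≠ 0 ∧ k ≠ 0 ∧ g * x ^ m * g⁻¹ = x ^ k) →
    (∃ a b : ℤ, a ≠ 0 ∧ y ^ a = x ^ b) → g * y = y * g
  quo : ∀ S : Subgroup G,
    (∀ g ∈ S, g • v = v ∧ ∃ m k : ℤ, m ≠ 0 ∧ k ≠ 0 ∧ g * x ^ m * g⁻¹ = x ^ k) →
    ∃ (Q : Type) (_ : Group Q) (f : S →* Q), C Q ∧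
      ∀ s : S, f s = 1 ↔ ∃ a b : ℤ, a ≠ 0 ∧ (s : G) ^ a = x ^ b

/-- the stabilizer of a cylinder -/
def S_CYL : Prop := ∀ C : ∀ (G : Type) [Group G], Prop, ClosedE C →
  (∀ (G : Type) [Group G], derivedSeries G 2 = ⊥ → C G) →
  ∀ (K W : Type) [Group K] [MulAction K W] (T : SimpleGraph W), T.IsTree →
  (∀ (g : K) (u v : W), T.Adj u v → T.Adj (g • u) (g • v)) →
  (∀ v : W, C ↥(MulAction.stabilizer K v)) →
  (∀ u v : W, T.Adj u v → Er K u v) →
  ∀ z : K, Inf z → (∀ g : K, ∃ m k : ℤ, m ≠ 0 ∧ k ≠ 0 ∧ g * z ^ m * g⁻¹ = z ^ k) →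
    (∀ u v : W, T.Adj u v → ∃ n : ℤ, n ≠ 0 ∧ z ^ n • u = u ∧ z ^ n • v = v) →
    (∀ u v : W, T.Adj u v → ∀ n : ℤ, n ≠ 0 → z ^ n • u = u → z ^ n • v = v → RV C v (z ^ n)) →
    C K

/-- **the theorem on edge groups of rank one** -/
def S_RZ : Prop := ∀ C : ∀ (G : Type) [Group G], Prop, ClosedE C →
  (∀ (G : Type) [Group G], derivedSeries G 2 = ⊥ → C G) → AcylF C →
  ∀ (G V : Type) [Group G] [MulAction G V] (T : SimpleGraph V), T.IsTree →
  (∀ (g : G) (u v : V), T.Adj u v → T.Adj (g • u) (g • v)) →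
  (∀ v : V, C ↥(MulAction.stabilizer G v)) →
  (∀ u v : V, T.Adj u v → Er G u v) → (∀ u v : V, T.Adj u v → ∃ n : ℕ, Et G n u v) →
  (∀ v u : V, T.Adj v u → ∀ x : G, x • v = v → x • u = u → Inf x → RV C v x) → C G

/-- `G` is torsion-free and locally nilpotent -/
def TfLn (M : Type) [Group M] : Prop :=
  (∀ (x : M) (n : ℕ), 0 < n → x ^ n = 1 → x = 1) ∧
    ∀ H : Subgroup M, H.FG → Group.IsNilpotent H

/-- unique roots and trivial moduli in locally nilpotent torsion-free groups -/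
def S_LN : Prop := ∀ (M : Type) [Group M], TfLn M →
  ∀ (g x y : M) (m k a b : ℤ), x ≠ 1 → m ≠ 0 → a ≠ 0 → g * x ^ m * g⁻¹ = x ^ k → y ^ a = x ^ b →
    g * y = y * g

/-- locally nilpotent groups are in the class -/
def S_CLN : Prop := ∀ C : ∀ (G : Type) [Group G], Prop, ClosedE C →
  (∀ (G : Type) [Group G], derivedSeries G 2 = ⊥ → C G) →
  ∀ (M : Type) [Group M], (∀ H : Subgroup M, H.FG → Group.IsNilpotent H) → C M

/-- torsion-free locally nilpotent vertex groups satisfy the conditions -/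
def S_NRV : Prop := ∀ C : ∀ (G : Type) [Group G], Prop, ClosedE C →
  (∀ (G : Type) [Group G], derivedSeries G 2 = ⊥ → C G) →
  ∀ (G V : Type) [Group G] [MulAction G V] (v : V), TfLn ↥(MulAction.stabilizer G v) →
    ∀ x : G, x • v = v → x ≠ 1 → RV C v x

end Pool.Agent.N508.CS
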