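import Pool.Agent.N508.CS.Stm2
import Pool.Agent.N509.TK.Om

/-!
# Families of abelian subgroups with small intersections which contain the edge groups

Owner helper508 (project CS, third part).
-/

set_option autoImplicit false

namespace Pool.Agent.N508.CS

open SimpleGraph
open Pool.Agent.Y110.FJ
open Pool.Agent.N509.TK
open Pool.Agent.N509.TX

/-- `A` has more than `n` elements -/
def Big {G : Type} [Group G] (n : ℕ) (A : Subgroup G) : Prop :=
  ∃ F : Finset G, (∀ g ∈ F, g ∈ A) ∧ n < F.card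

/-- the sets `𝓐 v` of abelian subgroups are invariant under conjugation, different members of `𝓐 v`
have at most `n` common elements, the edge stabilizers at `v` with more than `n` elements are contained
in members of `𝓐 v`, and `N(A) / A` embeds in a group of the class for the stabilizers `N(A)` in the
stabilizer of `v` of the members `A` -/
structure TIF (C : ∀ (G : Type) [Group G], Prop) (n : ℕ) {G V : Type} [Group G] [MulAction G V]
    (T : SimpleGraph V) (𝓐 : V → Set (Subgroup G)) : Prop where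
  comm : ∀ v, ∀ A ∈ 𝓐 v, ∀ a ∈ A, ∀ b ∈ A, a * b = b * a
  eqv : ∀ (g : G) (v : V), ∀ A ∈ 𝓐 v, A.map (MulAut.conj g).toMonoidHom ∈ 𝓐 (g • v)
  ti : ∀ v, ∀ A ∈ 𝓐 v, ∀ A' ∈ 𝓐 v, Big n (A ⊓ A') → A = A'
  edge : ∀ v u, T.Adj v u → Big n (MulAction.stabilizer G v ⊓ MulAction.stabilizer G u) →
    ∃ A ∈ 𝓐 v, MulAction.stabilizer G v ⊓ MulAction.stabilizer G u ≤ A
  quo : ∀ v, ∀ A ∈ 𝓐 v, Big n A → ∀ S : Subgroup G,
    (∀ g ∈ S, g • v = v ∧ A.map (MulAut.conj g).toMonoidHom = A) →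
    ∃ (Q : Type) (_ : Group Q) (f : S →* Q), C Q ∧ ∀ s : S, f s = 1 ↔ (s : G) ∈ A

/-- the relation of the edges at a vertex -/
def rT (n : ℕ) {G V : Type} [Group G] [MulAction G V] (𝓐 : V → Set (Subgroup G)) (w a b : V) :
    Prop :=
  a = b ∨ (Big n (MulAction.stabilizer G w ⊓ MulAction.stabilizer G a) ∧
    Big n (MulAction.stabilizer G w ⊓ MulAction.stabilizer G b) ∧
    ∃ A ∈ 𝓐 w, MulAction.stabilizer G w ⊓ MulAction.stabilizer G a ≤ A ∧
      MulAction.stabilizer G w ⊓ MulAction.stabilizer G b ≤ A)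

/-- the families of a subgroup -/
def subF (n : ℕ) {G V W : Type} [Group G] (𝓐 : V → Set (Subgroup G)) (H : Subgroup G) (ι : W → V) :
    W → Set (Subgroup H) :=
  fun w => {B | Big n B ∧ ∃ A ∈ 𝓐 (ι w), B = A.subgroupOf H}

/-- passing to subgroups and subtrees -/
def S_TIS : Prop := ∀ (C : ∀ (G : Type) [Group G], Prop) (n : ℕ) (G V : Type) [Group G]
  [MulAction G V] (T : SimpleGraph V) (𝓐 : V → Set (Subgroup G)), TIF C n T 𝓐 →
  ∀ (H : Subgroup G) (W : Type) [MulAction H W] (T' : SimpleGraph W) (ι : W → V),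
    STree H T T' ι → TIF C n T' (subF n 𝓐 H ι)

/-- the stabilizers of cylinders -/
def S_TIC : Prop := ∀ C : ∀ (G : Type) [Group G], Prop, ClosedE C →
  (∀ (G : Type) [Group G], derivedSeries G 2 = ⊥ → C G) → AcylF C →
  ∀ (n : ℕ) (G V : Type) [Group G] [MulAction G V] (T : SimpleGraph V), T.IsTree →
  (∀ (g : G) (u v : V), T.Adj u v → T.Adj (g • u) (g • v)) →
  (∀ v : V, C ↥(MulAction.stabilizer G v)) →
  ∀ 𝓐 : V → Set (Subgroup G), TIF C n T 𝓐 →
  ∀ (K : Subgroup G) (W : Type) [MulAction K W] (T' : SimpleGraph W) (ι : W → V),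
    STree K T T' ι →
    (∀ w a b : W, T'.Adj w a → T'.Adj w b → rT n 𝓐 (ι w) (ι a) (ι b)) → C K

/-- **the theorem on families of abelian subgroups** -/
def S_TI : Prop := ∀ C : ∀ (G : Type) [Group G], Prop, ClosedE C →
  (∀ (G : Type) [Group G], derivedSeries G 2 = ⊥ → C G) → AcylF C →
  ∀ (n : ℕ) (G V : Type) [Group G] [MulAction G V] (T : SimpleGraph V), T.IsTree →
  (∀ (g : G) (u v : V), T.Adj u v → T.Adj (g • u) (g • v)) →
  (∀ v : V, C ↥(MulAction.stabilizer G v)) →
  ∀ 𝓐 : V → Set (Subgroup G), TIF C n T 𝓐 → C G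

/-- torsion-free locally nilpotent vertex groups and edge groups of rank one -/
def S_NTI : Prop := ∀ C : ∀ (G : Type) [Group G], Prop, ClosedE C →
  (∀ (G : Type) [Group G], derivedSeries G 2 = ⊥ → C G) →
  ∀ (G V : Type) [Group G] [MulAction G V] (T : SimpleGraph V),
  (∀ v : V, TfLn ↥(MulAction.stabilizer G v)) → (∀ u v : V, T.Adj u v → Er G u v) →
    ∃ 𝓐 : V → Set (Subgroup G), TIF C 1 T 𝓐

end Pool.Agent.N508.CS
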