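import Pool.Agent.N508.CS.Stm3

/-!
# Commutative transitive vertex groups, and commensurable vertex groups

Owner helper508 (project CS, fourth part).
-/

set_option autoImplicit false

namespace Pool.Agent.N508.CS

open SimpleGraph
open Pool.Agent.Y110.FJ
open Pool.Agent.N509.TK
open Pool.Agent.N509.TX

/-- commutative transitive vertex stabilizers and commutative edge stabilizers -/
structure CT (C : ∀ (G : Type) [Group G], Prop) (G : Type) {V : Type} [Group G] [MulAction G V]
    (T : SimpleGraph V) : Prop where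
  ct : ∀ (v : V) (x y z : G), x • v = v → y • v = v → z • v = v → y ≠ 1 →
    x * y = y * x → y * z = z * y → x * z = z * x
  edge : ∀ u v : V, T.Adj u v → ∀ x y : G, x • u = u → x • v = v → y • u = u → y • v = v →
    x * y = y * x
  quo : ∀ (v : V) (x : G), x • v = v → x ≠ 1 → ∀ S : Subgroup G,
    (∀ g ∈ S, g • v = v ∧ g * x * g⁻¹ * x = x * (g * x * g⁻¹)) →
    ∃ (Q : Type) (_ : Group Q) (f : S →* Q), C Q ∧ ∀ s : S, f s = 1 ↔ (s : G) * x = x * s

/-- the family of the centralizers -/
def S_CT : Prop := ∀ (C : ∀ (G : Type) [Group G], Prop) (G V : Type) [Group G] [MulAction G V]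
  (T : SimpleGraph V), CT C G T → ∃ 𝓐 : V → Set (Subgroup G), TIF C 1 T 𝓐

/-- `g` commutes with the elements of a subgroup of finite index of the stabilizer of `v` -/
def FZ {G V : Type} [Group G] [MulAction G V] (v : V) (g : G) : Prop :=
  (Subgroup.centralizer {g}).relIndex (MulAction.stabilizer G v) ≠ 0

/-- in groups with finite conjugacy classes the product of elements of finite order and the
commutators have finite order -/
def S_FC : Prop := ∀ (M : Type) [Group M],
  (∀ g : M, (Subgroup.centralizer {g}).index ≠ 0) →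
    (∀ x y : M, IsOfFinOrder x → IsOfFinOrder y → IsOfFinOrder (x * y)) ∧
    ∀ x y : M, IsOfFinOrder (x * y * x⁻¹ * y⁻¹)

/-- in the situation of the theorem the condition `FZ` does not depend on the vertex -/
def S_FZ : Prop := ∀ (G V : Type) [Group G] [MulAction G V] (T : SimpleGraph V), T.IsTree →
  (∀ u v : V, T.Adj u v →
    (MulAction.stabilizer G u).relIndex (MulAction.stabilizer G v) ≠ 0) →
  ∀ (u v : V) (g : G), FZ u g → FZ v g

/-- **the theorem on commensurable vertex stabilizers** -/
def S_COM : Prop := ∀ C : ∀ (G : Type) [Group G], Prop, ClosedE C →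
  (∀ (G : Type) [Group G], derivedSeries G 2 = ⊥ → C G) →
  ∀ (G V : Type) [Group G] [MulAction G V] (T : SimpleGraph V), T.IsTree →
  (∀ (g : G) (u v : V), T.Adj u v → T.Adj (g • u) (g • v)) →
  (∀ u v : V, T.Adj u v →
    (MulAction.stabilizer G u).relIndex (MulAction.stabilizer G v) ≠ 0) →
  ∀ (K : Subgroup G) [K.Normal], (∀ g ∈ K, ∃ v : V, FZ v g) → C (G ⧸ K) →
  ((∀ v : V, ∀ g ∈ K, g • v = v → IsOfFinOrder g → g = 1) ∨
    (AcylF C ∧ ∀ v : V, {g : G | g ∈ K ∧ g • v = v ∧ IsOfFinOrder g}.Finite)) → C G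

end Pool.Agent.N508.CS
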