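import Pool.Agent.N508.CS.Stm4
import Pool.Agent.N77.CP.Stm

/-!
# Edge groups which are commensurable or have small intersection

Owner helper508 (project CS, sixth part).
-/

set_option autoImplicit false

namespace Pool.Agent.N508.CS

open SimpleGraph
open Pool.Agent.Y110.FJ
open Pool.Agent.N509.TK
open Pool.Agent.N509.TX

/-- the stabilizer of an edge -/
def Ed (G : Type) {V : Type} [Group G] [MulAction G V] (v u : V) : Subgroup G :=
  MulAction.stabilizer G v ⊓ MulAction.stabilizer G u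

/-- commensurable subgroups -/
def Cm {G : Type} [Group G] (A B : Subgroup G) : Prop := A.relIndex B ≠ 0 ∧ B.relIndex A ≠ 0

/-- `int`: the stabilizers of two edges at a vertex are commensurable or have at most `n` common
elements. `fin`: an infinite edge stabilizer has finite index in its commensurator in the stabilizer of
the vertex -/
structure CmE (n : ℕ) (G : Type) {V : Type} [Group G] [MulAction G V] (T : SimpleGraph V) :
    Prop where
  int : ∀ v u w : V, T.Adj v u → T.Adj v w →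
    Cm (Ed G v u) (Ed G v w) ∨ ¬ Big n (Ed G v u ⊓ Ed G v w)
  fin : ∀ v u : V, T.Adj v u → Infinite (Ed G v u) → ∀ S : Subgroup G,
    (∀ g ∈ S, g • v = v ∧ Cm (Ed G v u) (Ed G v (g • u))) → (Ed G v u).relIndex S ≠ 0

/-- the condition on the edge groups: virtually torsion-free polycyclic, or the groups which
commensurate `E` map to groups of the class such that the elements of the kernel centralize
subgroups of finite index of `E` -/
def EC (C : ∀ (G : Type) [Group G], Prop) {G : Type} [Group G] (E : Subgroup G) : Prop :=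
  ((∀ m : ℕ, C (Matrix.GeneralLinearGroup (Fin m) ℚ)) ∧
    ∃ P : Subgroup G, P ≤ E ∧ P.relIndex E ≠ 0 ∧ Group.IsSolvable P ∧
      (∀ H : Subgroup P, H.FG) ∧ ∀ (x : P) (n : ℕ), 0 < n → x ^ n = 1 → x = 1) ∨
  ({g : G | g ∈ E ∧ IsOfFinOrder g ∧ (Subgroup.centralizer {g}).relIndex E ≠ 0}.Finite ∧
    ∀ K : Subgroup G, E ≤ K →
      (∀ k ∈ K, (E.map (MulAut.conj k).toMonoidHom).relIndex E ≠ 0) →
      ∃ (Q : Type) (_ : Group Q) (ρ : K →* Q), C Q ∧
        ∀ k : K, ρ k = 1 → (Subgroup.centralizer {(k : G)}).relIndex E ≠ 0)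

/-- groups with finite conjugacy classes as vertex stabilizers of a normal subgroup -/
def S_FCM : Prop := ∀ C : ∀ (G : Type) [Group G], Prop, ClosedE C →
  (∀ (G : Type) [Group G], derivedSeries G 2 = ⊥ → C G) →
  ∀ (G V : Type) [Group G] [MulAction G V] (T : SimpleGraph V), T.IsTree →
  (∀ (g : G) (u v : V), T.Adj u v → T.Adj (g • u) (g • v)) →
  ∀ (K : Subgroup G) [K.Normal], C (G ⧸ K) →
  (∀ v : V, ∀ g ∈ K, g • v = v →
    (Subgroup.centralizer {g}).relIndex (K ⊓ MulAction.stabilizer G v) ≠ 0) →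
  ((∀ v : V, ∀ g ∈ K, g • v = v → IsOfFinOrder g → g = 1) ∨
    (AcylF C ∧ ∀ v : V, {g : G | g ∈ K ∧ g • v = v ∧ IsOfFinOrder g}.Finite)) → C G

/-- the homomorphism and the elements of finite order in both cases of the condition `EC` -/
def S_RHO : Prop := ∀ C : ∀ (G : Type) [Group G], Prop, ClosedE C →
  (∀ (G : Type) [Group G], derivedSeries G 2 = ⊥ → C G) →
  ∀ (G : Type) [Group G] (E K : Subgroup G), EC C E → E ≤ K →
    (∀ k ∈ K, (E.map (MulAut.conj k).toMonoidHom).relIndex E ≠ 0) →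
    (∃ (Q : Type) (_ : Group Q) (ρ : K →* Q), C Q ∧
      ∀ k : K, ρ k = 1 → (Subgroup.centralizer {(k : G)}).relIndex E ≠ 0) ∧
    {g : G | g ∈ E ∧ IsOfFinOrder g ∧ (Subgroup.centralizer {g}).relIndex E ≠ 0}.Finite

/-- the stabilizers of cylinders -/
def S_CCY : Prop := ∀ C : ∀ (G : Type) [Group G], Prop, ClosedE C →
  (∀ (G : Type) [Group G], derivedSeries G 2 = ⊥ → C G) → AcylF C →
  ∀ (n : ℕ) (G V : Type) [Group G] [MulAction G V] (T : SimpleGraph V), T.IsTree →
  (∀ (g : G) (u v : V), T.Adj u v → T.Adj (g • u) (g • v)) →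
  (∀ v : V, C ↥(MulAction.stabilizer G v)) → CmE n G T →
  (∀ v u : V, T.Adj v u → Infinite (Ed G v u) → EC C (Ed G v u)) →
  ∀ (K : Subgroup G) (W : Type) [MulAction K W] (T' : SimpleGraph W) (ι : W → V),
    STree K T T' ι →
    (∀ w a b : W, T'.Adj w a → T'.Adj w b → Cm (Ed G (ι w) (ι a)) (Ed G (ι w) (ι b))) →
    (∀ w a : W, T'.Adj w a → Ed G (ι w) (ι a) ≤ K) → C K

/-- the theorem on cylinders for arbitrary groups -/
def S_CYF : Prop := ∀ C : ∀ (G : Type) [Group G], Prop, ClosedE C → AcylF C →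
  ∀ (n : ℕ) (G V : Type) [Group G] [MulAction G V] (T : SimpleGraph V) (r : V → V → V → Prop),
  T.IsTree → ∀ hact : ∀ (g : G) (u v : V), T.Adj u v → T.Adj (g • u) (g • v), LR G T r →
  (∀ w a b : V, T.Adj w a → T.Adj w b → ¬ r w a b →
    ∀ F : Finset G, (∀ g ∈ F, g • w = w ∧ g • a = a ∧ g • b = b) → F.card ≤ n) →
  (∀ v : V, C ↥(MulAction.stabilizer G v)) →
  (∀ (y : Cyl T r) (K : Subgroup G), (∀ g ∈ K, Pres hact y g) → C K) → C G

/-- **the theorem on edge groups which are commensurable or have small intersection** -/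
def S_CC : Prop := ∀ C : ∀ (G : Type) [Group G], Prop, ClosedE C →
  (∀ (G : Type) [Group G], derivedSeries G 2 = ⊥ → C G) → AcylF C →
  ∀ (n : ℕ) (G V : Type) [Group G] [MulAction G V] (T : SimpleGraph V), T.IsTree →
  (∀ (g : G) (u v : V), T.Adj u v → T.Adj (g • u) (g • v)) →
  (∀ v : V, C ↥(MulAction.stabilizer G v)) → CmE n G T →
  (∀ v u : V, T.Adj v u → Infinite (Ed G v u) → EC C (Ed G v u)) → C G

end Pool.Agent.N508.CS
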