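import Pool.Agent.N508.CS.Stm6

/-!
# Edge groups commensurable with normal subgroups of their commensurators

Owner helper508 (project CS, seventh part).
-/

set_option autoImplicit false

namespace Pool.Agent.N508.CS

open SimpleGraph
open Pool.Agent.Y110.FJ
open Pool.Agent.N509.TK
open Pool.Agent.N509.TX

/-- the quotient by the group generated by a compatible family -/
def S_Q1 : Prop := ∀ C : ∀ (G : Type) [Group G], Prop, ClosedE C →
  (∀ (G : Type) [Group G], derivedSeries G 2 = ⊥ → C G) →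
  ∀ (G V : Type) [Group G] [MulAction G V] (T : SimpleGraph V), T.IsTree →
  (∀ (g : G) (u v : V), T.Adj u v → T.Adj (g • u) (g • v)) →
  ∀ (K : Subgroup G) [K.Normal], C (G ⧸ K) →
  ∀ A : V → Subgroup G, CFam T A → (∀ v, A v ≤ Sb K v) → StepV C A (fun v => Sb K v) →
    StepH T A (fun v => Sb K v) →
    ∀ (N : Subgroup G) [N.Normal], N = (⨆ v, A v) → C (G ⧸ N)

/-- `int`: the stabilizers `E` of two edges at a vertex are commensurable or have at most `n` common
elements. For edges `v u` with infinite stabilizer `E`, `A v u` is a subgroup of the stabilizer of `v`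
(`fix`) which contains `E` (`le`) with finite index (`fin`), it is equivariant (`eqv`), the same for
commensurable edge stabilizers (`cls`), and the quotient by it of the commensurator of `E` in the
stabilizer of `v` embeds in a group of the class (`quo`) -/
structure CmA (C : ∀ (G : Type) [Group G], Prop) (n : ℕ) {G V : Type} [Group G] [MulAction G V]
    (T : SimpleGraph V) (A : V → V → Subgroup G) : Prop where
  int : ∀ v u w : V, T.Adj v u → T.Adj v w →
    Cm (Ed G v u) (Ed G v w) ∨ ¬ Big n (Ed G v u ⊓ Ed G v w)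
  fix : ∀ v u : V, T.Adj v u → Infinite (Ed G v u) → ∀ a ∈ A v u, a • v = v
  le : ∀ v u : V, T.Adj v u → Infinite (Ed G v u) → Ed G v u ≤ A v u
  fin : ∀ v u : V, T.Adj v u → Infinite (Ed G v u) → (Ed G v u).relIndex (A v u) ≠ 0
  eqv : ∀ (g : G) (v u : V), T.Adj v u → Infinite (Ed G v u) → ∀ a ∈ A v u,
    g * a * g⁻¹ ∈ A (g • v) (g • u)
  cls : ∀ v u w : V, T.Adj v u → T.Adj v w → Infinite (Ed G v u) →
    Cm (Ed G v u) (Ed G v w) → A v u = A v w
  quo : ∀ v u : V, T.Adj v u → Infinite (Ed G v u) → ∀ S : Subgroup G,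
    (∀ g ∈ S, g • v = v ∧ Cm (Ed G v u) (Ed G v (g • u))) →
    ∃ (Q : Type) (_ : Group Q) (f : S →* Q), C Q ∧ ∀ s : S, f s = 1 ↔ (s : G) ∈ A v u

/-- the stabilizers of cylinders -/
def S_CAY : Prop := ∀ C : ∀ (G : Type) [Group G], Prop, ClosedE C →
  (∀ (G : Type) [Group G], derivedSeries G 2 = ⊥ → C G) → AcylF C →
  ∀ (n : ℕ) (G V : Type) [Group G] [MulAction G V] (T : SimpleGraph V), T.IsTree →
  (∀ (g : G) (u v : V), T.Adj u v → T.Adj (g • u) (g • v)) →
  (∀ v : V, C ↥(MulAction.stabilizer G v)) → ∀ A : V → V → Subgroup G, CmA C n T A →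
  (∀ v u : V, T.Adj v u → Infinite (Ed G v u) → EC C (Ed G v u)) →
  ∀ (K : Subgroup G) (W : Type) [MulAction K W] (T' : SimpleGraph W) (ι : W → V),
    STree K T T' ι →
    (∀ w a b : W, T'.Adj w a → T'.Adj w b → Cm (Ed G (ι w) (ι a)) (Ed G (ι w) (ι b))) →
    (∀ w a : W, T'.Adj w a → Ed G (ι w) (ι a) ≤ K) → C K

/-- **the theorem on edge groups commensurable with normal subgroups of their commensurators** -/
def S_CA : Prop := ∀ C : ∀ (G : Type) [Group G], Prop, ClosedE C →
  (∀ (G : Type) [Group G], derivedSeries G 2 = ⊥ → C G) → AcylF C →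
  ∀ (n : ℕ) (G V : Type) [Group G] [MulAction G V] (T : SimpleGraph V), T.IsTree →
  (∀ (g : G) (u v : V), T.Adj u v → T.Adj (g • u) (g • v)) →
  (∀ v : V, C ↥(MulAction.stabilizer G v)) → ∀ A : V → V → Subgroup G, CmA C n T A →
  (∀ v u : V, T.Adj v u → Infinite (Ed G v u) → EC C (Ed G v u)) → C G

end Pool.Agent.N508.CS
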