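import Pool.Agent.N508.CS.Stm7

/-!
# Edge groups which are equal or have small intersection, and commensurable nilpotent stabilizers

Owner helper508 (project CS, tenth part).
-/

set_option autoImplicit false

namespace Pool.Agent.N508.CS

open SimpleGraph
open Pool.Agent.Y110.FJ
open Pool.Agent.N509.TK
open Pool.Agent.N509.TX

/-- `int`: the stabilizers `E` of two edges at a vertex `v` are equal or have at most `n` common
elements. For `E` with more than `n` elements the quotient `N(E) / E` embeds in a group of the class,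
where `N(E)` is the normalizer in the stabilizer of `v` (`quo`), and the groups `E ⟨x⟩` with `x` in the
normalizer of `E` in `G` are in the class (`cyc`) -/
structure NEd (C : ∀ (G : Type) [Group G], Prop) (n : ℕ) (G : Type) {V : Type} [Group G]
    [MulAction G V] (T : SimpleGraph V) : Prop where
  int : ∀ v u w : V, T.Adj v u → T.Adj v w →
    Ed G v u = Ed G v w ∨ ¬ Big n (Ed G v u ⊓ Ed G v w)
  quo : ∀ v u : V, T.Adj v u → Big n (Ed G v u) → ∀ S : Subgroup G,
    (∀ g ∈ S, g • v = v ∧ Ed G v (g • u) = Ed G v u) →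
    ∃ (Q : Type) (_ : Group Q) (f : S →* Q), C Q ∧ ∀ s : S, f s = 1 ↔ (s : G) ∈ Ed G v u
  cyc : ∀ v u : V, T.Adj v u → Big n (Ed G v u) → ∀ x : G,
    (Ed G v u).map (MulAut.conj x).toMonoidHom = Ed G v u → C ↥(Ed G v u ⊔ Subgroup.zpowers x)

/-- the stabilizers of cylinders -/
def S_NEY : Prop := ∀ C : ∀ (G : Type) [Group G], Prop, ClosedE C →
  (∀ (G : Type) [Group G], derivedSeries G 2 = ⊥ → C G) → AcylF C →
  ∀ (n : ℕ) (G V : Type) [Group G] [MulAction G V] (T : SimpleGraph V), T.IsTree →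
  (∀ (g : G) (u v : V), T.Adj u v → T.Adj (g • u) (g • v)) →
  (∀ v : V, C ↥(MulAction.stabilizer G v)) → NEd C n G T →
  ∀ (K : Subgroup G) (W : Type) [MulAction K W] (T' : SimpleGraph W) (ι : W → V),
    STree K T T' ι →
    (∀ w a b : W, T'.Adj w a → T'.Adj w b → Ed G (ι w) (ι a) = Ed G (ι w) (ι b)) →
    (∀ w a : W, T'.Adj w a → Ed G (ι w) (ι a) ≤ K) → C K

/-- **the theorem on edge groups which are equal or have small intersection** -/
def S_NE : Prop := ∀ C : ∀ (G : Type) [Group G], Prop, ClosedE C →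
  (∀ (G : Type) [Group G], derivedSeries G 2 = ⊥ → C G) → AcylF C →
  ∀ (n : ℕ) (G V : Type) [Group G] [MulAction G V] (T : SimpleGraph V), T.IsTree →
  (∀ (g : G) (u v : V), T.Adj u v → T.Adj (g • u) (g • v)) →
  (∀ v : V, C ↥(MulAction.stabilizer G v)) → NEd C n G T → C G

/-- **commensurable torsion-free nilpotent stabilizers in a normal subgroup** -/
def S_NCR : Prop := ∀ C : ∀ (G : Type) [Group G], Prop, ClosedE C →
  (∀ (G : Type) [Group G], derivedSeries G 2 = ⊥ → C G) →
  ∀ (G V : Type) [Group G] [MulAction G V] (T : SimpleGraph V), T.IsTree →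
  (∀ (g : G) (u v : V), T.Adj u v → T.Adj (g • u) (g • v)) →
  ∀ (K : Subgroup G) [K.Normal], C (G ⧸ K) →
  (∀ u v : V, T.Adj u v →
    (K ⊓ MulAction.stabilizer G u).relIndex (K ⊓ MulAction.stabilizer G v) ≠ 0) →
  (∀ (v : V), ∀ g ∈ K, g • v = v → IsOfFinOrder g → g = 1) →
  ∀ c : ℕ, (∀ v : V,
    Subgroup.upperCentralSeries ↥(K ⊓ MulAction.stabilizer G v) c = ⊤) → C G

end Pool.Agent.N508.CS
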