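import Pool.Agent.N508.CS.Stm6

/-!
# Edge groups whose elements are detected by homomorphisms and by the first homology

Owner helper508 (project CS, eleventh part).
-/

set_option autoImplicit false

namespace Pool.Agent.N508.CS

open SimpleGraph
open Pool.Agent.Y110.FJ
open Pool.Agent.N509.TK
open Pool.Agent.N509.TX

/-- the descending chains `L 0 ≥ L 1 ≥ ...` of subgroups of `E` with elements `x i ∈ L i`, no positive
power of which is in `L (i + 1)`, have at most `n` steps -/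
def FR {G : Type} [Group G] (n : ℕ) (E : Subgroup G) : Prop :=
  ∀ (k : ℕ) (L : ℕ → Subgroup G) (x : ℕ → G), L 0 ≤ E → (∀ i, L (i + 1) ≤ L i) →
    (∀ i < k, x i ∈ L i ∧ ∀ m : ℕ, 0 < m → x i ^ m ∉ L (i + 1)) → k ≤ n

/-- `E` satisfies the chain condition, or is virtually polycyclic -/
def FRP {G : Type} [Group G] (E : Subgroup G) : Prop :=
  (∃ n : ℕ, FR n E) ∨
    ∃ P : Subgroup G, P ≤ E ∧ P.relIndex E ≠ 0 ∧ Group.IsSolvable P ∧ ∀ H : Subgroup P, H.FG

/-- one homomorphism for all elements of an edge group -/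
def S_EA : Prop := ∀ C : ∀ (G : Type) [Group G], Prop, ClosedE C →
  ∀ (H V : Type) [Group H] [MulAction H V] (v u : V) (n : ℕ), FR n (Ed H v u) →
    (∀ x ∈ Ed H v u, IsOfFinOrder x → x = 1) →
    (∀ x ∈ Ed H v u, x ≠ 1 → ∃ (P : Type) (_ : Group P) (f : H →* P), C P ∧
      ∀ m : ℕ, 0 < m → f x ^ m = 1 → x ^ m ∉ ⁅Sb f.ker v, Sb f.ker v⁆) →
    ∃ (P : Type) (_ : Group P) (f : H →* P), C P ∧
      ∀ x : H, x • v = v → x • u = u → x ∈ ⁅Sb f.ker v, Sb f.ker v⁆ → x = 1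

/-- the chain condition for virtually polycyclic groups and for subgroups -/
def S_FRP : Prop := ∀ (G : Type) [Group G] (E : Subgroup G), FRP E →
  ∃ n : ℕ, FR n E ∧ ∀ H E' : Subgroup G, E' ≤ E → FR n (E'.subgroupOf H)

/-- **elementwise detection of edge groups** -/
def S_EH : Prop := ∀ C : ∀ (G : Type) [Group G], Prop, ClosedE C →
  (∀ (G : Type) [Group G], derivedSeries G 2 = ⊥ → C G) →
  ∀ (G V : Type) [Group G] [MulAction G V] (T : SimpleGraph V), T.IsTree →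
  (∀ (g : G) (u v : V), T.Adj u v → T.Adj (g • u) (g • v)) →
  ∀ (K : Subgroup G) [K.Normal], C (G ⧸ K) →
  (∀ (g : G) (v : V), C ↥(MulAction.stabilizer ↥(K ⊔ Subgroup.zpowers g) v)) →
  (∀ v u : V, T.Adj v u → FRP (Ed G v u) ∧ ∀ x ∈ Ed G v u, IsOfFinOrder x → x = 1) →
  (∀ (g : G) (v u : V), T.Adj v u → ∀ x : ↥(K ⊔ Subgroup.zpowers g), x • v = v → x • u = u →
    x ≠ 1 → ∃ (P : Type) (_ : Group P) (f : ↥(K ⊔ Subgroup.zpowers g) →* P), C P ∧
      ∀ m : ℕ, 0 < m → f x ^ m = 1 → x ^ m ∉ ⁅Sb f.ker v, Sb f.ker v⁆) → C G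

end Pool.Agent.N508.CS
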