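import Pool.Agent.N508.CS.StmB

/-!
# Edge groups detected by homomorphisms of their commensurators

Owner helper508 (project CS, twelfth part).
-/

set_option autoImplicit false

namespace Pool.Agent.N508.CS

open SimpleGraph
open Pool.Agent.Y110.FJ
open Pool.Agent.N509.TK
open Pool.Agent.N509.TX

/-- `int`: the stabilizers of two edges at a vertex are commensurable or have at most `n` common
elements. `edge`: the edge stabilizers are torsion-free and satisfy the chain condition. `det`: for all
groups `M` which contain the stabilizer of the edge `v u` and commensurate it, and all `x ≠ 1` in this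
stabilizer there is a homomorphism `f` from `M` to a group of the class such that no positive power of
`x` in the kernel of `f` is in the commutator subgroup of the stabilizer of `v` in the kernel -/
structure DCm (C : ∀ (G : Type) [Group G], Prop) (n : ℕ) (G : Type) {V : Type} [Group G]
    [MulAction G V] (T : SimpleGraph V) : Prop where
  int : ∀ v u w : V, T.Adj v u → T.Adj v w →
    Cm (Ed G v u) (Ed G v w) ∨ ¬ Big n (Ed G v u ⊓ Ed G v w)
  edge : ∀ v u : V, T.Adj v u → FRP (Ed G v u) ∧ ∀ x ∈ Ed G v u, IsOfFinOrder x → x = 1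
  det : ∀ v u : V, T.Adj v u → ∀ M : Subgroup G, Ed G v u ≤ M →
    (∀ g ∈ M, Cm (Ed G v u) (Ed G (g • v) (g • u))) →
    ∀ x : M, x • v = v → x • u = u → x ≠ 1 →
    ∃ (P : Type) (_ : Group P) (f : M →* P), C P ∧
      ∀ m : ℕ, 0 < m → f x ^ m = 1 → x ^ m ∉ ⁅Sb f.ker v, Sb f.ker v⁆

/-- the stabilizers of cylinders -/
def S_DCY : Prop := ∀ C : ∀ (G : Type) [Group G], Prop, ClosedE C →
  (∀ (G : Type) [Group G], derivedSeries G 2 = ⊥ → C G) →
  ∀ (n : ℕ) (G V : Type) [Group G] [MulAction G V] (T : SimpleGraph V), T.IsTree →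
  (∀ (g : G) (u v : V), T.Adj u v → T.Adj (g • u) (g • v)) →
  (∀ v : V, C ↥(MulAction.stabilizer G v)) → DCm C n G T →
  ∀ (K : Subgroup G) (W : Type) [MulAction K W] (T' : SimpleGraph W) (ι : W → V),
    STree K T T' ι →
    (∀ w a b : W, T'.Adj w a → T'.Adj w b → Cm (Ed G (ι w) (ι a)) (Ed G (ι w) (ι b))) →
    (∀ w a : W, T'.Adj w a → Ed G (ι w) (ι a) ≤ K) → C K

/-- **edge groups detected on their commensurators** -/
def S_DC : Prop := ∀ C : ∀ (G : Type) [Group G], Prop, ClosedE C →
  (∀ (G : Type) [Group G], derivedSeries G 2 = ⊥ → C G) → AcylF C →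
  ∀ (n : ℕ) (G V : Type) [Group G] [MulAction G V] (T : SimpleGraph V), T.IsTree →
  (∀ (g : G) (u v : V), T.Adj u v → T.Adj (g • u) (g • v)) →
  (∀ v : V, C ↥(MulAction.stabilizer G v)) → DCm C n G T → C G

end Pool.Agent.N508.CS
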