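import Pool.Agent.N508.CS.Stm6
import Pool.Agent.R684.FP.Free

/-!
# Kernels which act on trees

Owner helper508 (project CS, fourteenth part). `N` is a normal subgroup of `G` which acts on a tree; the
action need not extend to `G`.
-/

set_option autoImplicit false

namespace Pool.Agent.N508.CS

open SimpleGraph
open Pool.Agent.Y110.FJ
open Pool.Agent.N509.TK
open Pool.Agent.N509.TX
open Pool.Agent.R684.FP (FbC)

/-- a group that acts on a tree without inversions is free modulo the group generated by the vertex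
stabilizers -/
def S_TFR : Prop := ∀ (H V : Type) [Group H] [MulAction H V] (T : SimpleGraph V), T.IsTree →
  (∀ (g : H) (u v : V), T.Adj u v → T.Adj (g • u) (g • v)) →
  (∀ (g : H) (u v : V), T.Adj u v → ¬ (g • u = v ∧ g • v = u)) →
  ∀ (P : Subgroup H) [P.Normal], P = (⨆ v : V, MulAction.stabilizer H v) → IsFreeGroup (H ⧸ P)

/-- the commutator subgroup of the group generated by the groups `B v` is free modulo the group
generated by the groups `A v`, if the quotients `B v / A v` are abelian -/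
def S_AFR : Prop := ∀ (H V : Type) [Group H] [MulAction H V] (T : SimpleGraph V), T.IsTree →
  (∀ (g : H) (u v : V), T.Adj u v → T.Adj (g • u) (g • v)) →
  ∀ A B : V → Subgroup H, CFam T A → CFam T B → (∀ v, A v ≤ B v) → (∀ v, ⁅B v, B v⁆ ≤ A v) →
  ∀ (P M : Subgroup H) [P.Normal], P = (⨆ v, A v) → M = (⨆ v, B v) →
    IsFreeGroup ↥(⁅M, M⁆.map (QuotientGroup.mk' P))

/-- the step for groups -/
def S_PST : Prop := ∀ C : ∀ (G : Type) [Group G], Prop, ClosedE C →
  (∀ (G : Type) [Group G], derivedSeries G 2 = ⊥ → C G) → FbC C →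
  ∀ (G : Type) [Group G] (N : Subgroup G) (P M : Subgroup N) [P.Normal]
    (X Y : Subgroup G) [X.Normal] [Y.Normal], X = P.map N.subtype → Y = M.map N.subtype → P ≤ M →
    IsFreeGroup ↥(⁅M, M⁆.map (QuotientGroup.mk' P)) → C (G ⧸ Y) → C (G ⧸ X)

/-- `A i v`, `i ≤ m`, are compatible series of the vertex stabilizers in `N` with abelian factors;
conjugation with elements of `G` maps elements of the groups `A i v` to elements of groups `A i w` -/
structure KSer (m : ℕ) {G V : Type} [Group G] (N : Subgroup G) [MulAction N V] (T : SimpleGraph V)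
    (A : ℕ → V → Subgroup N) : Prop where
  fam : ∀ i ≤ m, CFam T (A i)
  bot : ∀ v, A 0 v = ⊥
  top : ∀ v, A m v = MulAction.stabilizer N v
  mono : ∀ i < m, ∀ v, A i v ≤ A (i + 1) v
  abel : ∀ i < m, ∀ v, ⁅A (i + 1) v, A (i + 1) v⁆ ≤ A i v
  inv : ∀ i ≤ m, ∀ (g : G) (v : V), ∀ a ∈ A i v,
    ∃ (w : V) (b : N), b ∈ A i w ∧ (b : G) = g * (a : G) * g⁻¹

/-- **kernels which act on trees: compatible series with abelian factors** -/
def S_KTR : Prop := ∀ C : ∀ (G : Type) [Group G], Prop, ClosedE C →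
  (∀ (G : Type) [Group G], derivedSeries G 2 = ⊥ → C G) → FbC C →
  ∀ (G V : Type) [Group G] (N : Subgroup G) [N.Normal] [MulAction N V] (T : SimpleGraph V),
  T.IsTree → (∀ (g : N) (u v : V), T.Adj u v → T.Adj (g • u) (g • v)) →
  (∀ (g : N) (u v : V), T.Adj u v → ¬ (g • u = v ∧ g • v = u)) →
  ∀ (m : ℕ) (A : ℕ → V → Subgroup N), KSer m N T A → C (G ⧸ N) → C G

/-- **abelian vertex stabilizers**: conjugation with elements of `G` maps the elements of `N` which fix
a vertex to such elements -/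
def S_KAB : Prop := ∀ C : ∀ (G : Type) [Group G], Prop, ClosedE C →
  (∀ (G : Type) [Group G], derivedSeries G 2 = ⊥ → C G) → FbC C →
  ∀ (G V : Type) [Group G] (N : Subgroup G) [N.Normal] [MulAction N V] (T : SimpleGraph V),
  T.IsTree → (∀ (g : N) (u v : V), T.Adj u v → T.Adj (g • u) (g • v)) →
  (∀ (g : N) (u v : V), T.Adj u v → ¬ (g • u = v ∧ g • v = u)) →
  (∀ (v : V) (x y : N), x • v = v → y • v = v → x * y = y * x) →
  (∀ (g : G) (v : V) (a b : N), a • v = v → (b : G) = g * (a : G) * g⁻¹ → ∃ w : V, b • w = w) →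
  C (G ⧸ N) → C G

/-- a power which fixes a vertex -/
def S_ELL : Prop := ∀ (H V : Type) [Group H] [MulAction H V] (T : SimpleGraph V), T.IsTree →
  (∀ (g : H) (u v : V), T.Adj u v → T.Adj (g • u) (g • v)) →
  (∀ (g : H) (u v : V), T.Adj u v → ¬ (g • u = v ∧ g • v = u)) →
  ∀ (b : H) (v : V) (k : ℕ), 0 < k → b ^ k • v = v → ∃ w : V, b • w = w

/-- the vertex stabilizers in `N`, as subgroups of `G` -/
def Sv {G V : Type} [Group G] (N : Subgroup G) [MulAction N V] (v : V) : Subgroup G :=
  (MulAction.stabilizer N v).map N.subtype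

/-- the vertex stabilizers in `N` are torsion-free and commensurable, and the conjugates in `G` are
commensurable with them -/
structure KCm {G V : Type} [Group G] (N : Subgroup G) [MulAction N V] (T : SimpleGraph V) :
    Prop where
  tf : ∀ (v : V) (x : N), x • v = v → IsOfFinOrder x → x = 1
  com : ∀ u v : V, T.Adj u v → (Sv N u).relIndex (Sv N v) ≠ 0
  inv : ∀ (g : G) (v : V), ((Sv N v).map (MulAut.conj g).toMonoidHom).relIndex (Sv N v) ≠ 0

/-- **nilpotent vertex stabilizers** -/
def S_KNL : Prop := ∀ C : ∀ (G : Type) [Group G], Prop, ClosedE C →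
  (∀ (G : Type) [Group G], derivedSeries G 2 = ⊥ → C G) → FbC C →
  ∀ (G V : Type) [Group G] (N : Subgroup G) [N.Normal] [MulAction N V] (T : SimpleGraph V),
  T.IsTree → (∀ (g : N) (u v : V), T.Adj u v → T.Adj (g • u) (g • v)) →
  (∀ (g : N) (u v : V), T.Adj u v → ¬ (g • u = v ∧ g • v = u)) → KCm N T →
  ∀ c : ℕ, (∀ v : V, Subgroup.upperCentralSeries ↥(MulAction.stabilizer N v) c = ⊤) →
  C (G ⧸ N) → C G

/-- **virtually polycyclic vertex stabilizers** -/
def S_KVC : Prop := ∀ C : ∀ (G : Type) [Group G], Prop, ClosedE C →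
  (∀ (G : Type) [Group G], derivedSeries G 2 = ⊥ → C G) → FbC C →
  ∀ (G V : Type) [Group G] (N : Subgroup G) [N.Normal] [MulAction N V] (T : SimpleGraph V),
  T.IsTree → (∀ (g : N) (u v : V), T.Adj u v → T.Adj (g • u) (g • v)) →
  (∀ (g : N) (u v : V), T.Adj u v → ¬ (g • u = v ∧ g • v = u)) → KCm N T →
  (∀ v : V, EC C (Sv N v)) → C (G ⧸ N) → C G

end Pool.Agent.N508.CS
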