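import Pool.Agent.N508.CS.StmE

/-!
# Kernels which act on trees: vertex groups permuted by the group

Owner helper508 (project CS, fifteenth part).
-/

set_option autoImplicit false

namespace Pool.Agent.N508.CS

open SimpleGraph
open Pool.Agent.Y110.FJ
open Pool.Agent.N509.TK
open Pool.Agent.N509.TX
open Pool.Agent.R684.FP (FbC)

/-- trivial edge stabilizers: `G` permutes the vertex stabilizers of its normal subgroup `N` -/
def S_TRV : Prop := ∀ C : ∀ (G : Type) [Group G], Prop, ClosedE C → FbC C →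
  ∀ (G V : Type) [Group G] (N : Subgroup G) [N.Normal] [MulAction N V] (T : SimpleGraph V),
  T.IsTree → (∀ (g : N) (u v : V), T.Adj u v → T.Adj (g • u) (g • v)) →
  (∀ (g : N) (u v : V), T.Adj u v → ¬ (g • u = v ∧ g • v = u)) →
  (∀ u v : V, T.Adj u v → ∀ x : N, x • u = u → x • v = v → x = 1) →
  (∀ (g : G) (v : V), ∃ w : V, ∀ x y : N, (y : G) = g * (x : G) * g⁻¹ →
    (x • v = v ↔ y • w = w)) →
  (∀ (v : V) (g : G), (∀ x y : N, (y : G) = g * (x : G) * g⁻¹ → (x • v = v ↔ y • v = v)) →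
    C ↥(Sv N v ⊔ Subgroup.zpowers g)) → C (G ⧸ N) → C G

/-- the quotient tree, with all its properties -/
def S_QW : Prop := ∀ (H V : Type) [Group H] [MulAction H V] (T : SimpleGraph V), T.IsTree →
  (∀ (g : H) (u v : V), T.Adj u v → T.Adj (g • u) (g • v)) →
  (∀ (g : H) (u v : V), T.Adj u v → ¬ (g • u = v ∧ g • v = u)) →
  ∀ A : V → Subgroup H, CFam T A → ∀ (P : Subgroup H) [P.Normal], P = (⨆ v, A v) →
    ∃ (W : Type) (_ : MulAction (H ⧸ P) W) (T' : SimpleGraph W) (ι : W → V), T'.IsTree ∧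
      (∀ (q : H ⧸ P) (u v : W), T'.Adj u v → T'.Adj (q • u) (q • v)) ∧
      (∀ (q : H ⧸ P) (u v : W), T'.Adj u v → ¬ (q • u = v ∧ q • v = u)) ∧
      (∀ u v : W, T'.Adj u v → T.Adj (ι u) (ι v)) ∧
      (∀ (w : W) (q : H ⧸ P), q • w = w ↔ ∃ g : H, g • ι w = ι w ∧ (g : H ⧸ P) = q) ∧
      (∀ u v : W, T'.Adj u v → ∀ q : H ⧸ P, q • u = u → q • v = v →
        ∃ g : H, g • ι u = ι u ∧ g • ι v = ι v ∧ (g : H ⧸ P) = q) ∧
      (∀ v : V, ∃ h ∈ P, ∃ w : W, v = h • ι w) ∧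
      ∀ (w w' : W), ∀ h ∈ P, h • ι w = ι w' → w = w'

/-- the groups `A v` contain the stabilizers of the edges at `v`; `G` permutes the vertex stabilizers
of its normal subgroup `N`; for `g` which normalizes the stabilizer `N_v` the quotient `N_v ⟨g⟩ / A v`
embeds in a group of the class -/
structure KPm (C : ∀ (G : Type) [Group G], Prop) {G V : Type} [Group G] (N : Subgroup G)
    [MulAction N V] (T : SimpleGraph V) (A : V → Subgroup N) : Prop where
  fam : CFam T A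
  edge : ∀ v u : V, T.Adj v u → ∀ x : N, x • v = v → x • u = u → x ∈ A v
  perm : ∀ (g : G) (v : V), ∃ w : V, ∀ x y : N, (y : G) = g * (x : G) * g⁻¹ →
    (x • v = v ↔ y • w = w)
  quo : ∀ (v : V) (g : G), (∀ x y : N, (y : G) = g * (x : G) * g⁻¹ → (x • v = v ↔ y • v = v)) →
    ∃ (Q : Type) (_ : Group Q) (f : ↥(Sv N v ⊔ Subgroup.zpowers g) →* Q), C Q ∧
      ∀ s, f s = 1 ↔ (s : G) ∈ (A v).map N.subtype

/-- the images of the groups `N_v ⟨g⟩` -/
def S_TRG : Prop := ∀ C : ∀ (G : Type) [Group G], Prop, ClosedE C →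
  ∀ (G V : Type) [Group G] (N : Subgroup G) [N.Normal] [MulAction N V] (T : SimpleGraph V),
  T.IsTree → (∀ (g : N) (u v : V), T.Adj u v → T.Adj (g • u) (g • v)) →
  ∀ A : V → Subgroup N, KPm C N T A →
  ∀ (X : Subgroup G) [X.Normal], X = (⨆ v, A v).map N.subtype →
  ∀ (v : V) (g : G), (∃ x : N, x • v = v ∧ x ∉ A v) →
    (∀ x y : N, (y : G) = g * (x : G) * g⁻¹ → (x • v = v ↔ y • v = v)) →
    C ↥((Sv N v ⊔ Subgroup.zpowers g).map (QuotientGroup.mk' X))

/-- the quotient by the group generated by the groups `A v` -/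
def S_TRQ : Prop := ∀ C : ∀ (G : Type) [Group G], Prop, ClosedE C → FbC C →
  ∀ (G V : Type) [Group G] (N : Subgroup G) [N.Normal] [MulAction N V] (T : SimpleGraph V),
  T.IsTree → (∀ (g : N) (u v : V), T.Adj u v → T.Adj (g • u) (g • v)) →
  (∀ (g : N) (u v : V), T.Adj u v → ¬ (g • u = v ∧ g • v = u)) →
  ∀ A : V → Subgroup N, KPm C N T A → C (G ⧸ N) →
  ∀ (X : Subgroup G) [X.Normal], X = (⨆ v, A v).map N.subtype → C (G ⧸ X)

/-- **kernels which act on trees, vertex stabilizers permuted by the group**: compatible series with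
abelian factors up to groups which contain the edge stabilizers -/
def S_KSE : Prop := ∀ C : ∀ (G : Type) [Group G], Prop, ClosedE C →
  (∀ (G : Type) [Group G], derivedSeries G 2 = ⊥ → C G) → FbC C →
  ∀ (G V : Type) [Group G] (N : Subgroup G) [N.Normal] [MulAction N V] (T : SimpleGraph V),
  T.IsTree → (∀ (g : N) (u v : V), T.Adj u v → T.Adj (g • u) (g • v)) →
  (∀ (g : N) (u v : V), T.Adj u v → ¬ (g • u = v ∧ g • v = u)) →
  ∀ (m : ℕ) (A : ℕ → V → Subgroup N), (∀ i ≤ m, CFam T (A i)) → (∀ v, A 0 v = ⊥) →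
    (∀ i < m, ∀ v, A i v ≤ A (i + 1) v ∧ ⁅A (i + 1) v, A (i + 1) v⁆ ≤ A i v) →
    (∀ i ≤ m, ∀ (g : G) (v : V), ∀ a ∈ A i v,
      ∃ (w : V) (b : N), b ∈ A i w ∧ (b : G) = g * (a : G) * g⁻¹) →
    KPm C N T (A m) → C (G ⧸ N) → C G

end Pool.Agent.N508.CS
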