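import Pool.Agent.N508.CS.StmF

/-!
# Kernels which act on trees: edge groups detected by finite and solvable quotients

Owner helper508 (project CS, sixteenth part).
-/

set_option autoImplicit false

namespace Pool.Agent.N508.CS

open SimpleGraph
open Pool.Agent.Y110.FJ
open Pool.Agent.N509.TK
open Pool.Agent.R684.FP (FbC)

/-- the quotient of `G` by the intersection `X` of the kernels of the homomorphisms from `N` to the
symmetric group of degree `k` and of the `s`-th derived subgroup of `N` -/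
def S_GD : Prop := ∀ C : ∀ (G : Type) [Group G], Prop, ClosedE C →
  (∀ (G : Type) [Group G], derivedSeries G 2 = ⊥ → C G) →
  ∀ (G : Type) [Group G] (N : Subgroup G) [N.Normal] (k s : ℕ) (X : Subgroup G) [X.Normal],
    (∀ x : G, x ∈ X ↔ ∃ n : N, (n : G) = x ∧ n ∈ derivedSeries N s ∧
      ∀ f : N →* Equiv.Perm (Fin k), f n = 1) → C (G ⧸ N) → C (G ⧸ X)

/-- **kernels which act on trees, edge groups detected by finite and solvable quotients** -/
def S_FED : Prop := ∀ C : ∀ (G : Type) [Group G], Prop, ClosedE C →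
  (∀ (G : Type) [Group G], derivedSeries G 2 = ⊥ → C G) → FbC C →
  ∀ (G V : Type) [Group G] (N : Subgroup G) [N.Normal] [MulAction N V] (T : SimpleGraph V),
  T.IsTree → (∀ (g : N) (u v : V), T.Adj u v → T.Adj (g • u) (g • v)) →
  (∀ (g : N) (u v : V), T.Adj u v → ¬ (g • u = v ∧ g • v = u)) →
  ∀ k s : ℕ, (∀ u v : V, T.Adj u v → ∀ x : N, x • u = u → x • v = v → x ≠ 1 →
    x ∉ derivedSeries N s ∨ ∃ f : N →* Equiv.Perm (Fin k), f x ≠ 1) →
  (∀ (g : G) (v : V), ∃ w : V, ∀ x y : N, (y : G) = g * (x : G) * g⁻¹ →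
    (x • v = v ↔ y • w = w)) →
  (∀ (v : V) (g : G), (∀ x y : N, (y : G) = g * (x : G) * g⁻¹ → (x • v = v ↔ y • v = v)) →
    C ↥(Sv N v ⊔ Subgroup.zpowers g)) → C (G ⧸ N) → C G

end Pool.Agent.N508.CS
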