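import Pool.Agent.N508.CS.Stm3
import Pool.Agent.N509.TX.Bal
import Pool.Agent.N509.TX.Kf

/-!
# Stabilizers of cylinders, abelian edge groups

Part CS3/TIC (helper717, after the file Cyl.lean).
-/

set_option autoImplicit false

namespace Pool.Agent.N508.CS

open SimpleGraph
open Pool.Agent.Y110.FJ
open Pool.Agent.N509.TK
open Pool.Agent.N509.TX

namespace Tic

theorem big_mono {G : Type} [Group G] {n : ℕ} {A B : Subgroup G} (h : Big n A) (hAB : A ≤ B) :
    Big n B := by
  obtain ⟨F, h1, h2⟩ := h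
  exact ⟨F, fun g hg => hAB (h1 g hg), h2⟩

/-- edge stabilizers -/
abbrev Eg (G : Type) {V : Type} [Group G] [MulAction G V] (v u : V) : Subgroup G :=
  MulAction.stabilizer G v ⊓ MulAction.stabilizer G u

theorem mem_Eg {G V : Type} [Group G] [MulAction G V] {v u : V} {g : G} :
    g ∈ Eg G v u ↔ g • v = v ∧ g • u = u := Iff.rfl

/-- the family -/
def At {G W : Type} [Group G] (K : Subgroup G) [MulAction K W] (M : W → Subgroup G) (w : W) :
    Subgroup K :=
  MulAction.stabilizer K w ⊓ (M w).subgroupOf K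

theorem mem_At {G W : Type} [Group G] {K : Subgroup G} [MulAction K W] {M : W → Subgroup G} {w : W}
    {k : K} : k ∈ At K M w ↔ k • w = w ∧ (k : G) ∈ M w := Iff.rfl

end Tic

open Tic

theorem t_tic : S_MAIN → S_ABEL → S_TIC := by
  intro hMain hAbel C hC hMet hAc n G V _ _ T hT hact hV 𝓐 h𝓐 K W _ T' ι hW hr
  have hVK : ∀ w : W, C ↥(MulAction.stabilizer K w) := by
    intro w
    rw [hW.stab w]
    exact C_stab hC K (ι w) (hV _)
  by_cases hne : ∃ x y, T'.Adj x y
  swap
  · obtain ⟨o⟩ := hW.tree.connected.nonempty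
    have h1 : ∀ w : W, w = o := by
      intro w
      obtain ⟨p⟩ := hW.tree.connected.preconnected w o
      cases p with
      | nil => rfl
      | cons h' _ => exact absurd ⟨_, _, h'⟩ hne
    refine hC.base.of_injective _ _ ((MonoidHom.id K).codRestrict (MulAction.stabilizer K o)
      (fun g => h1 (g • o))) ?_ (hVK o)
    intro a b hab
    exact congrArg Subtype.val hab
  obtain ⟨x0, y0, hxy0⟩ := hne
  have hnb := exists_nbr hW.tree hxy0
  have hmemE : ∀ (u v : W) (k : K), k • u = u → k • v = v → (k : G) ∈ Eg G (ι u) (ι v) := by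
    intro u v k hu hv
    exact ⟨hW.fix.1 hu, hW.fix.1 hv⟩
  by_cases hbig : ∀ w a : W, T'.Adj w a → Big n (Eg G (ι w) (ι a))
  swap
  · -- a single edge
    push Not at hbig
    obtain ⟨w0, a0, h0, hnb0⟩ := hbig
    have hcl : ∀ x y : W, T'.Adj x y → (x = w0 ∨ x = a0) → (y = w0 ∨ y = a0) := by
      rintro x y hxy (rfl | rfl)
      · rcases hr x a0 y h0 hxy with h | ⟨h, _⟩
        · exact Or.inr (hW.inj h).symm
        · exact absurd h hnb0
      · rcases hr x w0 y h0.symm hxy with h | ⟨h, _⟩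
        · exact Or.inl (hW.inj h).symm
        · exact absurd (by rw [inf_comm] at h; exact h) hnb0
    have hall : ∀ x : W, x = w0 ∨ x = a0 := by
      intro x
      obtain ⟨p⟩ := hW.tree.connected.preconnected w0 x
      have : ∀ (a b : W) (_ : T'.Walk a b), (a = w0 ∨ a = a0) → (b = w0 ∨ b = a0) := by
        intro a b p
        induction p with
        | nil => exact id
        | cons h' _ ih => exact fun h => ih (hcl _ _ h' h)
      exact this _ _ p (Or.inl rfl)
    refine kfin hC hMet hAc hW.tree hW.act (1 : K →* Multiplicative ℤ) hC.base.int hVK ?_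
    intro u v huv
    refine ⟨n, fun F hF => ?_⟩
    by_contra hcon
    push Not at hcon
    apply hnb0
    classical
    refine ⟨F.image (fun k : K => (k : G)), ?_, ?_⟩
    · intro g hg
      obtain ⟨k, hk, rfl⟩ := Finset.mem_image.1 hg
      obtain ⟨h1, h2, _⟩ := hF k hk
      rcases hall u with rfl | rfl
      · rcases hall v with rfl | rfl
        · exact absurd huv (T'.loopless.irrefl _)
        · exact hmemE _ _ k h1 h2
      · rcases hall v with rfl | rfl
        · exact hmemE _ _ k h2 h1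
        · exact absurd huv (T'.loopless.irrefl _)
    · rwa [Finset.card_image_of_injective _ Subtype.val_injective]
  -- all edge stabilizers are big
  choose nb hnb' using hnb
  have hM : ∀ w : W, ∃ A ∈ 𝓐 (ι w), Eg G (ι w) (ι (nb w)) ≤ A := fun w =>
    h𝓐.edge (ι w) (ι (nb w)) (hW.adj _ _ (hnb' w)) (hbig _ _ (hnb' w))
  choose M hM1 hM0 using hM
  have hM2 : ∀ w u : W, T'.Adj w u → Eg G (ι w) (ι u) ≤ M w := by
    intro w u hwu
    rcases hr w (nb w) u (hnb' w) hwu with h | ⟨_, _, A, hA, h1, h2⟩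
    · rw [← h]
      exact hM0 w
    · have h3 : M w = A := h𝓐.ti (ι w) (M w) (hM1 w) A hA
        (big_mono (hbig _ _ (hnb' w)) (le_inf (hM0 w) h1))
      rw [h3]
      exact h2
  have hM3 : ∀ (w u : W) (A : Subgroup G), T'.Adj w u → A ∈ 𝓐 (ι w) → Eg G (ι w) (ι u) ≤ A →
      A = M w := fun w u A hwu hA h1 =>
    h𝓐.ti (ι w) A hA (M w) (hM1 w) (big_mono (hbig _ _ hwu) (le_inf h1 (hM2 w u hwu)))
  have hMb : ∀ w : W, Big n (M w) := fun w => big_mono (hbig _ _ (hnb' w)) (hM0 w)
  have hMe : ∀ (g : K) (w : W), (M w).map (MulAut.conj (g : G)).toMonoidHom = M (g • w) := by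
    intro g w
    refine hM3 (g • w) (g • nb w) _ (hW.act g _ _ (hnb' w)) ?_ ?_
    · have h1 := h𝓐.eqv (g : G) (ι w) (M w) (hM1 w)
      rw [hW.eqv]
      exact h1
    · intro x hx
      obtain ⟨h1, h2⟩ := mem_Eg.1 hx
      rw [hW.eqv] at h1 h2
      have h1' : x • (g : G) • ι w = (g : G) • ι w := h1
      have h2' : x • (g : G) • ι (nb w) = (g : G) • ι (nb w) := h2
      refine ⟨(g : G)⁻¹ * x * g, hM0 w (mem_Eg.2 ⟨?_, ?_⟩), ?_⟩
      · rw [mul_smul, mul_smul, h1', inv_smul_smul]
      · rw [mul_smul, mul_smul, h2', inv_smul_smul]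
      · show (g : G) * ((g : G)⁻¹ * x * g) * (g : G)⁻¹ = x
        group
  have hedge : ∀ u v : W, T'.Adj u v → ∀ y : K, y • u = u → y • v = v → y ∈ At K M v := by
    intro u v huv y hu hv
    exact mem_At.2 ⟨hv, hM2 v u huv.symm (hmemE v u y hv hu)⟩
  have hCA : CFam T' (At K M) := by
    refine ⟨fun v a ha => (mem_At.1 ha).1, ?_, ?_⟩
    · intro g v a ha
      obtain ⟨h1, h2⟩ := mem_At.1 ha
      refine mem_At.2 ⟨conj_fix g h1, ?_⟩
      rw [← hMe g v]
      exact ⟨(a : G), h2, rfl⟩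
    · intro u v huv a ha hau
      exact hedge v u huv.symm a (mem_At.1 ha).1 hau
  have hC0 : CFam T' (fun _ : W => (⊥ : Subgroup K)) := by
    refine ⟨?_, ?_, ?_⟩
    · intro v a ha
      rw [Subgroup.mem_bot] at ha
      rw [ha, one_smul]
    · intro g v a ha
      rw [Subgroup.mem_bot] at ha
      rw [ha, Subgroup.mem_bot]
      group
    · intro u v _ a ha _
      exact ha
  have hC2 : CFam T' (fun v : W => Sb (⊤ : Subgroup K) v) := by
    refine ⟨fun v a ha => (mem_Sb.1 ha).1, fun g v a ha => Sb_conj ⊤ g v ha, ?_⟩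
    intro u v _ a _ hau
    exact mem_Sb.2 ⟨hau, Subgroup.mem_top a⟩
  have hle : ∀ v, At K M v ≤ Sb (⊤ : Subgroup K) v := fun v a ha =>
    mem_Sb.2 ⟨(mem_At.1 ha).1, Subgroup.mem_top a⟩
  have hs0 : StepV C (fun _ : W => (⊥ : Subgroup K)) (At K M) ∧
      StepH T' (fun _ : W => (⊥ : Subgroup K)) (At K M) := by
    refine hAbel C hC hMet K W T' _ _ hC0 hCA (fun _ => bot_le) fun v => ?_
    rw [Subgroup.commutator_le]
    intro g hg h hh
    rw [Subgroup.mem_bot, commutatorElement_eq_one_iff_mul_comm]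
    exact Subtype.ext (h𝓐.comm (ι v) (M v) (hM1 v) g (mem_At.1 hg).2 h (mem_At.1 hh).2)
  have hsup : ∀ (v : W) (x : K), x • v = v → ∀ s ∈ Sb (⊤ : Subgroup K) v ⊔ Subgroup.zpowers x,
      s • v = v := by
    intro v x hx s hs
    have h1 : Sb (⊤ : Subgroup K) v ⊔ Subgroup.zpowers x ≤ MulAction.stabilizer K v := by
      refine sup_le (fun g hg => (mem_Sb.1 hg).1) ?_
      rw [Subgroup.zpowers_le]
      exact hx
    exact h1 hs
  have hs1 : StepV C (At K M) (fun v : W => Sb (⊤ : Subgroup K) v) := by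
    intro v x hx
    obtain ⟨Q, _, f, hQ, hf⟩ := h𝓐.quo (ι v) (M v) (hM1 v) (hMb v)
      ((Sb (⊤ : Subgroup K) v ⊔ Subgroup.zpowers x).map K.subtype) (by
        rintro _ ⟨k, hk, rfl⟩
        have h1 := hsup v x hx k hk
        refine ⟨hW.fix.1 h1, ?_⟩
        have h2 := hMe k v
        rw [h1] at h2
        exact h2)
    refine ⟨Q, _, f.comp (K.subtype.subgroupMap _), hQ, fun s => (hf _).trans ?_⟩
    rw [mem_At]
    constructor
    · intro h
      exact ⟨hsup v x hx s s.2, h⟩
    · rintro ⟨_, h⟩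
      exact h
  have hh1 : StepH T' (At K M) (fun v : W => Sb (⊤ : Subgroup K) v) := by
    intro u v huv x hxu hx
    refine hedge u v huv x hxu ?_
    have h1 : ⁅Sb (⊤ : Subgroup K) v, Sb (⊤ : Subgroup K) v⁆ ⊔ At K M v ≤
        MulAction.stabilizer K v := by
      refine sup_le ?_ (fun g hg => (mem_At.1 hg).1)
      rw [Subgroup.commutator_le]
      intro g hg h hh
      have h3 : g ∈ MulAction.stabilizer K v := (mem_Sb.1 hg).1
      have h4 : h ∈ MulAction.stabilizer K v := (mem_Sb.1 hh).1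
      rw [commutatorElement_def]
      exact mul_mem (mul_mem (mul_mem h3 h4) (inv_mem h3)) (inv_mem h4)
    exact h1 hx
  have hq : C (K ⧸ (⊤ : Subgroup K)) := by
    have : Subsingleton (K ⧸ (⊤ : Subgroup K)) := QuotientGroup.subsingleton_quotient_top
    exact hC.base.of_injective _ _ (1 : K ⧸ (⊤ : Subgroup K) →* Multiplicative ℤ)
      (Function.injective_of_subsingleton _) hC.base.int
  refine hMain C hC hMet K W T' hW.tree hW.act ⊤ hq 2 (fun i => match i with
    | 0 => fun _ => ⊥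
    | 1 => At K M
    | _ => fun v => Sb (⊤ : Subgroup K) v) ?_ (fun v => rfl) (fun v => rfl) ?_
  · intro i hi
    match i, hi with
    | 0, _ => exact hC0
    | 1, _ => exact hCA
    | 2, _ => exact hC2
  · intro i hi
    match i, hi with
    | 0, _ => exact ⟨fun _ => bot_le, hs0.1, Or.inl hs0.2⟩
    | 1, _ => exact ⟨hle, hs1, Or.inl hh1⟩

end Pool.Agent.N508.CS
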