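import Pool.Agent.N508.CS.Stm3

/-!
# Families of abelian subgroups: passing to subgroups and subtrees (helper342)
-/

set_option autoImplicit false

namespace Pool.Agent.N508.CS

open SimpleGraph
open Pool.Agent.Y110.FJ
open Pool.Agent.N509.TK
open Pool.Agent.N509.TX

theorem tis_big {G H : Type} [Group G] [Group H] {n : ℕ} (f : G → H) (hf : Function.Injective f)
    {A : Subgroup G} {B : Subgroup H} (h : ∀ a ∈ A, f a ∈ B) (hA : Big n A) : Big n B := by
  classical
  obtain ⟨F, hF, hn⟩ := hA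
  refine ⟨F.image f, ?_, ?_⟩
  · intro g hg
    obtain ⟨a, ha, rfl⟩ := Finset.mem_image.1 hg
    exact h a (hF a ha)
  · rwa [Finset.card_image_of_injective _ hf]

theorem t_tis : S_TIS := by
  intro C n G V _ _ T 𝓐 hT H W _ T' ι hS
  have hcoe : Function.Injective (fun h : H => (h : G)) := Subtype.coe_injective
  refine ⟨?_, ?_, ?_, ?_, ?_⟩
  · rintro w B ⟨-, A, hA, rfl⟩ a ha b hb
    exact Subtype.ext (hT.comm _ A hA a ha b hb)
  · rintro g w B ⟨hB, A, hA, rfl⟩
    refine ⟨tis_big (fun x => MulAut.conj g x) (MulAut.conj g).injective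
      (fun a ha => ⟨a, ha, rfl⟩) hB, A.map (MulAut.conj (g : G)).toMonoidHom, ?_, ?_⟩
    · rw [hS.eqv]
      exact hT.eqv (g : G) (ι w) A hA
    · ext x
      rw [Subgroup.mem_subgroupOf, Subgroup.mem_map, Subgroup.mem_map]
      constructor
      · rintro ⟨y, hy, rfl⟩
        exact ⟨(y : G), hy, rfl⟩
      · rintro ⟨a, ha, hax⟩
        have hax' : (g : G) * a * (g : G)⁻¹ = x := hax
        have h1 : ((g⁻¹ * x * g : H) : G) = a := by
          push_cast
          rw [← hax']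
          group
        refine ⟨g⁻¹ * x * g, ?_, ?_⟩
        · rw [Subgroup.mem_subgroupOf, h1]
          exact ha
        · show g * (g⁻¹ * x * g) * g⁻¹ = x
          group
  · rintro w B ⟨-, A, hA, rfl⟩ B' ⟨-, A', hA', rfl⟩ hb
    have h1 : A = A' := hT.ti _ A hA A' hA'
      (tis_big (A := A.subgroupOf H ⊓ A'.subgroupOf H) (fun h : H => (h : G)) hcoe
        (fun a ha => ⟨ha.1, ha.2⟩) hb)
    rw [h1]
  · intro w u hwu hb
    have h1 : Big n (MulAction.stabilizer G (ι w) ⊓ MulAction.stabilizer G (ι u)) := by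
      refine tis_big (fun h : H => (h : G)) hcoe (fun a ha => ?_) hb
      obtain ⟨ha1, ha2⟩ := ha
      refine ⟨?_, ?_⟩
      · exact hS.fix.1 (MulAction.mem_stabilizer_iff.1 ha1)
      · exact hS.fix.1 (MulAction.mem_stabilizer_iff.1 ha2)
    obtain ⟨A, hA, hle⟩ := hT.edge _ _ (hS.adj _ _ hwu) h1
    have h2 : MulAction.stabilizer H w ⊓ MulAction.stabilizer H u ≤ A.subgroupOf H := by
      intro a ha
      rw [Subgroup.mem_subgroupOf]
      refine hle ⟨?_, ?_⟩
      · exact hS.fix.1 (MulAction.mem_stabilizer_iff.1 ha.1)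
      · exact hS.fix.1 (MulAction.mem_stabilizer_iff.1 ha.2)
    exact ⟨A.subgroupOf H, ⟨tis_big id Function.injective_id (fun a ha => h2 ha) hb, A, hA, rfl⟩,
      h2⟩
  · rintro w B ⟨-, A, hA, rfl⟩ hB S hSt
    have hbA : Big n A := tis_big (fun h : H => (h : G)) hcoe (fun a ha => ha) hB
    have key : ∀ g ∈ S.map H.subtype, g • ι w = ι w ∧ A.map (MulAut.conj g).toMonoidHom = A := by
      rintro g ⟨s, hs, rfl⟩
      obtain ⟨h1, h2⟩ := hSt s hs
      have h3 : (s : G) • ι w = ι w := hS.fix.1 h1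
      refine ⟨h3, ?_⟩
      have h4 := hT.eqv (s : G) (ι w) A hA
      rw [h3] at h4
      refine hT.ti _ _ h4 _ hA (tis_big (fun h : H => (h : G)) hcoe (fun a ha => ⟨?_, ha⟩) hB)
      have h5 : a ∈ (A.subgroupOf H).map (MulAut.conj s).toMonoidHom := by rw [h2]; exact ha
      obtain ⟨b, hb, rfl⟩ := h5
      exact ⟨(b : G), hb, rfl⟩
    obtain ⟨Q, iQ, f, hQ, hf⟩ := hT.quo _ A hA hbA (S.map H.subtype) key
    refine ⟨Q, iQ, f.comp (H.subtype.subgroupMap S), hQ, fun s => ?_⟩
    rw [MonoidHom.comp_apply, hf, Subgroup.mem_subgroupOf]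
    rfl

end Pool.Agent.N508.CS
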