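import Pool.Agent.N508.CS.Stm
import Pool.Agent.N509.TK.Fin

/-!
# Project CS: the leaves S_TOP and S_ABEL (helper755)
-/

set_option autoImplicit false

namespace Pool.Agent.N508.CS

open SimpleGraph
open scoped commutatorElement
open Pool.Agent.Y110.FJ
open Pool.Agent.N509.TK
open Pool.Agent.N509.TX

theorem t_top : S_TOP := by
  intro C hC G V _ _ T hT hact K _ hQ N _ heN
  subst heN
  obtain ⟨S, hS⟩ := Tv.exists (R := Sb (V := V) K) hT
  have hq := Tq.of_Sb hT hact K hS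
  refine quot_tree hC hT hact hq (QuotientGroup.mk' K) hQ ?_ ?_
  · intro h hh
    exact (QuotientGroup.eq_one_iff h).2 (Sb_le (V := V) K hh)
  · intro v g hg h1
    have h2 : g ∈ K := (QuotientGroup.eq_one_iff g).1 h1
    exact le_iSup (Sb K) v (mem_Sb.2 ⟨hg, h2⟩)

/-- the products of the elements of a subgroup and the powers of an element which normalizes it -/
theorem mem_cyc {G : Type} [Group G] (B : Subgroup G) (x : G)
    (hx : ∀ n : ℤ, ∀ b ∈ B, x ^ n * b * (x ^ n)⁻¹ ∈ B) {d : G} (hd : d ∈ B ⊔ Subgroup.zpowers x) :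
    ∃ n : ℤ, ∃ b ∈ B, d = b * x ^ n := by
  let M : Subgroup G :=
    { carrier := {d | ∃ n : ℤ, ∃ b ∈ B, d = b * x ^ n}
      one_mem' := ⟨0, 1, one_mem _, by simp⟩
      mul_mem' := by
        rintro _ _ ⟨n, b, hb, rfl⟩ ⟨m, c, hc, rfl⟩
        refine ⟨n + m, b * (x ^ n * c * (x ^ n)⁻¹), mul_mem hb (hx n c hc), ?_⟩
        rw [zpow_add]
        group
      inv_mem' := by
        rintro _ ⟨n, b, hb, rfl⟩
        refine ⟨-n, x ^ (-n) * b⁻¹ * (x ^ (-n))⁻¹, hx (-n) _ (inv_mem hb), ?_⟩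
        group }
  have h1 : B ⊔ Subgroup.zpowers x ≤ M := by
    refine sup_le (fun b hb => ⟨0, b, hb, by simp⟩) ?_
    rw [Subgroup.zpowers_le]
    exact ⟨1, 1, one_mem _, by simp⟩
  exact h1 hd

theorem t_abel : S_ABEL := by
  intro C hC hM G V _ _ T A B hA hB hAB hcomm
  refine ⟨?_, ?_⟩
  · intro v x hxv
    have hfix : ∀ g : G, g • v = v → ∀ a ∈ A v, g * a * g⁻¹ ∈ A v := by
      intro g hg a ha
      have := hA.eqv g v a ha
      rwa [hg] at this
    have hfixB : ∀ g : G, g • v = v → ∀ b ∈ B v, g * b * g⁻¹ ∈ B v := by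
      intro g hg a ha
      have := hB.eqv g v a ha
      rwa [hg] at this
    have hle : B v ⊔ Subgroup.zpowers x ≤ MulAction.stabilizer G v := by
      refine sup_le (fun b hb => hB.fix v b hb) ?_
      rw [Subgroup.zpowers_le]
      exact hxv
    have hzp : ∀ n : ℤ, x ^ n • v = v := fun n =>
      hle (Subgroup.mem_sup_right (Subgroup.zpow_mem _ (Subgroup.mem_zpowers x) n))
    have hx : ∀ n : ℤ, ∀ b ∈ B v, x ^ n * b * (x ^ n)⁻¹ ∈ B v := fun n b hb =>
      hfixB _ (hzp n) b hb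
    have hcm : ∀ d ∈ B v ⊔ Subgroup.zpowers x, ∀ e ∈ B v ⊔ Subgroup.zpowers x, ⁅d, e⁆ ∈ B v := by
      intro d hd e he
      obtain ⟨n, b, hb, rfl⟩ := mem_cyc (B v) x hx hd
      obtain ⟨m, c, hc, rfl⟩ := mem_cyc (B v) x hx he
      have e1 : ⁅b * x ^ n, c * x ^ m⁆ = b * (x ^ n * c * (x ^ n)⁻¹) *
          (x ^ m * b⁻¹ * (x ^ m)⁻¹) * c⁻¹ := by
        rw [commutatorElement_def]
        have e2 : x ^ m * (x ^ n)⁻¹ = (x ^ n)⁻¹ * x ^ m := by
          rw [← zpow_neg, ← zpow_add, ← zpow_add, add_comm]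
        calc b * x ^ n * (c * x ^ m) * (b * x ^ n)⁻¹ * (c * x ^ m)⁻¹
            = b * x ^ n * c * (x ^ m * (x ^ n)⁻¹) * b⁻¹ * (x ^ m)⁻¹ * c⁻¹ := by group
          _ = b * (x ^ n * c * (x ^ n)⁻¹) * (x ^ m * b⁻¹ * (x ^ m)⁻¹) * c⁻¹ := by
              rw [e2]
              group
      rw [e1]
      exact mul_mem (mul_mem (mul_mem hb (hx n c hc)) (hx m _ (inv_mem hb))) (inv_mem hc)
    let D : Subgroup G := B v ⊔ Subgroup.zpowers x
    let A' : Subgroup D := (A v).subgroupOf D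
    have hn : A'.Normal := by
      refine ⟨fun a ha d => ?_⟩
      exact hfix (d : G) (hle d.2) (a : G) ha
    refine ⟨D ⧸ A', inferInstance, QuotientGroup.mk' A', hM _ ?_, ?_⟩
    · refine metab (((B v).subgroupOf D).map (QuotientGroup.mk' A')) ?_ ?_
      · rintro _ ⟨b, hb, rfl⟩ _ ⟨c, hc, rfl⟩
        have h1 : (b : G) * c * (b : G)⁻¹ * (c : G)⁻¹ ∈ A v :=
          hcomm v (Subgroup.commutator_mem_commutator (H₁ := B v) (H₂ := B v) hb hc)
        have h2 : (QuotientGroup.mk' A') (b * c * b⁻¹ * c⁻¹) = 1 :=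
          (QuotientGroup.eq_one_iff _).2 h1
        rw [map_mul, map_mul, map_mul, map_inv, map_inv, mul_inv_eq_one, mul_inv_eq_iff_eq_mul] at h2
        exact h2
      · intro p q
        obtain ⟨d, rfl⟩ := QuotientGroup.mk'_surjective A' p
        obtain ⟨e, rfl⟩ := QuotientGroup.mk'_surjective A' q
        refine ⟨⁅d, e⁆, ?_, map_commutatorElement _ _ _⟩
        exact hcm d d.2 e e.2
    · intro s
      exact QuotientGroup.eq_one_iff s
  · intro u v _ x _ hx
    exact (sup_le (hcomm v) le_rfl : ⁅B v, B v⁆ ⊔ A v ≤ A v) hx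

end Pool.Agent.N508.CS
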