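import Pool.Agent.N508.CS.StmF
import Pool.Agent.N508.CS.Ktr
import Pool.Agent.N509.TK.Ext
import Pool.Agent.R684.FP.Main

/-!
# Kernels which act on trees with trivial edge stabilizers (helper26)
-/

set_option autoImplicit false

namespace Pool.Agent.N508.CS

open SimpleGraph
open Pool.Agent.Y110.FJ
open Pool.Agent.N509.TK
open Pool.Agent.R684.FP (FbC IsFreeProd Pm main_all)

theorem trv_mem {G V : Type} [Group G] {N : Subgroup G} [MulAction N V] {v : V} (x : N) :
    (x : G) ∈ Sv N v ↔ x • v = v := by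
  constructor
  · rintro ⟨y, hy, hyx⟩
    have h1 : y = x := Subtype.ext hyx
    rw [← h1]
    exact hy
  · intro h
    exact ⟨x, h, rfl⟩

theorem trv_ex {G V : Type} [Group G] {N : Subgroup G} [MulAction N V] {v : V} {x : G}
    (hx : x ∈ Sv N v) : ∃ y : N, y • v = v ∧ (y : G) = x := by
  obtain ⟨y, hy, hyx⟩ := hx
  exact ⟨y, hy, hyx⟩

theorem trv_fam {G V : Type} [Group G] {N : Subgroup G} [MulAction N V] {T : SimpleGraph V}
    (htr : ∀ u v : V, T.Adj u v → ∀ x : N, x • u = u → x • v = v → x = 1) :
    Fam T (fun v : V => MulAction.stabilizer N v) where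
  fix v r hr := hr
  eqv g v r hr := by
    rw [MulAction.mem_stabilizer_iff] at hr ⊢
    rw [mul_smul, mul_smul, inv_smul_smul, hr]
  fre u v h r hr hu := htr u v h r hu hr

/-- transport of a free product from the subgroup `N` to the group -/
theorem trv_fp {G I : Type} [Group G] {N : Subgroup G} (M : Subgroup N) (R : I → Subgroup N)
    (h : IsFreeProd M R) : IsFreeProd (M.map N.subtype) (fun i => (R i).map N.subtype) := by
  constructor
  · rw [← Subgroup.map_iSup, h.sup]
  · have hN : Function.Injective N.subtype := N.subtype_injective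
    let e : ∀ i, R i ≃* (R i).map N.subtype := fun i => (R i).equivMapOfInjective N.subtype hN
    let Φ : Monoid.CoprodI (fun i => R i) →* Monoid.CoprodI (fun i => (R i).map N.subtype) :=
      Monoid.CoprodI.lift fun i =>
        (Monoid.CoprodI.of (M := fun i => (R i).map N.subtype) (i := i)).comp (e i).toMonoidHom
    let Ψ : Monoid.CoprodI (fun i => (R i).map N.subtype) →* Monoid.CoprodI (fun i => R i) :=
      Monoid.CoprodI.lift fun i =>
        (Monoid.CoprodI.of (M := fun i => R i) (i := i)).comp (e i).symm.toMonoidHom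
    have h1 : Φ.comp Ψ = MonoidHom.id _ := by
      refine Monoid.CoprodI.ext_hom _ _ fun i => ?_
      ext x
      change Φ (Ψ (Monoid.CoprodI.of (M := fun i => ↥((R i).map N.subtype)) (i := i) x)) =
        Monoid.CoprodI.of (M := fun i => ↥((R i).map N.subtype)) (i := i) x
      have e1 : Ψ (Monoid.CoprodI.of (M := fun i => ↥((R i).map N.subtype)) (i := i) x) =
          Monoid.CoprodI.of (M := fun i => ↥(R i)) (i := i) ((e i).symm x) :=
        Monoid.CoprodI.lift_of _ _
      have e2 : Φ (Monoid.CoprodI.of (M := fun i => ↥(R i)) (i := i) ((e i).symm x)) =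
          Monoid.CoprodI.of (M := fun i => ↥((R i).map N.subtype)) (i := i) ((e i) ((e i).symm x)) :=
        Monoid.CoprodI.lift_of _ _
      rw [e1, e2, MulEquiv.apply_symm_apply]
    have h2 : (Monoid.CoprodI.lift fun i => ((R i).map N.subtype).subtype).comp Φ =
        N.subtype.comp (Monoid.CoprodI.lift fun i => (R i).subtype) := by
      refine Monoid.CoprodI.ext_hom _ _ fun i => ?_
      ext x
      have e1 : Φ (Monoid.CoprodI.of (M := fun i => ↥(R i)) (i := i) x) =
          Monoid.CoprodI.of (M := fun i => ↥((R i).map N.subtype)) (i := i) ((e i) x) :=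
        Monoid.CoprodI.lift_of _ _
      change (Monoid.CoprodI.lift fun i => ((R i).map N.subtype).subtype)
        (Φ (Monoid.CoprodI.of (M := fun i => ↥(R i)) (i := i) x)) =
        N.subtype ((Monoid.CoprodI.lift fun i => (R i).subtype)
          (Monoid.CoprodI.of (M := fun i => ↥(R i)) (i := i) x))
      rw [e1, Monoid.CoprodI.lift_of, Monoid.CoprodI.lift_of]
      rfl
    rw [injective_iff_map_eq_one]
    intro z hz
    have h3 : Φ (Ψ z) = z := DFunLike.congr_fun h1 z
    have h4 : N.subtype ((Monoid.CoprodI.lift fun i => (R i).subtype) (Ψ z)) = 1 := by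
      have h5 := DFunLike.congr_fun h2 (Ψ z)
      rw [MonoidHom.comp_apply, MonoidHom.comp_apply, h3, hz] at h5
      exact h5.symm
    have h5 : (Monoid.CoprodI.lift fun i => (R i).subtype) (Ψ z) = 1 := hN (by rw [h4, map_one])
    have h6 : Ψ z = 1 := h.inj (by rw [h5, map_one])
    rw [← h3, h6, map_one]

theorem t_trv : S_TFR → S_TRV := by
  intro tfr C hC hF G V _ N _ _ T hT hadj hinv htr hperm hB hQ
  have hR : Fam T (fun v : V => MulAction.stabilizer N v) := trv_fam htr
  -- the group generated by the stabilizers is normal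
  have hconj : ∀ (g : G) (x : N), x ∈ (⨆ v : V, MulAction.stabilizer N v) →
      (MulAut.conjNormal g : MulAut N) x ∈ ⨆ v : V, MulAction.stabilizer N v := by
    intro g x hx
    have h1 : (⨆ v : V, MulAction.stabilizer N v) ≤
        (⨆ v : V, MulAction.stabilizer N v).comap (MulAut.conjNormal g : MulAut N).toMonoidHom := by
      refine iSup_le fun v a ha => ?_
      obtain ⟨w, hw⟩ := hperm g v
      rw [Subgroup.mem_comap]
      refine (le_iSup (fun v : V => MulAction.stabilizer N v) w) ?_
      exact (hw a _ (MulAut.conjNormal_apply g a)).1 ha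
    exact h1 hx
  have hY : ((⨆ v : V, MulAction.stabilizer N v).map N.subtype).Normal := by
    refine ⟨fun x hx g => ?_⟩
    obtain ⟨y, hy, rfl⟩ := hx
    exact ⟨MulAut.conjNormal g y, hconj g y hy, by
      rw [Subgroup.subtype_apply, Subgroup.subtype_apply, MulAut.conjNormal_apply]⟩
  have hQY : C (G ⧸ (⨆ v : V, MulAction.stabilizer N v).map N.subtype) :=
    ktr_top tfr hC hF N T hT hadj hinv _ rfl _ rfl hQ
  obtain ⟨S, hS⟩ := Tv.exists (R := fun v : V => MulAction.stabilizer N v) hT
  have hfp := trv_fp _ _ (hS.freeProd hT hadj hR)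
  refine main_all hC hF hQY _ Set.univ hfp (fun i hi => absurd (Set.mem_univ i) hi) ?_ ?_
  · -- the permutation hypothesis
    rintro ⟨s, hs, hne⟩ _ g
    obtain ⟨w, hw⟩ := hperm g s
    obtain ⟨h, hh, s', hs', rfl⟩ := hS.cover hT hadj hR w
    have key : ∀ a : N, a • s = s ↔ (h⁻¹ * (MulAut.conjNormal g : MulAut N) a * h) • s' = s' := by
      intro a
      rw [hw a _ (MulAut.conjNormal_apply g a), mul_smul, mul_smul, inv_smul_eq_iff]
    have hval : ∀ a : N, ((h⁻¹ * (MulAut.conjNormal g : MulAut N) a * h : N) : G) =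
        ((h⁻¹ : N) : G) * (g * a * g⁻¹) * ((h⁻¹ : N) : G)⁻¹ := by
      intro a
      push_cast
      rw [MulAut.conjNormal_apply, inv_inv]
    refine ⟨⟨s', hs', fun hb => hne ?_⟩, Set.mem_univ _, ((h⁻¹ : N) : G),
      ⟨h⁻¹, inv_mem hh, rfl⟩, fun x => ⟨fun hx => ?_, fun hx => ?_⟩⟩
    · rw [eq_bot_iff]
      intro a ha
      have h1 : (h⁻¹ * (MulAut.conjNormal g : MulAut N) a * h) ∈ MulAction.stabilizer N s' :=
        (key a).1 ha
      have hb' : MulAction.stabilizer N s' = ⊥ := hb
      rw [hb', Subgroup.mem_bot] at h1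
      rw [Subgroup.mem_bot]
      have h2 : (MulAut.conjNormal g : MulAut N) a = 1 := by
        have : (MulAut.conjNormal g : MulAut N) a =
          h * (h⁻¹ * (MulAut.conjNormal g : MulAut N) a * h) * h⁻¹ := by group
        rw [this, h1]; group
      exact (MulEquiv.map_eq_one_iff _).1 h2
    · obtain ⟨a, ha, rfl⟩ := trv_ex (N := N) hx
      change _ ∈ Sv N s'
      rw [← hval a, trv_mem]
      exact (key a).1 ha
    · obtain ⟨b, hb, hbx⟩ := trv_ex (N := N) hx
      have hxN : x ∈ N := by
        have h1 : x = g⁻¹ * (((h : N) : G) * (b : G) * ((h : N) : G)⁻¹) * g⁻¹⁻¹ := by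
          rw [hbx]
          push_cast
          group
        rw [h1]
        exact Subgroup.Normal.conj_mem inferInstance _ (h * b * h⁻¹ : N).2 g⁻¹
      have h2 : b = h⁻¹ * (MulAut.conjNormal g : MulAut N) ⟨x, hxN⟩ * h := by
        apply Subtype.ext
        rw [hval, hbx]
      change x ∈ Sv N s
      have h3 := (key ⟨x, hxN⟩).2 (by rw [← h2]; exact hb)
      exact (trv_mem (N := N) (⟨x, hxN⟩ : N)).2 h3
  · rintro ⟨s, hs, hne⟩ _ g hg
    refine hB s g fun x y hxy => ?_
    have h1 := hg (x : G)
    rw [← hxy] at h1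
    change ((x : G) ∈ Sv N s ↔ (y : G) ∈ Sv N s) at h1
    rwa [trv_mem, trv_mem] at h1

end Pool.Agent.N508.CS
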